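import Mathlib

/-!
# [TIF] Lagrangian subgroups and links

`J` is an abelian group with an action of `G`, `e n` is the pairing on `J[ℓ ^ n]`, and `A = ρ → J`.
-/

set_option autoImplicit false
set_option linter.unusedSectionVars false

namespace Pool.Agent.TIFA

section defs

variable {ρ J M : Type*} [Fintype ρ] [AddCommGroup J] [CommMonoid M]

/-- The product pairing on `ρ → J`. -/
def eA (e : ℕ → J → J → M) (n : ℕ) (x y : ρ → J) : M := ∏ r, e n (x r) (y r)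

/-- A `G`-stable subgroup `D` of `A[ℓ ^ (2 c)]`, `A = ρ → J`, which is its own orthogonal. -/
structure Lag (ℓ : ℕ) (G ρ : Type*) {J M : Type*} [Fintype ρ] [AddCommGroup J] [CommMonoid M]
    [Group G] [DistribMulAction G J] (e : ℕ → J → J → M) where
  D : AddSubgroup (ρ → J)
  c : ℕ
  stable : ∀ (σ : G), ∀ x ∈ D, (fun r => σ • x r) ∈ D
  lag : ∀ x, x ∈ D ↔ ℓ ^ (2 * c) • x = 0 ∧ ∀ y ∈ D, eA e (2 * c) x y = 1

/-- The action of matrices of endomorphisms. -/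
def act (a : Matrix ρ ρ (AddMonoid.End J)) : (ρ → J) →+ (ρ → J) where
  toFun x r := ∑ s, a r s (x s)
  map_zero' := by
    funext r
    simp
  map_add' x y := by
    funext r
    simp [Finset.sum_add_distrib]

theorem act_apply (a : Matrix ρ ρ (AddMonoid.End J)) (x : ρ → J) (r : ρ) :
    act a x r = ∑ s, a r s (x s) := rfl

/-- All entries are in `Hon`. -/
def EH (Hon : Subring (AddMonoid.End J)) (a : Matrix ρ ρ (AddMonoid.End J)) : Prop :=
  ∀ r s, a r s ∈ Hon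

/-- What the pigeonhole gives for two Lagrangian subgroups: the graph `R` of an isomorphism
`A / D ≃ A / D'`, and the induced homomorphisms `a a' : A → A`. -/
def Lk {ℓ : ℕ} {G : Type*} [Group G] [DistribMulAction G J] {e : ℕ → J → J → M}
    (S : ℕ → Matrix ρ ρ (AddMonoid.End J) → Prop) (L L' : Lag ℓ G ρ e) : Prop :=
  ∃ R : AddSubgroup ((ρ → J) × (ρ → J)),
    (∀ x, ∃ y, (x, y) ∈ R) ∧ (∀ y, ∃ x, (x, y) ∈ R) ∧
    (∀ x, (x, 0) ∈ R ↔ x ∈ L.D) ∧ (∀ y, (0, y) ∈ R ↔ y ∈ L'.D) ∧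
    (∃ a a' : Matrix ρ ρ (AddMonoid.End J), S (L.c + L'.c) a ∧ S (L.c + L'.c) a' ∧
      ∀ x y, (x, y) ∈ R → act a x = ℓ ^ (2 * L'.c) • y ∧ act a' y = ℓ ^ (2 * L.c) • x) ∧
    (∀ m x y x' y', (x, y) ∈ R → (x', y') ∈ R → ℓ ^ m • x ∈ L.D → ℓ ^ m • x' ∈ L.D →
      eA e (m + 2 * L.c) x x' = eA e (m + 2 * L'.c) y y')

end defs

end Pool.Agent.TIFA
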