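import Pool.Agent.TIFA.Jor

/-!
# Part REC, final form: eight copies with weight one

Input: a subgroup `Γ` of the isometries of `ψ ⊗ 1` (eight copies) which commute with `F ⊗ 1`,
discrete (`hfin`), with finitely many double cosets (`hY`) and with blocks in a subspace `E`.
Output: the commutant of `F` is contained in `E` and the minimal polynomial of `F` is squarefree.
-/

set_option autoImplicit false

open Set Matrix Polynomial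
open scoped Kronecker

namespace Pool.Agent.TIFA

/-- a square root of `1 - l ^ 3` -/
theorem exists_sqrt (l : ℕ) [Fact l.Prime] :
    ∃ b : ℚ_[l], ‖b‖ = 1 ∧ b ^ 2 = 1 - (l : ℚ_[l]) ^ 3 := by
  have hl1 : (1 : ℝ) < l := by exact_mod_cast (Fact.out : l.Prime).one_lt
  set F : Polynomial ℤ_[l] := X ^ 2 - C (1 - (l : ℤ_[l]) ^ 3) with hF
  have hF1 : F.aeval (1 : ℤ_[l]) = (l : ℤ_[l]) ^ 3 := by
    rw [hF]; simp
  have hF2 : (derivative F).aeval (1 : ℤ_[l]) = 2 := by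
    rw [hF, Polynomial.derivative_sub, Polynomial.derivative_C, Polynomial.derivative_X_pow]
    simp
  have hnorm2 : ((l : ℝ)⁻¹) ^ 3 < ‖(2 : ℤ_[l])‖ ^ 2 := by
    rcases (Fact.out : l.Prime).eq_two_or_odd' with h | h
    · subst h
      have h1 : ‖(2 : ℤ_[2])‖ = (2 : ℝ)⁻¹ := by
        have := PadicInt.norm_p (p := 2)
        exact_mod_cast this
      rw [h1]; norm_num
    · have h1 : ‖(2 : ℤ_[l])‖ = 1 := by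
        have h2 : ‖((2 : ℤ) : ℤ_[l])‖ = 1 := by
          apply le_antisymm (PadicInt.norm_le_one _)
          by_contra hcon
          push Not at hcon
          rw [PadicInt.norm_int_lt_one_iff_dvd] at hcon
          have h3 : l ∣ 2 := by exact_mod_cast hcon
          have h4 := (Nat.prime_dvd_prime_iff_eq (Fact.out : l.Prime) Nat.prime_two).1 h3
          rw [h4] at h
          exact absurd h (by decide)
        exact_mod_cast h2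
      rw [h1, one_pow]
      exact pow_lt_one₀ (by positivity) (inv_lt_one_of_one_lt₀ hl1) (by norm_num)
  have hlt : ‖F.aeval (1 : ℤ_[l])‖ < ‖(derivative F).aeval (1 : ℤ_[l])‖ ^ 2 := by
    rw [hF1, hF2, norm_pow, PadicInt.norm_p]
    exact hnorm2
  obtain ⟨z, hz, -⟩ := hensels_lemma hlt
  have hz2 : z ^ 2 = 1 - (l : ℤ_[l]) ^ 3 := by
    rw [hF] at hz
    simp only [map_sub, map_pow, aeval_X, aeval_C] at hz
    exact sub_eq_zero.1 hz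
  refine ⟨(z : ℚ_[l]), ?_, by exact_mod_cast congrArg (fun x : ℤ_[l] => (x : ℚ_[l])) hz2⟩
  have h1 : ‖(z : ℤ_[l]) ^ 2‖ = 1 := by
    rw [hz2]
    have h2 : ‖(l : ℤ_[l]) ^ 3‖ < ‖(1 : ℤ_[l])‖ := by
      rw [norm_pow, PadicInt.norm_p, norm_one]
      exact pow_lt_one₀ (by positivity) (inv_lt_one_of_one_lt₀ hl1) (by norm_num)
    rw [sub_eq_add_neg, IsUltrametricDist.norm_add_eq_max_of_norm_ne_norm
      (by rw [norm_neg]; exact h2.ne'), norm_neg, max_eq_left h2.le, norm_one]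
  rw [norm_pow] at h1
  have h3 : ‖(z : ℤ_[l])‖ = 1 := by
    have h4 := norm_nonneg z
    nlinarith [PadicInt.norm_le_one z]
  exact_mod_cast h3

/-- `-1` is a sum of four squares in `ℚ_[l]` -/
theorem neg_one_four_squares (l : ℕ) [Fact l.Prime] :
    ∃ a b c d : ℚ_[l], a ^ 2 + b ^ 2 + c ^ 2 + d ^ 2 = -1 := by
  obtain ⟨b, hb, hb2⟩ := exists_sqrt l
  have hb0 : b ≠ 0 := by
    intro h
    rw [h, norm_zero] at hb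
    exact zero_ne_one hb
  obtain ⟨x, y, z, w, hsum⟩ := Nat.sum_four_squares (l ^ 3 - 1)
  have hl : 1 ≤ l ^ 3 := Nat.one_le_pow _ _ (Fact.out : l.Prime).pos
  have hsum' : (x : ℚ_[l]) ^ 2 + (y : ℚ_[l]) ^ 2 + (z : ℚ_[l]) ^ 2 + (w : ℚ_[l]) ^ 2 = -b ^ 2 := by
    rw [hb2]
    have h1 : ((l ^ 3 - 1 : ℕ) : ℚ_[l]) = (l : ℚ_[l]) ^ 3 - 1 := by
      rw [Nat.cast_sub hl]; push_cast; ring
    rw [← hsum] at h1
    push_cast at h1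
    rw [h1]; ring
  refine ⟨b⁻¹ * x, b⁻¹ * y, b⁻¹ * z, b⁻¹ * w, ?_⟩
  have h2 : (b⁻¹ * (x : ℚ_[l])) ^ 2 + (b⁻¹ * (y : ℚ_[l])) ^ 2 + (b⁻¹ * (z : ℚ_[l])) ^ 2 +
    (b⁻¹ * (w : ℚ_[l])) ^ 2 = b⁻¹ ^ 2 * ((x : ℚ_[l]) ^ 2 + (y : ℚ_[l]) ^ 2 +
      (z : ℚ_[l]) ^ 2 + (w : ℚ_[l]) ^ 2) := by ring
  rw [h2, hsum']
  field_simp

/-- an isotropic plane in the sum of eight squares -/
theorem exists_plane8 (l : ℕ) [Fact l.Prime] : ∃ v w : Fin 8 → ℚ_[l], v ⬝ᵥ v = 0 ∧ v ⬝ᵥ w = 0 ∧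
    w ⬝ᵥ v = 0 ∧ w ⬝ᵥ w = 0 ∧ w 0 = 0 ∧ v 0 = 1 ∧ w 1 = 1 := by
  obtain ⟨a, b, c, d, h⟩ := neg_one_four_squares l
  have hd : ∀ x y : Fin 8 → ℚ_[l], x ⬝ᵥ y = x 0 * y 0 + x 1 * y 1 + x 2 * y 2 + x 3 * y 3 +
      x 4 * y 4 + x 5 * y 5 + x 6 * y 6 + x 7 * y 7 := by
    intro x y
    simp only [dotProduct, Fin.sum_univ_eight]
  refine ⟨![1, 0, 0, 0, a, -b, -c, -d], ![0, 1, 0, 0, b, a, d, -c], ?_, ?_, ?_, ?_, rfl, rfl, rfl⟩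
  · rw [hd]
    change (1 : ℚ_[l]) * 1 + 0 * 0 + 0 * 0 + 0 * 0 + a * a + -b * -b + -c * -c + -d * -d = 0
    linear_combination h
  · rw [hd]
    change (1 : ℚ_[l]) * 0 + 0 * 1 + 0 * 0 + 0 * 0 + a * b + -b * a + -c * d + -d * -c = 0
    ring
  · rw [hd]
    change (0 : ℚ_[l]) * 1 + 1 * 0 + 0 * 0 + 0 * 0 + b * a + a * -b + d * -c + -c * -d = 0
    ring
  · rw [hd]
    change (0 : ℚ_[l]) * 0 + 1 * 1 + 0 * 0 + 0 * 0 + b * b + a * a + d * d + -c * -c = 0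
    linear_combination h

/-- **REC.** -/
theorem rec8 {ℓ : ℕ} [Fact ℓ.Prime] {κ : Type*} [Fintype κ] [DecidableEq κ]
    (ψ F : GL κ ℚ_[ℓ]) (hψ : (ψ : Matrix κ κ ℚ_[ℓ])ᵀ = -(ψ : Matrix κ κ ℚ_[ℓ]))
    (q : ℚ_[ℓ]) (hq : q ≠ 0) (hF : (F : Matrix κ κ ℚ_[ℓ])ᵀ * (ψ : Matrix κ κ ℚ_[ℓ]) *
      (F : Matrix κ κ ℚ_[ℓ]) = q • (ψ : Matrix κ κ ℚ_[ℓ]))
    (E : Submodule ℚ_[ℓ] (Matrix κ κ ℚ_[ℓ])) (Γ : Subgroup (GL (κ × Fin 8) ℚ_[ℓ]))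
    (hΓE : ∀ γ ∈ Γ, ∀ r s,
      blk4 ((γ : GL (κ × Fin 8) ℚ_[ℓ]) : Matrix (κ × Fin 8) (κ × Fin 8) ℚ_[ℓ]) r s ∈ E)
    (hΓH : Γ ≤ isoG (ψ : Matrix κ κ ℚ_[ℓ]) (F : Matrix κ κ ℚ_[ℓ]) (1 : Matrix (Fin 8) (Fin 8) ℚ_[ℓ]))
    (hfin : {γ : GL (κ × Fin 8) ℚ_[ℓ] | γ ∈ Γ ∧ γ ∈ KN ℓ (κ × Fin 8) 0}.Finite)
    (hY : ∃ Z : Finset (GL (κ × Fin 8) ℚ_[ℓ]),
      ∀ x ∈ isoG (ψ : Matrix κ κ ℚ_[ℓ]) (F : Matrix κ κ ℚ_[ℓ])
          (1 : Matrix (Fin 8) (Fin 8) ℚ_[ℓ]),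
        ∃ z ∈ Z, ∃ γ ∈ Γ, ∃ k ∈ KN ℓ (κ × Fin 8) 0,
          k ∈ isoG (ψ : Matrix κ κ ℚ_[ℓ]) (F : Matrix κ κ ℚ_[ℓ])
            (1 : Matrix (Fin 8) (Fin 8) ℚ_[ℓ]) ∧ x = γ * z * k) :
    (∀ φ : Matrix κ κ ℚ_[ℓ], φ * (F : Matrix κ κ ℚ_[ℓ]) = (F : Matrix κ κ ℚ_[ℓ]) * φ → φ ∈ E) ∧
      Squarefree (minpoly ℚ_[ℓ] (F : Matrix κ κ ℚ_[ℓ])) := by
  refine ⟨fun φ hφ => ?_, frob_semisimple ψ F hψ q hq hF 1 Γ hΓH hfin hY⟩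
  obtain ⟨v, w, hvv, hvw, hwv, hww, hw0, hv0, hw1⟩ := exists_plane8 ℓ
  refine commutant_le ψ F hψ q hF 1 Matrix.transpose_one v w ?_ ?_ ?_ ?_ 0 1 hw0 ?_ ?_ E Γ hΓE hΓH
    hfin hY φ hφ
  · rw [Matrix.one_mulVec]; exact hvv
  · rw [Matrix.one_mulVec]; exact hvw
  · rw [Matrix.one_mulVec]; exact hwv
  · rw [Matrix.one_mulVec]; exact hww
  · rw [hv0]; exact one_ne_zero
  · rw [Matrix.one_mulVec, hw1]; exact one_ne_zero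

end Pool.Agent.TIFA
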