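import Pool.Agent.TIFA.Dic2
import Pool.Agent.TIFA.DicDefs
import Pool.Agent.TIFA.Fin8

/-!
# The dictionary between the geometric part (PIG, TORS) and the recurrence (REC)

`J` an abelian group with an action of `G`, `β : ℚ_ℓ ^ κ → J` a parametrization of the `ℓ`-power
torsion, `e n` the pairing on `J[ℓ ^ n]`.
-/

set_option autoImplicit false
set_option linter.unusedSectionVars false

open scoped Matrix Kronecker

namespace Pool.Agent.TIFA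

section

variable {ℓ : ℕ} [Fact ℓ.Prime] {κ : Type*} [Fintype κ] [DecidableEq κ] {ρ : Type*} [Fintype ρ]
  [DecidableEq ρ] {J : Type*} [AddCommGroup J] {M : Type*} [CommMonoid M] {G : Type*} [Group G]
  [DistribMulAction G J]

/-- The parametrization of `A = ρ → J`. -/
noncomputable def bA (ρ : Type*) (β : (κ → ℚ_[ℓ]) →+ J) : (κ × ρ → ℚ_[ℓ]) →+ (ρ → J) where
  toFun v r := β fun i => v (i, r)
  map_zero' := by
    funext r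
    exact map_zero β
  map_add' v w := by
    funext r
    exact map_add β _ _

theorem bA_apply (β : (κ → ℚ_[ℓ]) →+ J) (v : κ × ρ → ℚ_[ℓ]) (r : ρ) :
    bA ρ β v r = β fun i => v (i, r) := rfl

theorem bA_isPar {β : (κ → ℚ_[ℓ]) →+ J} (hβ : IsPar β) : IsPar (bA ρ β) := by
  constructor
  · intro v
    rw [funext_iff]
    constructor
    · intro h ⟨i, r⟩
      have h1 := h r
      rw [bA_apply, Pi.zero_apply, hβ.ker] at h1
      exact h1 i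
    · intro h r
      rw [bA_apply, Pi.zero_apply, hβ.ker]
      exact fun i => h (i, r)
  · intro x n hx
    have h1 : ∀ r, ∃ v, β v = x r := fun r => hβ.tors (x r) n (by
      have := congrFun hx r
      simpa using this)
    choose v hv using h1
    exact ⟨fun p => v p.2 p.1, funext fun r => hv r⟩

/-- The matrix of `act a`. -/
theorem blk_act {β : (κ → ℚ_[ℓ]) →+ J} (hβ : IsPar β) (a : Matrix ρ ρ (AddMonoid.End J))
    (r s : ρ) : blk4 (mat (bA_isPar (ρ := ρ) hβ) (bA_isPar hβ) (act a)) r s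
      = mat hβ hβ (a r s) := by
  have h1 : mat (bA_isPar (ρ := ρ) hβ) (bA_isPar hβ) (act a)
      = Matrix.of fun p p' : κ × ρ => mat hβ hβ (a p.2 p'.2) p.1 p'.1 := by
    apply mat_eq
    intro v
    funext r
    rw [act_apply, bA_apply]
    have h2 : ∀ s, a r s (bA ρ β v s) = β (mat hβ hβ (a r s) *ᵥ fun i => v (i, s)) := fun s => by
      rw [bA_apply]
      exact mat_spec hβ hβ (a r s) _
    rw [Finset.sum_congr rfl fun s _ => h2 s, ← map_sum]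
    congr 1
    funext i
    rw [Finset.sum_apply, Matrix.mulVec, dotProduct, Fintype.sum_prod_type_right]
    refine Finset.sum_congr rfl fun s _ => ?_
    rw [Matrix.mulVec, dotProduct]
    rfl
  rw [h1]
  rfl

theorem act_mul (a b : Matrix ρ ρ (AddMonoid.End J)) : act (a * b) = (act a).comp (act b) := by
  refine AddMonoidHom.ext fun x => funext fun r => ?_
  rw [AddMonoidHom.comp_apply, act_apply, act_apply]
  have h1 : ∀ s, (a * b) r s (x s) = ∑ t, a r t (b t s (x s)) := by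
    intro s
    rw [Matrix.mul_apply]
    exact map_sum (AddMonoidHom.eval (x s) : (J →+ J) →+ J) (fun t => a r t * b t s) _
  rw [Finset.sum_congr rfl fun s _ => h1 s, Finset.sum_comm]
  refine Finset.sum_congr rfl fun t _ => ?_
  rw [act_apply, map_sum]

theorem act_one : act (1 : Matrix ρ ρ (AddMonoid.End J)) = AddMonoidHom.id (ρ → J) := by
  refine AddMonoidHom.ext fun x => funext fun r => ?_
  rw [act_apply, AddMonoidHom.id_apply, Finset.sum_eq_single r]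
  · rw [Matrix.one_apply_eq]
    rfl
  · intro s _ hs
    rw [Matrix.one_apply_ne (Ne.symm hs)]
    rfl
  · intro h
    exact absurd (Finset.mem_univ _) h

theorem act_nsmul (n : ℕ) (a : Matrix ρ ρ (AddMonoid.End J)) (x : ρ → J) :
    act (n • a) x = n • act a x := by
  funext r
  rw [act_apply, Pi.smul_apply, act_apply, Finset.smul_sum]
  refine Finset.sum_congr rfl fun s _ => ?_
  rw [Matrix.smul_apply]
  rfl

/-- Division of endomorphisms. -/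
theorem exists_divEnd (hdiv : ∀ x : J, ∃ y, ℓ • y = x) (m : ℕ) (f : AddMonoid.End J)
    (hf : ∀ x, ℓ ^ m • x = 0 → f x = 0) : ∃ f₀ : AddMonoid.End J, ℓ ^ m • f₀ = f := by
  have hd : ∀ (m : ℕ) (x : J), ∃ y, ℓ ^ m • y = x := by
    intro m
    induction m with
    | zero => exact fun x => ⟨x, by rw [pow_zero, one_smul]⟩
    | succ m ih =>
      intro x
      obtain ⟨y, hy⟩ := ih x
      obtain ⟨z, hz⟩ := hdiv y
      exact ⟨z, by rw [pow_succ, mul_smul, hz, hy]⟩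
  choose d hd' using hd m
  have key : ∀ x y, ℓ ^ m • y = x → f (d x) = f y := by
    intro x y hy
    rw [← sub_eq_zero, ← map_sub]
    apply hf
    rw [smul_sub, hd', hy, sub_self]
  refine ⟨{ toFun := fun x => f (d x), map_zero' := ?_, map_add' := ?_ }, ?_⟩
  · rw [key 0 0 (smul_zero _), map_zero]
  · intro x y
    rw [key (x + y) (d x + d y) (by rw [smul_add, hd', hd']), map_add]
  · refine AddMonoidHom.ext fun x => ?_
    change ℓ ^ m • f (d x) = f x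
    rw [← map_nsmul, hd']

/-- The Frobenius on `A`. -/
theorem frob_bA {β : (κ → ℚ_[ℓ]) →+ J} (φ₀ : G) (F : GL κ ℚ_[ℓ])
    (hFβ : ∀ v, φ₀ • β v = β ((F : Matrix κ κ ℚ_[ℓ]) *ᵥ v)) (v : κ × ρ → ℚ_[ℓ]) :
    (fun r => φ₀ • bA ρ β v r) = bA ρ β (((F : Matrix κ κ ℚ_[ℓ]) ⊗ₖ (1 : Matrix ρ ρ ℚ_[ℓ])) *ᵥ v) := by
  funext r
  rw [bA_apply, hFβ, bA_apply]
  congr 1
  funext i
  rw [Matrix.mulVec, dotProduct, Matrix.mulVec, dotProduct, Fintype.sum_prod_type]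
  refine Finset.sum_congr rfl fun j _ => ?_
  rw [Finset.sum_eq_single r]
  · rw [Matrix.kroneckerMap_apply, Matrix.one_apply_eq, mul_one]
  · intro s _ hs
    rw [Matrix.kroneckerMap_apply, Matrix.one_apply_ne (Ne.symm hs), mul_zero, zero_mul]
  · intro h
    exact absurd (Finset.mem_univ _) h

/-- The pairing on `A`. -/
theorem eA_bA {β : (κ → ℚ_[ℓ]) →+ J} (ψ : GL κ ℚ_[ℓ]) (e : ℕ → J → J → M)
    (χ : Multiplicative ℚ_[ℓ] →* M)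
    (he : ∀ (n : ℕ) (v w : κ → ℚ_[ℓ]), IV ((ℓ : ℚ_[ℓ]) ^ n • v) → IV ((ℓ : ℚ_[ℓ]) ^ n • w) →
      e n (β v) (β w) = χ (Multiplicative.ofAdd
        ((ℓ : ℚ_[ℓ]) ^ n * (v ⬝ᵥ ((ψ : Matrix κ κ ℚ_[ℓ]) *ᵥ w)))))
    (n : ℕ) (v w : κ × ρ → ℚ_[ℓ]) (hv : IV ((ℓ : ℚ_[ℓ]) ^ n • v)) (hw : IV ((ℓ : ℚ_[ℓ]) ^ n • w)) :
    eA e n (bA ρ β v) (bA ρ β w) = χ (Multiplicative.ofAdd
      ((ℓ : ℚ_[ℓ]) ^ n * (v ⬝ᵥ
        (((ψ : Matrix κ κ ℚ_[ℓ]) ⊗ₖ (1 : Matrix ρ ρ ℚ_[ℓ])) *ᵥ w)))) := by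
  have h1 : ∀ r, e n (bA ρ β v r) (bA ρ β w r) = χ (Multiplicative.ofAdd
      ((ℓ : ℚ_[ℓ]) ^ n * ((fun i => v (i, r)) ⬝ᵥ ((ψ : Matrix κ κ ℚ_[ℓ]) *ᵥ fun i => w (i, r))))) := by
    intro r
    rw [bA_apply, bA_apply]
    exact he n _ _ (fun i => hv (i, r)) (fun i => hw (i, r))
  rw [eA, Finset.prod_congr rfl fun r _ => h1 r, ← map_prod, ← ofAdd_sum, ← Finset.mul_sum]
  congr 3
  rw [dotProduct, Fintype.sum_prod_type_right]
  refine Finset.sum_congr rfl fun r _ => ?_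
  rw [dotProduct]
  refine Finset.sum_congr rfl fun i _ => ?_
  congr 1
  rw [Matrix.mulVec, dotProduct, Matrix.mulVec, dotProduct, Fintype.sum_prod_type]
  refine Finset.sum_congr rfl fun j _ => ?_
  rw [Finset.sum_eq_single r]
  · rw [Matrix.kroneckerMap_apply, Matrix.one_apply_eq, mul_one]
  · intro s _ hs
    rw [Matrix.kroneckerMap_apply, Matrix.one_apply_ne (Ne.symm hs), mul_zero, zero_mul]
  · intro h
    exact absurd (Finset.mem_univ _) h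

/-- `ψ ⊗ 1` as a unit. -/
noncomputable def kr (ρ : Type*) [Fintype ρ] [DecidableEq ρ] (ψ : GL κ ℚ_[ℓ]) :
    GL (κ × ρ) ℚ_[ℓ] where
  val := (ψ : Matrix κ κ ℚ_[ℓ]) ⊗ₖ 1
  inv := ((ψ⁻¹ : GL κ ℚ_[ℓ]) : Matrix κ κ ℚ_[ℓ]) ⊗ₖ 1
  val_inv := by
    rw [← Matrix.mul_kronecker_mul, ← Units.val_mul, mul_inv_cancel, Units.val_one, one_mul,
      Matrix.one_kronecker_one]
  inv_val := by
    rw [← Matrix.mul_kronecker_mul, ← Units.val_mul, inv_mul_cancel, Units.val_one, one_mul,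
      Matrix.one_kronecker_one]

theorem Sm_kron {a : Matrix κ κ ℚ_[ℓ]} (ha : Sm 0 a) : Sm 0 (a ⊗ₖ (1 : Matrix ρ ρ ℚ_[ℓ])) := by
  intro i j
  rw [Matrix.kroneckerMap_apply, norm_mul]
  have h1 := ha i.1 j.1
  have h2 := (Sm_one (ℓ := ℓ) (ι := ρ)) i.2 j.2
  rw [Nat.cast_zero, neg_zero, zpow_zero] at h1 h2 ⊢
  exact mul_le_one₀ h1 (norm_nonneg _) h2

theorem kr_mem {ψ : GL κ ℚ_[ℓ]} (hψ : ψ ∈ KN ℓ κ 0) : kr ρ ψ ∈ KN ℓ (κ × ρ) 0 :=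
  mem_KN_zero (Sm_kron hψ.1) (Sm_kron hψ.2.1)

/-- Common denominators of `h` and `h⁻¹`. -/
theorem exists_den {ι : Type*} [Fintype ι] [DecidableEq ι] (h : GL ι ℚ_[ℓ]) : ∃ c : ℕ,
    Sm 0 (((ℓ : ℚ_[ℓ]) ^ (2 * c)) • ((sc ℓ ι (-c) * h : GL ι ℚ_[ℓ]) : Matrix ι ι ℚ_[ℓ])) ∧
    Sm 0 (((sc ℓ ι (-c) * h)⁻¹ : GL ι ℚ_[ℓ]) : Matrix ι ι ℚ_[ℓ]) := by
  obtain ⟨m, hm⟩ := exists_Sm_pow (h : Matrix ι ι ℚ_[ℓ])
  obtain ⟨n, hn⟩ := exists_Sm_pow ((h⁻¹ : GL ι ℚ_[ℓ]) : Matrix ι ι ℚ_[ℓ])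
  have hmono : ∀ (a : Matrix ι ι ℚ_[ℓ]) (m k : ℕ), Sm 0 (((ℓ : ℚ_[ℓ]) ^ m) • a) →
      Sm 0 (((ℓ : ℚ_[ℓ]) ^ (m + k)) • a) := by
    intro a m k h i j
    have h1 := h i j
    rw [Nat.cast_zero, neg_zero, zpow_zero] at h1 ⊢
    rw [pow_add, mul_comm ((ℓ : ℚ_[ℓ]) ^ m), mul_smul, Matrix.smul_apply, smul_eq_mul, norm_mul,
      norm_ell_pow]
    have hl : (1 : ℝ) < (ℓ : ℝ) := by exact_mod_cast (Fact.out : ℓ.Prime).one_lt
    exact mul_le_one₀ (pow_le_one₀ (by positivity) (inv_lt_one_of_one_lt₀ hl).le)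
      (norm_nonneg _) h1
  refine ⟨m + n, ?_, ?_⟩
  · rw [Units.val_mul, sc_val, smul_mul_assoc, one_mul, smul_smul, ← zpow_natCast,
      ← zpow_add₀ ell_ne]
    have e : ((2 * (m + n) : ℕ) : ℤ) + -((m + n : ℕ) : ℤ) = ((m + n : ℕ) : ℤ) := by
      push_cast; ring
    rw [e, zpow_natCast]
    exact hmono _ m n hm
  · rw [mul_inv_rev, sc_inv, neg_neg, ← sc_comm, Units.val_mul, sc_val, smul_mul_assoc, one_mul,
      zpow_natCast, add_comm m n]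
    exact hmono _ n m hn

/-- The graph of an isomorphism of quotients. -/
theorem exists_quot {A B : Type*} [AddCommGroup A] [AddCommGroup B] (D : AddSubgroup A)
    (D' : AddSubgroup B) (R : AddSubgroup (A × B)) (h1 : ∀ x, ∃ y, (x, y) ∈ R)
    (h2 : ∀ y, ∃ x, (x, y) ∈ R) (h3 : ∀ x, (x, 0) ∈ R ↔ x ∈ D) (h4 : ∀ y, (0, y) ∈ R ↔ y ∈ D') :
    ∃ ψ : A ⧸ D ≃+ B ⧸ D', ∀ x y, ψ (QuotientAddGroup.mk x) = QuotientAddGroup.mk y ↔
      (x, y) ∈ R := by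
  choose f hf using h1
  have key : ∀ x y, (x, y) ∈ R ↔ (QuotientAddGroup.mk (f x) : B ⧸ D') = QuotientAddGroup.mk y := by
    intro x y
    rw [QuotientAddGroup.eq, ← h4]
    constructor
    · intro h
      have := R.add_mem (R.neg_mem (hf x)) h
      simpa using this
    · intro h
      have := R.add_mem (hf x) h
      simpa using this
  let F : A →+ B ⧸ D' :=
    { toFun := fun x => QuotientAddGroup.mk (f x)
      map_zero' := by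
        rw [← QuotientAddGroup.mk_zero, ← key]
        exact R.zero_mem
      map_add' := by
        intro x y
        rw [← QuotientAddGroup.mk_add, ← key]
        exact R.add_mem (hf x) (hf y) }
  have hF : ∀ x y, F x = QuotientAddGroup.mk y ↔ (x, y) ∈ R := fun x y => (key x y).symm
  have hker : ∀ x, F x = 0 ↔ x ∈ D := by
    intro x
    rw [← QuotientAddGroup.mk_zero, hF, h3]
  have hbij : Function.Bijective (QuotientAddGroup.lift D F fun x hx => (hker x).2 hx) := by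
    constructor
    · rw [injective_iff_map_eq_zero]
      intro a
      obtain ⟨x, rfl⟩ := QuotientAddGroup.mk_surjective a
      intro hx
      rw [QuotientAddGroup.lift_mk, hker] at hx
      rwa [QuotientAddGroup.eq_zero_iff]
    · intro b
      obtain ⟨y, rfl⟩ := QuotientAddGroup.mk_surjective b
      obtain ⟨x, hx⟩ := h2 y
      exact ⟨QuotientAddGroup.mk x, by rw [QuotientAddGroup.lift_mk, hF]; exact hx⟩
  refine ⟨AddEquiv.ofBijective _ hbij, fun x y => ?_⟩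
  rw [AddEquiv.ofBijective_apply, QuotientAddGroup.lift_mk, hF]

/-- A bound on all levels gives an equality of matrices. -/
theorem eq_of_levels {ι : Type*} [Fintype ι] [DecidableEq ι] (a b : Matrix ι ι ℚ_[ℓ])
    (h : ∀ (m : ℕ) (u w : ι → ℚ_[ℓ]), IV ((ℓ : ℚ_[ℓ]) ^ m • u) → IV ((ℓ : ℚ_[ℓ]) ^ m • w) →
      ‖(ℓ : ℚ_[ℓ]) ^ m * (u ⬝ᵥ (a *ᵥ w)) - (ℓ : ℚ_[ℓ]) ^ m * (u ⬝ᵥ (b *ᵥ w))‖ ≤ 1) : a = b := by
  have hl0 := ell_ne (ℓ := ℓ)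
  have hl : (0 : ℝ) < (ℓ : ℝ) := ell_pos
  rw [← sub_eq_zero]
  ext i j
  rw [Matrix.zero_apply]
  apply small_of_all (ℓ := ℓ)
  intro n
  have hI : ∀ i : ι, IV ((ℓ : ℚ_[ℓ]) ^ n • (Pi.single i (((ℓ : ℚ_[ℓ]) ^ n)⁻¹) : ι → ℚ_[ℓ])) := by
    intro i k
    rw [Pi.smul_apply, Pi.single_apply, smul_eq_mul]
    split_ifs
    · rw [mul_inv_cancel₀ (pow_ne_zero _ hl0), norm_one]
    · rw [mul_zero, norm_zero]; exact zero_le_one
  have h1 := h n _ _ (hI i) (hI j)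
  rw [← mul_sub, ← dotProduct_sub, ← Matrix.sub_mulVec, single_dotProduct, Matrix.mulVec_single,
    Pi.smul_apply, MulOpposite.smul_eq_mul_unop, MulOpposite.unop_op, Matrix.col_apply,
    ← mul_assoc, mul_inv_cancel₀ (pow_ne_zero _ hl0), one_mul, norm_mul, norm_inv,
    norm_ell_pow, mul_comm, inv_mul_le_iff₀ (by positivity), mul_one] at h1
  exact h1

theorem sc_mul_val {ι : Type*} [Fintype ι] [DecidableEq ι] (c : ℤ) (h : GL ι ℚ_[ℓ]) :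
    ((sc ℓ ι c * h : GL ι ℚ_[ℓ]) : Matrix ι ι ℚ_[ℓ])
      = ((ℓ : ℚ_[ℓ]) ^ c) • (h : Matrix ι ι ℚ_[ℓ]) := by
  rw [Units.val_mul, sc_val, smul_mul_assoc, one_mul]

theorem sc_mul_inv_val {ι : Type*} [Fintype ι] [DecidableEq ι] (c : ℤ) (h : GL ι ℚ_[ℓ]) :
    (((sc ℓ ι c * h)⁻¹ : GL ι ℚ_[ℓ]) : Matrix ι ι ℚ_[ℓ])
      = ((ℓ : ℚ_[ℓ]) ^ (-c)) • ((h⁻¹ : GL ι ℚ_[ℓ]) : Matrix ι ι ℚ_[ℓ]) := by
  rw [mul_inv_rev, sc_inv, ← sc_comm, sc_mul_val]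

/-- The matrix of an endomorphism from its effect on a lattice. -/
theorem mat_of_rel {ι A : Type*} [Fintype ι] [DecidableEq ι] [AddCommGroup A]
    {β : (ι → ℚ_[ℓ]) →+ A} (hβ : IsPar β) (a : A →+ A) (x y : GL ι ℚ_[ℓ]) (n : ℕ)
    (h : ∀ u, a (β ((x : Matrix ι ι ℚ_[ℓ]) *ᵥ u)) = ℓ ^ n • β ((y : Matrix ι ι ℚ_[ℓ]) *ᵥ u)) :
    mat hβ hβ a = ((ℓ : ℚ_[ℓ]) ^ n) • ((y * x⁻¹ : GL ι ℚ_[ℓ]) : Matrix ι ι ℚ_[ℓ]) := by
  apply mat_eq
  intro v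
  have e2 : (x : Matrix ι ι ℚ_[ℓ]) * ((x⁻¹ : GL ι ℚ_[ℓ]) : Matrix ι ι ℚ_[ℓ]) = 1 := by
    rw [← Units.val_mul, mul_inv_cancel, Units.val_one]
  have h1 := h (((x⁻¹ : GL ι ℚ_[ℓ]) : Matrix ι ι ℚ_[ℓ]) *ᵥ v)
  rw [Matrix.mulVec_mulVec, e2, Matrix.one_mulVec] at h1
  rw [h1, ← map_nsmul]
  congr 1
  rw [← Nat.cast_smul_eq_nsmul ℚ_[ℓ], Nat.cast_pow, Matrix.mulVec_mulVec, ← Matrix.smul_mulVec,
    Units.val_mul]

/-- **DIC.** -/
theorem dic (β : (κ → ℚ_[ℓ]) →+ J) (hβ : IsPar β)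
    -- the Frobenius
    (φ₀ : G) (F : GL κ ℚ_[ℓ]) (hFβ : ∀ v, φ₀ • β v = β ((F : Matrix κ κ ℚ_[ℓ]) *ᵥ v))
    (hpro : ∀ (σ : G) (n : ℕ), ∃ m : ℕ, ∀ x : J, ℓ ^ n • x = 0 → σ • x = φ₀ ^ m • x)
    -- the pairing
    (ψ : GL κ ℚ_[ℓ]) (hψK : ψ ∈ KN ℓ κ 0)
    (hψ : (ψ : Matrix κ κ ℚ_[ℓ])ᵀ = -(ψ : Matrix κ κ ℚ_[ℓ]))
    (q : ℚ_[ℓ]) (hq : q ≠ 0) (hF : (F : Matrix κ κ ℚ_[ℓ])ᵀ * (ψ : Matrix κ κ ℚ_[ℓ]) *
      (F : Matrix κ κ ℚ_[ℓ]) = q • (ψ : Matrix κ κ ℚ_[ℓ]))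
    (e : ℕ → J → J → M) (χ : Multiplicative ℚ_[ℓ] →* M)
    (hχ : ∀ x : ℚ_[ℓ], χ (Multiplicative.ofAdd x) = 1 ↔ ‖x‖ ≤ 1)
    (he : ∀ (n : ℕ) (v w : κ → ℚ_[ℓ]), IV ((ℓ : ℚ_[ℓ]) ^ n • v) → IV ((ℓ : ℚ_[ℓ]) ^ n • w) →
      e n (β v) (β w) = χ (Multiplicative.ofAdd
        ((ℓ : ℚ_[ℓ]) ^ n * (v ⬝ᵥ ((ψ : Matrix κ κ ℚ_[ℓ]) *ᵥ w)))))
    -- divisibility
    (hdiv : ∀ x : J, ∃ y, ℓ • y = x)
    -- honest endomorphisms
    (Hon : Subring (AddMonoid.End J)) (hG : ∀ f ∈ Hon, ∀ (σ : G) (x : J), f (σ • x) = σ • f x)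
    (hsat : ∀ f : AddMonoid.End J, ℓ • f ∈ Hon → f ∈ Hon)
    -- similitudes
    (S : ℕ → Matrix (Fin 8) (Fin 8) (AddMonoid.End J) → Prop)
    (hS : ∀ m a, S m a → EH Hon a) (hS1 : S 0 1)
    (hSm : ∀ m n a b, S m a → S n b → S (m + n) (a * b))
    (hSd : ∀ m a, EH Hon a → S m (ℓ ^ m • a) → S 0 a)
    -- discreteness and finiteness
    (DISC : {a | S 0 a}.Finite)
    (FIN : ∃ N : ℕ, ∀ f : Fin (N + 1) → Lag ℓ G (Fin 8) e, ∃ i j, i < j ∧ Lk S (f i) (f j)) :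
    (∀ φ : Matrix κ κ ℚ_[ℓ], φ * (F : Matrix κ κ ℚ_[ℓ]) = (F : Matrix κ κ ℚ_[ℓ]) * φ →
      φ ∈ Submodule.span ℚ_[ℓ] {m | ∃ f ∈ Hon, mat hβ hβ f = m}) ∧
      Squarefree (minpoly ℚ_[ℓ] (F : Matrix κ κ ℚ_[ℓ])) := by
  classical
  have hl0 := ell_ne (ℓ := ℓ)
  set BA := bA (Fin 8) β with hBA
  have hB : IsPar BA := bA_isPar hβ
  set Ψ := kr (Fin 8) ψ with hΨ
  have hΨv : (Ψ : Matrix (κ × Fin 8) (κ × Fin 8) ℚ_[ℓ]) = (ψ : Matrix κ κ ℚ_[ℓ]) ⊗ₖ 1 := rfl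
  have hΨK : Ψ ∈ KN ℓ (κ × Fin 8) 0 := kr_mem hψK
  set H := isoG (ψ : Matrix κ κ ℚ_[ℓ]) (F : Matrix κ κ ℚ_[ℓ])
    (1 : Matrix (Fin 8) (Fin 8) ℚ_[ℓ]) with hH
  -- `F` is integral
  have hFint : Sm 0 (F : Matrix κ κ ℚ_[ℓ]) := by
    rw [Sm_iff_IV]
    intro v hv
    rw [← hβ.ker, ← hFβ, (hβ.ker v).2 hv, smul_zero]
  have hF1int : Sm 0 ((F : Matrix κ κ ℚ_[ℓ]) ⊗ₖ (1 : Matrix (Fin 8) (Fin 8) ℚ_[ℓ])) :=
    Sm_kron hFint
  -- the Lagrangian subgroup of an element of `H`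
  have hLag : ∀ h : H, ∃ L : Lag ℓ G (Fin 8) e,
      L.D = latD BA (sc ℓ (κ × Fin 8) (-L.c) * (h : GL (κ × Fin 8) ℚ_[ℓ])) ∧
      Sm 0 (((ℓ : ℚ_[ℓ]) ^ (2 * L.c)) • ((sc ℓ (κ × Fin 8) (-L.c) * (h : GL (κ × Fin 8) ℚ_[ℓ]) :
        GL (κ × Fin 8) ℚ_[ℓ]) : Matrix (κ × Fin 8) (κ × Fin 8) ℚ_[ℓ])) ∧
      Sm 0 (((sc ℓ (κ × Fin 8) (-L.c) * (h : GL (κ × Fin 8) ℚ_[ℓ]))⁻¹ : GL (κ × Fin 8) ℚ_[ℓ]) :
        Matrix (κ × Fin 8) (κ × Fin 8) ℚ_[ℓ]) := by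
    rintro ⟨h, hh⟩
    obtain ⟨c, hc1, hc2⟩ := exists_den h
    have hh' := mem_isoG.1 hh
    set g : GL (κ × Fin 8) ℚ_[ℓ] := sc ℓ (κ × Fin 8) (-c) * h with hg
    have hgF : (g : Matrix (κ × Fin 8) (κ × Fin 8) ℚ_[ℓ]) * ((F : Matrix κ κ ℚ_[ℓ]) ⊗ₖ 1)
        = ((F : Matrix κ κ ℚ_[ℓ]) ⊗ₖ 1) * (g : Matrix (κ × Fin 8) (κ × Fin 8) ℚ_[ℓ]) := by
      rw [hg, Units.val_mul, sc_val, smul_mul_assoc, one_mul, smul_mul_assoc, hh'.2,
        mul_smul_comm]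
    have htors : ∀ x ∈ latD BA g, ℓ ^ (2 * c) • x = 0 := fun x hx => latD_tors hB g hc1 hx
    refine ⟨⟨latD BA g, c, ?_, ?_⟩, rfl, hc1, hc2⟩
    · intro σ x hx
      obtain ⟨m, hm⟩ := hpro σ (2 * c)
      have h1 : (fun r => σ • x r) = fun r => φ₀ ^ m • x r := by
        funext r
        refine hm (x r) ?_
        have := congrFun (htors x hx) r
        simpa using this
      rw [h1]
      clear h1 hm
      induction m generalizing x with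
      | zero => simpa using hx
      | succ m ih =>
        have h2 : (fun r => φ₀ ^ (m + 1) • x r) = fun r => φ₀ ^ m • (fun r => φ₀ • x r) r := by
          funext r
          rw [pow_succ, mul_smul]
        rw [h2]
        apply ih
        obtain ⟨v, hv, rfl⟩ := hx
        rw [hBA, frob_bA φ₀ F hFβ, Matrix.mulVec_mulVec, ← hgF, ← Matrix.mulVec_mulVec]
        exact ⟨_, IV.mulVec hF1int hv, rfl⟩
    · intro x
      have hLg := lagrangian hB Ψ hΨK (h := h) (by rw [hΨv]; exact hh'.1) c hc2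
      have hIV : ∀ v, BA v ∈ latD BA g → IV ((ℓ : ℚ_[ℓ]) ^ (2 * c) • v) := by
        intro v hv
        rw [← hB.ker]
        have h3 := htors _ hv
        rw [← map_nsmul] at h3
        rw [← h3]
        congr 1
        rw [← Nat.cast_smul_eq_nsmul ℚ_[ℓ], Nat.cast_pow]
      constructor
      · intro hx
        refine ⟨htors x hx, fun y hy => ?_⟩
        obtain ⟨v, rfl⟩ := hB.tors x _ (htors x hx)
        obtain ⟨w, rfl⟩ := hB.tors y _ (htors y hy)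
        rw [hBA, eA_bA ψ e χ he _ _ _ (hIV v hx) (hIV w hy), hχ]
        exact (hLg v).1 hx w hy
      · rintro ⟨hx, hxy⟩
        obtain ⟨v, rfl⟩ := hB.tors x _ hx
        rw [hLg v]
        intro w hw
        have h4 := hxy (BA w) hw
        have hv : IV ((ℓ : ℚ_[ℓ]) ^ (2 * c) • v) := by
          rw [← hB.ker]
          rw [← map_nsmul] at hx
          rw [← hx]
          congr 1
          rw [← Nat.cast_smul_eq_nsmul ℚ_[ℓ], Nat.cast_pow]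
        rw [hBA, eA_bA ψ e χ he _ _ _ hv (hIV w hw), hχ] at h4
        exact h4
  choose L hLD hLi hLi' using hLag
  have hIVB : ∀ (n : ℕ) (v : κ × Fin 8 → ℚ_[ℓ]), ℓ ^ n • BA v = BA ((ℓ : ℚ_[ℓ]) ^ n • v) := by
    intro n v
    rw [← map_nsmul]
    congr 1
    rw [← Nat.cast_smul_eq_nsmul ℚ_[ℓ], Nat.cast_pow]
  have hfr : ∀ v, (fun r => φ₀ • BA v r) = BA (((F : Matrix κ κ ℚ_[ℓ]) ⊗ₖ 1) *ᵥ v) :=
    frob_bA φ₀ F hFβ
  have heA : ∀ (n : ℕ) (v w : κ × Fin 8 → ℚ_[ℓ]), IV ((ℓ : ℚ_[ℓ]) ^ n • v) →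
      IV ((ℓ : ℚ_[ℓ]) ^ n • w) → eA e n (BA v) (BA w) = χ (Multiplicative.ofAdd
        ((ℓ : ℚ_[ℓ]) ^ n * (v ⬝ᵥ ((Ψ : Matrix (κ × Fin 8) (κ × Fin 8) ℚ_[ℓ]) *ᵥ w)))) :=
    eA_bA ψ e χ he
  -- matrices of honest maps commute with Frobenius
  have hcomF : ∀ a, EH Hon a → mat hB hB (act a) * ((F : Matrix κ κ ℚ_[ℓ]) ⊗ₖ 1)
      = ((F : Matrix κ κ ℚ_[ℓ]) ⊗ₖ 1) * mat hB hB (act a) := by
    intro a ha
    apply hB.mat_unique
    intro v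
    rw [← Matrix.mulVec_mulVec, ← mat_spec hB hB, ← Matrix.mulVec_mulVec, ← hfr, ← hfr,
      ← mat_spec hB hB]
    funext r
    rw [act_apply, act_apply, Finset.smul_sum]
    exact Finset.sum_congr rfl fun s _ => hG _ (ha r s) _ _
  have key : ∀ h h' : H, Lk S (L h) (L h') → ∃ k ∈ KN ℓ (κ × Fin 8) 0, k ∈ H ∧ ∃ a a',
      S ((L h).c + (L h').c) a ∧ S ((L h).c + (L h').c) a' ∧
      mat hB hB (act a) = (ℓ : ℚ_[ℓ]) ^ ((L h).c + (L h').c) •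
        (((h' : GL (κ × Fin 8) ℚ_[ℓ]) * k * (h : GL (κ × Fin 8) ℚ_[ℓ])⁻¹ :
          GL (κ × Fin 8) ℚ_[ℓ]) : Matrix (κ × Fin 8) (κ × Fin 8) ℚ_[ℓ]) ∧
      mat hB hB (act a') = (ℓ : ℚ_[ℓ]) ^ ((L h).c + (L h').c) •
        ((((h' : GL (κ × Fin 8) ℚ_[ℓ]) * k * (h : GL (κ × Fin 8) ℚ_[ℓ])⁻¹)⁻¹ :
          GL (κ × Fin 8) ℚ_[ℓ]) : Matrix (κ × Fin 8) (κ × Fin 8) ℚ_[ℓ]) := by
    rintro ⟨h, hh⟩ ⟨h', hh'⟩ ⟨R, hR1, hR2, hR3, hR4, ⟨a, a', ha, ha', haa⟩, hR6⟩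
    have e1 := hLD ⟨h, hh⟩
    have e2 := hLD ⟨h', hh'⟩
    have i1 := hLi ⟨h, hh⟩
    have i2 := hLi ⟨h', hh'⟩
    have j1 := hLi' ⟨h, hh⟩
    have j2 := hLi' ⟨h', hh'⟩
    set c := (L ⟨h, hh⟩).c with hc
    set c' := (L ⟨h', hh'⟩).c with hc'
    rw [e1] at hR3 hR6
    rw [e2] at hR4
    simp only at i1 i2 j1 j2 hR3 hR4 hR6 ⊢
    obtain ⟨θ, hθ⟩ := exists_quot _ _ R hR1 hR2 hR3 hR4
    obtain ⟨k, hk, hk2⟩ := exists_unit (latQ_isPar hB j1) (latQ_isPar hB j2) θ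
    have hIVg : ∀ (g : GL (κ × Fin 8) ℚ_[ℓ]) (d m : ℕ) (u : κ × Fin 8 → ℚ_[ℓ]),
        Sm 0 (((ℓ : ℚ_[ℓ]) ^ (2 * d)) • (g : Matrix (κ × Fin 8) (κ × Fin 8) ℚ_[ℓ])) →
        IV ((ℓ : ℚ_[ℓ]) ^ m • u) → IV ((ℓ : ℚ_[ℓ]) ^ (m + 2 * d) •
          ((g : Matrix (κ × Fin 8) (κ × Fin 8) ℚ_[ℓ]) *ᵥ u)) := by
      intro g d m u hg hu
      have h5 := IV.mulVec hg hu
      rwa [Matrix.mulVec_smul, Matrix.smul_mulVec, smul_smul, ← pow_add] at h5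
    -- the pairing on the lattice
    have hpairg : ∀ (x : GL (κ × Fin 8) ℚ_[ℓ]) (d m : ℕ) (u w : κ × Fin 8 → ℚ_[ℓ]), x ∈ H →
        (ℓ : ℚ_[ℓ]) ^ (m + 2 * d) *
          (((sc ℓ (κ × Fin 8) (-d) * x : GL (κ × Fin 8) ℚ_[ℓ]) :
            Matrix (κ × Fin 8) (κ × Fin 8) ℚ_[ℓ]) *ᵥ u ⬝ᵥ
          ((Ψ : Matrix (κ × Fin 8) (κ × Fin 8) ℚ_[ℓ]) *ᵥ
            (((sc ℓ (κ × Fin 8) (-d) * x : GL (κ × Fin 8) ℚ_[ℓ]) :
              Matrix (κ × Fin 8) (κ × Fin 8) ℚ_[ℓ]) *ᵥ w)))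
        = (ℓ : ℚ_[ℓ]) ^ m * (u ⬝ᵥ ((Ψ : Matrix (κ × Fin 8) (κ × Fin 8) ℚ_[ℓ]) *ᵥ w)) := by
      intro x d m u w hx
      have hx1 := (mem_isoG.1 hx).1
      rw [← hΨv] at hx1
      rw [Units.val_mul, sc_val, smul_mul_assoc, one_mul, Matrix.smul_mulVec, Matrix.smul_mulVec,
        Matrix.mulVec_smul, smul_dotProduct, dotProduct_smul, smul_eq_mul, smul_eq_mul,
        ← Matrix.vecMul_transpose, ← Matrix.dotProduct_mulVec, Matrix.mulVec_mulVec,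
        Matrix.mulVec_mulVec, hx1, ← mul_assoc, ← mul_assoc, ← zpow_natCast, ← zpow_add₀ hl0,
        ← zpow_add₀ hl0]
      congr 1
      rw [← zpow_natCast]
      congr 1
      push_cast
      ring
    have hR : ∀ u, (BA (((sc ℓ (κ × Fin 8) (-c) * h : GL (κ × Fin 8) ℚ_[ℓ]) :
          Matrix (κ × Fin 8) (κ × Fin 8) ℚ_[ℓ]) *ᵥ u),
        BA (((sc ℓ (κ × Fin 8) (-c') * h' : GL (κ × Fin 8) ℚ_[ℓ]) :
          Matrix (κ × Fin 8) (κ × Fin 8) ℚ_[ℓ]) *ᵥ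
            ((k : Matrix (κ × Fin 8) (κ × Fin 8) ℚ_[ℓ]) *ᵥ u))) ∈ R := by
      intro u
      rw [← hθ]
      exact hk2 u
    have hkΨ : ((k : GL (κ × Fin 8) ℚ_[ℓ]) : Matrix (κ × Fin 8) (κ × Fin 8) ℚ_[ℓ])ᵀ *
        (Ψ : Matrix (κ × Fin 8) (κ × Fin 8) ℚ_[ℓ]) *
        (k : Matrix (κ × Fin 8) (κ × Fin 8) ℚ_[ℓ]) = (Ψ : Matrix (κ × Fin 8) (κ × Fin 8) ℚ_[ℓ]) := by
      symm
      apply eq_of_levels
      intro m u w hu hw
      have hku : ∀ u : κ × Fin 8 → ℚ_[ℓ], IV ((ℓ : ℚ_[ℓ]) ^ m • u) →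
          IV ((ℓ : ℚ_[ℓ]) ^ m • ((k : Matrix (κ × Fin 8) (κ × Fin 8) ℚ_[ℓ]) *ᵥ u)) := by
        intro u hu
        rw [← Matrix.mulVec_smul]
        exact IV.mulVec hk.1 hu
      have hD : ∀ u : κ × Fin 8 → ℚ_[ℓ], IV ((ℓ : ℚ_[ℓ]) ^ m • u) →
          ℓ ^ m • BA (((sc ℓ (κ × Fin 8) (-c) * h : GL (κ × Fin 8) ℚ_[ℓ]) :
            Matrix (κ × Fin 8) (κ × Fin 8) ℚ_[ℓ]) *ᵥ u) ∈
              latD BA (sc ℓ (κ × Fin 8) (-c) * h) := by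
        intro u hu
        rw [hIVB, ← Matrix.mulVec_smul]
        exact ⟨_, hu, rfl⟩
      have h6 := hR6 m _ _ _ _ (hR u) (hR w) (hD u hu) (hD w hw)
      rw [heA _ _ _ (hIVg _ c m u i1 hu) (hIVg _ c m w i1 hw),
        heA _ _ _ (hIVg _ c' m _ i2 (hku u hu)) (hIVg _ c' m _ i2 (hku w hw)),
        hpairg h c m u w hh, hpairg h' c' m _ _ hh'] at h6
      have h7 : (k : Matrix (κ × Fin 8) (κ × Fin 8) ℚ_[ℓ]) *ᵥ u ⬝ᵥ
          ((Ψ : Matrix (κ × Fin 8) (κ × Fin 8) ℚ_[ℓ]) *ᵥ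
            ((k : Matrix (κ × Fin 8) (κ × Fin 8) ℚ_[ℓ]) *ᵥ w)) = u ⬝ᵥ
          (((k : Matrix (κ × Fin 8) (κ × Fin 8) ℚ_[ℓ])ᵀ *
            (Ψ : Matrix (κ × Fin 8) (κ × Fin 8) ℚ_[ℓ]) *
            (k : Matrix (κ × Fin 8) (κ × Fin 8) ℚ_[ℓ])) *ᵥ w) := by
        rw [← Matrix.vecMul_transpose, ← Matrix.dotProduct_mulVec, Matrix.mulVec_mulVec,
          Matrix.mulVec_mulVec]
      rw [h7] at h6
      rw [← hχ, sub_eq_add_neg, ofAdd_add, map_mul, h6, ← map_mul, ← ofAdd_add, add_neg_cancel,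
        ofAdd_zero, map_one]
    have hma : mat hB hB (act a) = (ℓ : ℚ_[ℓ]) ^ (c + c') •
        ((h' * k * h⁻¹ : GL (κ × Fin 8) ℚ_[ℓ]) : Matrix (κ × Fin 8) (κ × Fin 8) ℚ_[ℓ]) := by
      rw [mat_of_rel hB (act a) (sc ℓ (κ × Fin 8) (-c) * h) (sc ℓ (κ × Fin 8) (-c') * h' * k)
        (2 * c') fun u => by
          rw [(haa _ _ (hR u)).1, Units.val_mul _ k, ← Matrix.mulVec_mulVec]]
      rw [Units.val_mul, Units.val_mul _ k, sc_mul_val, sc_mul_inv_val, Units.val_mul,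
        Units.val_mul, smul_mul_assoc, mul_smul_comm, smul_mul_assoc, smul_smul, smul_smul,
        neg_neg, ← zpow_natCast, ← zpow_natCast, ← zpow_add₀ hl0, ← zpow_add₀ hl0]
      congr 2
      push_cast
      ring
    have hma' : mat hB hB (act a') = (ℓ : ℚ_[ℓ]) ^ (c + c') •
        (((h' * k * h⁻¹)⁻¹ : GL (κ × Fin 8) ℚ_[ℓ]) : Matrix (κ × Fin 8) (κ × Fin 8) ℚ_[ℓ]) := by
      rw [mat_of_rel hB (act a') (sc ℓ (κ × Fin 8) (-c') * h' * k) (sc ℓ (κ × Fin 8) (-c) * h)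
        (2 * c) fun u => by
          rw [Units.val_mul _ k, ← Matrix.mulVec_mulVec, (haa _ _ (hR u)).2]]
      rw [mul_inv_rev (sc ℓ (κ × Fin 8) (-c') * h') k, Units.val_mul, Units.val_mul k⁻¹,
        sc_mul_val, sc_mul_inv_val, mul_inv_rev, mul_inv_rev, inv_inv, Units.val_mul,
        Units.val_mul, smul_mul_assoc, mul_smul_comm, mul_smul_comm, smul_smul, smul_smul,
        neg_neg, ← zpow_natCast, ← zpow_natCast, ← zpow_add₀ hl0, ← zpow_add₀ hl0]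
      congr 2
      push_cast
      ring
    have hkF : (k : Matrix (κ × Fin 8) (κ × Fin 8) ℚ_[ℓ]) * ((F : Matrix κ κ ℚ_[ℓ]) ⊗ₖ 1)
        = ((F : Matrix κ κ ℚ_[ℓ]) ⊗ₖ 1) * (k : Matrix (κ × Fin 8) (κ × Fin 8) ℚ_[ℓ]) := by
      have hcF : ∀ y ∈ H, Commute (y : GL (κ × Fin 8) ℚ_[ℓ]) (kr (Fin 8) F) := by
        intro y hy
        apply Units.ext
        exact (mem_isoG.1 hy).2
      have h8 : Commute (h' * k * h⁻¹) (kr (Fin 8) F) := by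
        apply Units.ext
        have h9 := hcomF a (hS _ _ ha)
        rw [hma, smul_mul_assoc, mul_smul_comm] at h9
        exact smul_right_injective _ (pow_ne_zero _ hl0) h9
      have h10 : Commute (h'⁻¹ * (h' * k * h⁻¹) * h) (kr (Fin 8) F) :=
        (((hcF h' hh').inv_left).mul_left h8).mul_left (hcF h hh)
      have h11 : h'⁻¹ * (h' * k * h⁻¹) * h = k := by group
      rw [h11] at h10
      exact congrArg Units.val h10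
    refine ⟨k, hk, mem_isoG.2 ⟨hkΨ, hkF⟩, a, a', ha, ha', hma, hma'⟩
  -- the group `Γ`
  let Γ : Subgroup (GL (κ × Fin 8) ℚ_[ℓ]) :=
    { carrier := {γ | γ ∈ H ∧ ∃ m a a', S m a ∧ S m a' ∧
        mat hB hB (act a) = (ℓ : ℚ_[ℓ]) ^ m • (γ : Matrix (κ × Fin 8) (κ × Fin 8) ℚ_[ℓ]) ∧
        mat hB hB (act a') = (ℓ : ℚ_[ℓ]) ^ m • ((γ⁻¹ : GL (κ × Fin 8) ℚ_[ℓ]) :
          Matrix (κ × Fin 8) (κ × Fin 8) ℚ_[ℓ])}
      mul_mem' := by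
        rintro γ δ ⟨hγ, m, a, a', ha, ha', hma, hma'⟩ ⟨hδ, n, b, b', hb, hb', hnb, hnb'⟩
        refine ⟨H.mul_mem hγ hδ, m + n, a * b, b' * a', hSm _ _ _ _ ha hb, ?_, ?_, ?_⟩
        · rw [add_comm]
          exact hSm _ _ _ _ hb' ha'
        · rw [act_mul, mat_comp hB hB hB, hma, hnb, Units.val_mul, smul_mul_smul_comm, ← pow_add]
        · rw [act_mul, mat_comp hB hB hB, hma', hnb', mul_inv_rev, Units.val_mul,
            smul_mul_smul_comm, ← pow_add, add_comm n m]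
      one_mem' := by
        refine ⟨H.one_mem, 0, 1, 1, hS1, hS1, ?_, ?_⟩
        · rw [act_one, mat_id, pow_zero, one_smul, Units.val_one]
        · rw [act_one, mat_id, pow_zero, one_smul, inv_one, Units.val_one]
      inv_mem' := by
        rintro γ ⟨hγ, m, a, a', ha, ha', hma, hma'⟩
        refine ⟨H.inv_mem hγ, m, a', a, ha', ha, hma', ?_⟩
        rw [inv_inv]
        exact hma }
  have hΓ : ∀ γ : GL (κ × Fin 8) ℚ_[ℓ], γ ∈ Γ ↔ γ ∈ H ∧ ∃ m a a', S m a ∧ S m a' ∧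
        mat hB hB (act a) = (ℓ : ℚ_[ℓ]) ^ m • (γ : Matrix (κ × Fin 8) (κ × Fin 8) ℚ_[ℓ]) ∧
        mat hB hB (act a') = (ℓ : ℚ_[ℓ]) ^ m • ((γ⁻¹ : GL (κ × Fin 8) ℚ_[ℓ]) :
          Matrix (κ × Fin 8) (κ × Fin 8) ℚ_[ℓ]) := fun γ => Iff.rfl
  refine rec8 ψ F hψ q hq hF _ Γ ?_ (fun γ hγ => hγ.1) ?_ ?_
  · -- blocks
    rintro γ ⟨hγ, m, a, a', ha, ha', hma, hma'⟩ r s
    have h1 : blk4 ((γ : GL (κ × Fin 8) ℚ_[ℓ]) : Matrix (κ × Fin 8) (κ × Fin 8) ℚ_[ℓ]) r s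
        = ((ℓ : ℚ_[ℓ]) ^ m)⁻¹ • mat hβ hβ (a r s) := by
      rw [← blk_act hβ a r s]
      change _ = ((ℓ : ℚ_[ℓ]) ^ m)⁻¹ • blk4 (mat hB hB (act a)) r s
      rw [hma]
      ext i j
      rw [Matrix.smul_apply, blk4, blk4, Matrix.smul_apply, smul_smul,
        inv_mul_cancel₀ (pow_ne_zero _ hl0), one_smul]
    rw [h1]
    exact Submodule.smul_mem _ _ (Submodule.subset_span ⟨a r s, hS _ _ ha r s, rfl⟩)
  · -- discreteness
    have hfin : ((fun a => mat hB hB (act a)) '' {a | S 0 a}).Finite := DISC.image _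
    refine (hfin.preimage (f := fun γ : GL (κ × Fin 8) ℚ_[ℓ] =>
      (γ : Matrix (κ × Fin 8) (κ × Fin 8) ℚ_[ℓ])) (Units.val_injective.injOn)).subset ?_
    rintro γ ⟨⟨hγ, m, a, a', ha, ha', hma, hma'⟩, hγK⟩
    have hdv : ∀ r s, ∃ f₀ : AddMonoid.End J, ℓ ^ m • f₀ = a r s := by
      intro r s
      apply exists_divEnd hdiv
      intro x hx
      obtain ⟨v, rfl⟩ := hβ.tors x m hx
      have hv : IV ((ℓ : ℚ_[ℓ]) ^ m • v) := by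
        rw [← hβ.ker]
        rw [← map_nsmul] at hx
        rw [← hx]
        congr 1
        rw [← Nat.cast_smul_eq_nsmul ℚ_[ℓ], Nat.cast_pow]
      refine (mat_spec hβ hβ (a r s) v).trans ?_
      rw [hβ.ker, ← blk_act hβ a r s]
      change IV (blk4 (mat hB hB (act a)) r s *ᵥ v)
      rw [hma]
      have h2 : blk4 ((ℓ : ℚ_[ℓ]) ^ m • (γ : Matrix (κ × Fin 8) (κ × Fin 8) ℚ_[ℓ])) r s
          = (ℓ : ℚ_[ℓ]) ^ m • blk4 (γ : Matrix (κ × Fin 8) (κ × Fin 8) ℚ_[ℓ]) r s := by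
        ext i j
        rfl
      rw [h2, Matrix.smul_mulVec, ← Matrix.mulVec_smul]
      refine IV.mulVec (fun i j => ?_) hv
      exact hγK.1 (i, r) (j, s)
    choose a₀ ha₀ using hdv
    have hsat' : ∀ (m : ℕ) (f : AddMonoid.End J), ℓ ^ m • f ∈ Hon → f ∈ Hon := by
      intro m
      induction m with
      | zero => intro f hf; rwa [pow_zero, one_smul] at hf
      | succ m ih =>
        intro f hf
        rw [pow_succ, mul_smul] at hf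
        exact hsat f (ih _ hf)
    have hEH : EH Hon (Matrix.of a₀) := by
      intro r s
      apply hsat' m
      rw [Matrix.of_apply, ha₀]
      exact hS _ _ ha r s
    have haeq : a = ℓ ^ m • Matrix.of a₀ := by
      ext1 r s
      rw [Matrix.smul_apply, Matrix.of_apply, ha₀]
    refine ⟨Matrix.of a₀, hSd m _ hEH (haeq ▸ ha), ?_⟩
    change mat hB hB (act (Matrix.of a₀)) = (γ : Matrix (κ × Fin 8) (κ × Fin 8) ℚ_[ℓ])
    have h3 : mat hB hB (act a) = (ℓ : ℚ_[ℓ]) ^ m • mat hB hB (act (Matrix.of a₀)) := by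
      apply mat_eq
      intro v
      rw [haeq, act_nsmul, mat_spec hB hB, hIVB, Matrix.smul_mulVec]
    rw [hma] at h3
    exact (smul_right_injective _ (pow_ne_zero _ hl0) h3).symm
  · -- finitely many classes
    obtain ⟨N, hN⟩ := FIN
    obtain ⟨Z, hZ⟩ := exists_reps_of_bound (fun h h' : H => Lk S (L h) (L h')) N
      (fun f => hN fun i => L (f i))
    refine ⟨Z.image Subtype.val, fun x hx => ?_⟩
    obtain ⟨z, hz, hzx⟩ := hZ ⟨x, hx⟩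
    obtain ⟨k, hk, hkH, a, a', ha, ha', hma, hma'⟩ := key z ⟨x, hx⟩ hzx
    refine ⟨z, Finset.mem_image_of_mem _ hz, x * k * (z : GL (κ × Fin 8) ℚ_[ℓ])⁻¹, ?_, k⁻¹,
      (KN ℓ (κ × Fin 8) 0).inv_mem hk, H.inv_mem hkH, by group⟩
    exact ⟨H.mul_mem (H.mul_mem hx hkH) (H.inv_mem z.2), _, a, a', ha, ha', hma, hma'⟩

end

end Pool.Agent.TIFA
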