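import Pool.Agent.TIFA.Lad

/-!
# No central unipotents

Same situation as in `TIFA/Lad.lean`. If `X` is nilpotent, commutes with all elements of `H`, and
`exp (s X) ∈ H` for all `s`, then `X = 0`.
-/

set_option autoImplicit false
set_option linter.unusedSectionVars false

open scoped Matrix

namespace Pool.Agent.TIFA

variable {ℓ : ℕ} [Fact ℓ.Prime] {ι : Type*} [Fintype ι] [DecidableEq ι]

theorem Sm_int_of {N : ℕ} {a : Matrix ι ι ℚ_[ℓ]} (h : Sm N (a - 1)) : Sm 0 a := by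
  have := (h.mono (Nat.zero_le N)).add Sm_one
  rwa [sub_add_cancel] at this

/-- `κ ≡ 1 mod ℓ ^ N`, `N ≥ 1` implies `κ ^ ℓ ≡ 1 mod ℓ ^ (N + 1)`. -/
theorem KN_pow_ell {N : ℕ} (hN : 1 ≤ N) {k : GL ι ℚ_[ℓ]} (hk : k ∈ KN ℓ ι N) :
    k ^ ℓ ∈ KN ℓ ι (N + 1) := by
  have h0 := (KN ℓ ι N).pow_mem hk ℓ
  refine ⟨h0.1, h0.2.1, ?_⟩
  have e : ((k ^ ℓ : GL ι ℚ_[ℓ]) : Matrix ι ι ℚ_[ℓ]) - 1
      = (∑ i ∈ Finset.range ℓ, (k : Matrix ι ι ℚ_[ℓ]) ^ i) * ((k : Matrix ι ι ℚ_[ℓ]) - 1) := by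
    rw [geom_sum_mul, Units.val_pow_eq_pow_val]
  have hS : Sm 1 (∑ i ∈ Finset.range ℓ, (k : Matrix ι ι ℚ_[ℓ]) ^ i) := by
    have e2 : (∑ i ∈ Finset.range ℓ, (k : Matrix ι ι ℚ_[ℓ]) ^ i)
        = (∑ i ∈ Finset.range ℓ, ((k : Matrix ι ι ℚ_[ℓ]) ^ i - 1)) + (ℓ : ℚ_[ℓ]) • 1 := by
      rw [Finset.sum_sub_distrib, Finset.sum_const, Finset.card_range]
      have : (ℓ : ℕ) • (1 : Matrix ι ι ℚ_[ℓ]) = (ℓ : ℚ_[ℓ]) • 1 := by
        rw [Nat.cast_smul_eq_nsmul]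
      rw [this]
      abel
    rw [e2]
    refine Sm.add ?_ ?_
    · intro i j
      rw [Matrix.sum_apply]
      refine norm_sum_le_of _ _ _ (by have := ell_pos (ℓ := ℓ); positivity) fun m _ => ?_
      have h1 := (KN ℓ ι N).pow_mem hk m
      have h2 := h1.2.2.mono hN i j
      rwa [Units.val_pow_eq_pow_val] at h2
    · intro i j
      rw [Matrix.smul_apply, smul_eq_mul, norm_mul, Padic.norm_p]
      have h3 : ‖(1 : Matrix ι ι ℚ_[ℓ]) i j‖ ≤ 1 := by simpa using (Sm_one (ℓ := ℓ) (ι := ι)) i j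
      have h4 : ((ℓ : ℝ))⁻¹ = (ℓ : ℝ) ^ (-((1 : ℕ) : ℤ)) := by
        rw [zpow_neg, zpow_natCast, pow_one]
      rw [← h4]
      have := ell_pos (ℓ := ℓ)
      calc (ℓ : ℝ)⁻¹ * ‖(1 : Matrix ι ι ℚ_[ℓ]) i j‖ ≤ (ℓ : ℝ)⁻¹ * 1 :=
            mul_le_mul_of_nonneg_left h3 (by positivity)
        _ = _ := mul_one _
  rw [e, add_comm]
  exact hS.mul hk.2.2

theorem KN_pow {N : ℕ} (hN : 1 ≤ N) {k : GL ι ℚ_[ℓ]} (hk : k ∈ KN ℓ ι N) (m : ℕ) :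
    k ^ (ℓ ^ m) ∈ KN ℓ ι (N + m) := by
  induction m with
  | zero => simpa using hk
  | succ m ih =>
    rw [pow_succ, pow_mul]
    exact KN_pow_ell (N := N + m) (le_trans hN (Nat.le_add_right N m)) ih

/-- The one-parameter group of a nilpotent matrix. -/
noncomputable def eu (X : Matrix ι ι ℚ_[ℓ]) (hX : IsNilpotent X) (s : ℚ_[ℓ]) : GL ι ℚ_[ℓ] where
  val := IsNilpotent.exp (s • X)
  inv := IsNilpotent.exp (-(s • X))
  val_inv := IsNilpotent.exp_mul_exp_neg_self (hX.smul s)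
  inv_val := IsNilpotent.exp_neg_mul_exp_self (hX.smul s)

theorem eu_val (X : Matrix ι ι ℚ_[ℓ]) (hX : IsNilpotent X) (s : ℚ_[ℓ]) :
    ((eu X hX s : GL ι ℚ_[ℓ]) : Matrix ι ι ℚ_[ℓ]) = IsNilpotent.exp (s • X) := rfl

theorem eu_add (X : Matrix ι ι ℚ_[ℓ]) (hX : IsNilpotent X) (s t : ℚ_[ℓ]) :
    eu X hX (s + t) = eu X hX s * eu X hX t := by
  apply Units.ext
  rw [Units.val_mul, eu_val, eu_val, eu_val, add_smul]
  refine IsNilpotent.exp_add_of_commute ?_ (hX.smul s) (hX.smul t)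
  exact ((Commute.refl X).smul_left s).smul_right t

theorem eu_zero (X : Matrix ι ι ℚ_[ℓ]) (hX : IsNilpotent X) : eu X hX 0 = 1 := by
  apply Units.ext
  rw [eu_val, zero_smul, IsNilpotent.exp_zero, Units.val_one]

theorem eu_neg (X : Matrix ι ι ℚ_[ℓ]) (hX : IsNilpotent X) (s : ℚ_[ℓ]) :
    (eu X hX s)⁻¹ = eu X hX (-s) := by
  apply inv_eq_of_mul_eq_one_right
  rw [← eu_add, add_neg_cancel, eu_zero]

theorem eu_nsmul (X : Matrix ι ι ℚ_[ℓ]) (hX : IsNilpotent X) (s : ℚ_[ℓ]) (n : ℕ) :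
    (eu X hX s) ^ n = eu X hX (n * s) := by
  induction n with
  | zero => rw [pow_zero, Nat.cast_zero, zero_mul, eu_zero]
  | succ n ih => rw [pow_succ, ih, ← eu_add, Nat.cast_succ, add_mul, one_mul]

/-- The exponential of a multiple of a nilpotent matrix as a polynomial. -/
theorem exp_poly (Y : Matrix ι ι ℚ_[ℓ]) (K : ℕ) (hK : Y ^ K = 0) (t : ℚ_[ℓ]) :
    IsNilpotent.exp (t • Y) = ∑ i ∈ Finset.range K, t ^ i • (((i.factorial : ℚ)⁻¹) • Y ^ i) := by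
  rw [IsNilpotent.exp_eq_sum (k := K) (by rw [smul_pow, hK, smul_zero])]
  refine Finset.sum_congr rfl fun i _ => ?_
  rw [smul_pow, smul_comm]

/-- `ℓ ^ m → 0`. -/
theorem tendsto_ell_pow : Filter.Tendsto (fun m : ℕ => (ℓ : ℚ_[ℓ]) ^ m) Filter.atTop (nhds 0) := by
  have hl : (1 : ℝ) < (ℓ : ℝ) := by exact_mod_cast (Fact.out : ℓ.Prime).one_lt
  refine tendsto_pow_atTop_nhds_zero_of_norm_lt_one ?_
  rw [Padic.norm_p]
  exact inv_lt_one_of_one_lt₀ hl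

/-- Eventually small. -/
theorem eventually_Sm (N : ℕ) (f : ℕ → Matrix ι ι ℚ_[ℓ]) (a : Matrix ι ι ℚ_[ℓ])
    (hf : Filter.Tendsto f Filter.atTop (nhds a)) : ∀ᶠ m in Filter.atTop, Sm N (f m - a) := by
  have hl := ell_pos (ℓ := ℓ)
  have h1 : ∀ i j, ∀ᶠ m in Filter.atTop, ‖(f m - a) i j‖ ≤ (ℓ : ℝ) ^ (-(N : ℤ)) := by
    intro i j
    have h2 : Filter.Tendsto (fun m => f m i j) Filter.atTop (nhds (a i j)) :=
      (tendsto_pi_nhds.1 (tendsto_pi_nhds.1 hf i)) j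
    rw [tendsto_iff_norm_sub_tendsto_zero] at h2
    have h3 : (0 : ℝ) < (ℓ : ℝ) ^ (-(N : ℤ)) := by positivity
    filter_upwards [h2.eventually (gt_mem_nhds h3)] with m hm
    rw [Matrix.sub_apply]
    exact hm.le
  have h2 := Filter.eventually_all.2 fun i => Filter.eventually_all.2 (h1 i)
  filter_upwards [h2] with m hm i j
  exact hm i j

/-- `exp (ℓ ^ m Y) → 1`. -/
theorem tendsto_exp (Y : Matrix ι ι ℚ_[ℓ]) (hY : IsNilpotent Y) :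
    Filter.Tendsto (fun m : ℕ => IsNilpotent.exp (((ℓ : ℚ_[ℓ]) ^ m) • Y)) Filter.atTop
      (nhds 1) := by
  obtain ⟨K, hK⟩ := hY
  have hc : Continuous fun t : ℚ_[ℓ] => IsNilpotent.exp (t • Y) := by
    have : (fun t : ℚ_[ℓ] => IsNilpotent.exp (t • Y)) = fun t =>
        ∑ i ∈ Finset.range K, t ^ i • (((i.factorial : ℚ)⁻¹) • Y ^ i) := by
      funext t
      exact exp_poly Y K hK t
    rw [this]
    fun_prop
  have h1 := (hc.tendsto 0).comp (tendsto_ell_pow (ℓ := ℓ))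
  rw [zero_smul, IsNilpotent.exp_zero] at h1
  exact h1

/-- If `exp (ℓ ^ m Y) ≡ 1 mod ℓ ^ (N + m)` for large `m` then `Y ≡ 0 mod ℓ ^ N`. -/
theorem Sm_of_exp (Y : Matrix ι ι ℚ_[ℓ]) (hY : IsNilpotent Y) (N : ℕ)
    (h : ∀ᶠ m : ℕ in Filter.atTop, Sm (N + m) (IsNilpotent.exp (((ℓ : ℚ_[ℓ]) ^ m) • Y) - 1)) :
    Sm N Y := by
  obtain ⟨K, hK⟩ := hY
  have hl := ell_pos (ℓ := ℓ)
  have hl0 : (ℓ : ℚ_[ℓ]) ≠ 0 := by exact_mod_cast (Fact.out : ℓ.Prime).ne_zero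
  have hK' : Y ^ (K + 2) = 0 := by rw [pow_add, hK, zero_mul]
  let g : ℚ_[ℓ] → Matrix ι ι ℚ_[ℓ] := fun t =>
    ∑ i ∈ Finset.range (K + 1), t ^ i • ((((i + 1).factorial : ℚ)⁻¹) • Y ^ (i + 1))
  have hg : ∀ t, IsNilpotent.exp (t • Y) - 1 = t • g t := by
    intro t
    rw [exp_poly Y (K + 2) hK' t, Finset.sum_range_succ']
    simp only [g, Finset.smul_sum, pow_zero, Nat.factorial_zero, Nat.cast_one, inv_one, one_smul,
      add_sub_cancel_right]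
    refine Finset.sum_congr rfl fun i _ => ?_
    rw [smul_smul, ← pow_succ']
  have hgc : Continuous g := by
    simp only [g]
    fun_prop
  have hg0 : g 0 = Y := by
    simp only [g]
    rw [Finset.sum_range_succ']
    simp
  have hlim := (hgc.tendsto 0).comp (tendsto_ell_pow (ℓ := ℓ))
  rw [hg0] at hlim
  intro i j
  have h2 : Filter.Tendsto (fun m : ℕ => ‖g ((ℓ : ℚ_[ℓ]) ^ m) i j‖) Filter.atTop
      (nhds ‖Y i j‖) := ((tendsto_pi_nhds.1 (tendsto_pi_nhds.1 hlim i)) j).norm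
  refine le_of_tendsto h2 ?_
  filter_upwards [h] with m hm
  have h3 := hm i j
  rw [hg, Matrix.smul_apply, smul_eq_mul, norm_mul, norm_pow, Padic.norm_p] at h3
  have h4 : (ℓ : ℝ) ^ (-((N + m : ℕ) : ℤ)) = ((ℓ : ℝ)⁻¹) ^ m * (ℓ : ℝ) ^ (-(N : ℤ)) := by
    rw [inv_pow, ← zpow_natCast, ← zpow_neg, ← zpow_add₀ hl.ne']
    congr 1
    push_cast
    ring
  rw [h4] at h3
  exact le_of_mul_le_mul_left h3 (by positivity)

/-- The congruence subgroups have trivial intersection. -/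
theorem exists_notMem_KN {γ : GL ι ℚ_[ℓ]} (h : γ ≠ 1) : ∃ N, γ ∉ KN ℓ ι N := by
  by_contra hcon
  push Not at hcon
  apply h
  apply Units.ext
  rw [Units.val_one, ← sub_eq_zero]
  ext i j
  rw [Matrix.zero_apply, ← norm_le_zero_iff]
  have hl : (1 : ℝ) < (ℓ : ℝ) := by exact_mod_cast (Fact.out : ℓ.Prime).one_lt
  have h1 : Filter.Tendsto (fun N : ℕ => ((ℓ : ℝ)⁻¹) ^ N) Filter.atTop (nhds 0) :=
    tendsto_pow_atTop_nhds_zero_of_lt_one (by positivity) (inv_lt_one_of_one_lt₀ hl)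
  refine ge_of_tendsto h1 (Filter.Eventually.of_forall fun N => ?_)
  have h2 := (hcon N).2.2 i j
  rwa [zpow_neg, zpow_natCast, ← inv_pow] at h2

/-- `Γ ∩ K_N = 1` for large `N`. -/
theorem exists_trivial (Γ : Subgroup (GL ι ℚ_[ℓ]))
    (hfin : {γ : GL ι ℚ_[ℓ] | γ ∈ Γ ∧ γ ∈ KN ℓ ι 0}.Finite) :
    ∃ N, ∀ γ ∈ Γ, γ ∈ KN ℓ ι N → γ = 1 := by
  classical
  choose f hf using fun γ : {γ : GL ι ℚ_[ℓ] // γ ≠ 1} => exists_notMem_KN γ.2
  let S := hfin.toFinset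
  refine ⟨∑ γ ∈ S, (if h : γ ≠ 1 then f ⟨γ, h⟩ else 0), fun γ hγ hγN => ?_⟩
  by_contra h1
  have hS : γ ∈ S := hfin.mem_toFinset.2 ⟨hγ, KN_le (Nat.zero_le _) hγN⟩
  have h2 : (if h : γ ≠ 1 then f ⟨γ, h⟩ else 0) ≤
      ∑ γ ∈ S, (if h : γ ≠ 1 then f ⟨γ, h⟩ else 0) :=
    Finset.single_le_sum (f := fun γ => if h : γ ≠ 1 then f ⟨γ, h⟩ else 0)
      (fun _ _ => Nat.zero_le _) hS
  rw [dif_pos h1] at h2
  exact hf ⟨γ, h1⟩ (KN_le h2 hγN)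

/-- There are no central one-parameter unipotent subgroups. -/
theorem central_nil_zero (H Γ : Subgroup (GL ι ℚ_[ℓ])) (hΓ : Γ ≤ H)
    (hfin : {γ : GL ι ℚ_[ℓ] | γ ∈ Γ ∧ γ ∈ KN ℓ ι 0}.Finite)
    (hY : ∃ Z : Finset (GL ι ℚ_[ℓ]), ∀ x ∈ H, ∃ z ∈ Z, ∃ γ ∈ Γ, ∃ k ∈ KN ℓ ι 0,
      k ∈ H ∧ x = γ * z * k) (X : Matrix ι ι ℚ_[ℓ]) (hX : IsNilpotent X)
    (huH : ∀ s, eu X hX s ∈ H) (hcm : ∀ s, ∀ h ∈ H, h * eu X hX s = eu X hX s * h) : X = 0 := by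
  have hl : (1 : ℝ) < (ℓ : ℝ) := by exact_mod_cast (Fact.out : ℓ.Prime).one_lt
  obtain ⟨N', hN'⟩ := exists_trivial Γ hfin
  -- it is enough to show that `X` is small
  suffices hsm : ∀ N : ℕ, 1 ≤ N → Sm N X by
    ext i j
    rw [Matrix.zero_apply, ← norm_le_zero_iff]
    have h1 : Filter.Tendsto (fun N : ℕ => ((ℓ : ℝ)⁻¹) ^ N) Filter.atTop (nhds 0) :=
      tendsto_pow_atTop_nhds_zero_of_lt_one (by positivity) (inv_lt_one_of_one_lt₀ hl)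
    refine ge_of_tendsto h1 ?_
    filter_upwards [Filter.eventually_ge_atTop 1] with N hN
    have h2 := hsm N hN i j
    rwa [zpow_neg, zpow_natCast, ← inv_pow] at h2
  intro N hN
  let t : ℕ → ℚ_[ℓ] := fun i => ((ℓ : ℚ_[ℓ]) ^ i)⁻¹
  obtain ⟨i, j, hij, k, hk, k', hk', hγ, hkH, hkH'⟩ := recurrence_KN H Γ hΓ hfin hY N
    (fun i => eu X hX (t i)) (fun i => huH _)
  rw [eu_neg, ← eu_add] at hγ
  set s : ℚ_[ℓ] := t j + -t i with hs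
  have hs1 : 1 ≤ ‖s‖ := by
    have hnt : ∀ i, ‖t i‖ = (ℓ : ℝ) ^ i := by
      intro i
      simp only [t]
      rw [norm_inv, norm_pow, Padic.norm_p, inv_pow, inv_inv]
    have hlt : ‖-t i‖ < ‖t j‖ := by
      rw [norm_neg, hnt, hnt]
      exact pow_lt_pow_right₀ hl hij
    rw [hs, Padic.add_eq_max_of_ne hlt.ne', max_eq_left hlt.le, hnt]
    exact one_le_pow₀ hl.le
  -- `γ = u κ`
  set κ := k * k' with hκ
  have hκN : κ ∈ KN ℓ ι N := (KN ℓ ι N).mul_mem hk hk'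
  have hκH : κ ∈ H := H.mul_mem hkH hkH'
  have hγ' : eu X hX s * κ ∈ Γ := by
    have e : k * eu X hX s * k' = eu X hX s * κ := by
      rw [hcm s k hkH, mul_assoc]
    rwa [e] at hγ
  have hpow : ∀ m : ℕ, (eu X hX s * κ) ^ (ℓ ^ m)
      = eu X hX ((ℓ : ℚ_[ℓ]) ^ m * s) * κ ^ (ℓ ^ m) := by
    intro m
    have hc : Commute (eu X hX s) κ := (hcm s κ hκH).symm
    rw [hc.mul_pow, eu_nsmul, Nat.cast_pow]
  -- the first factor tends to `1`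
  have hY1 : IsNilpotent (s • X) := hX.smul s
  have hY2 : IsNilpotent ((-s) • X) := hX.smul (-s)
  have hev : ∀ᶠ m : ℕ in Filter.atTop, eu X hX ((ℓ : ℚ_[ℓ]) ^ m * s) ∈ KN ℓ ι N' := by
    filter_upwards [eventually_Sm N' _ _ (tendsto_exp (s • X) hY1),
      eventually_Sm 0 _ _ (tendsto_exp ((-s) • X) hY2)] with m h1 h2
    rw [smul_smul] at h1 h2
    refine ⟨Sm_int_of h1, ?_, h1⟩
    rw [eu_neg, eu_val, ← mul_neg]
    exact Sm_int_of h2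
  have hone : ∀ᶠ m : ℕ in Filter.atTop, eu X hX ((ℓ : ℚ_[ℓ]) ^ m * s) * κ ^ (ℓ ^ m) = 1 := by
    filter_upwards [hev, Filter.eventually_ge_atTop N'] with m h1 h2
    rw [← hpow]
    apply hN' _ (Γ.pow_mem hγ' _)
    rw [hpow]
    exact (KN ℓ ι N').mul_mem h1 (KN_le (by omega) (KN_pow hN hκN m))
  -- conclusion
  have hfinal : Sm N (s • X) := by
    apply Sm_of_exp _ hY1
    filter_upwards [hone] with m hm
    have h1 : eu X hX ((ℓ : ℚ_[ℓ]) ^ m * s) = (κ ^ (ℓ ^ m))⁻¹ := eq_inv_of_mul_eq_one_left hm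
    have h2 : eu X hX ((ℓ : ℚ_[ℓ]) ^ m * s) ∈ KN ℓ ι (N + m) := by
      rw [h1]
      exact (KN ℓ ι (N + m)).inv_mem (KN_pow hN hκN m)
    have h3 := h2.2.2
    rwa [eu_val, ← smul_smul] at h3
  intro a b
  have h4 := hfinal a b
  rw [Matrix.smul_apply, smul_eq_mul, norm_mul] at h4
  calc ‖X a b‖ ≤ ‖s‖ * ‖X a b‖ := le_mul_of_one_le_left (norm_nonneg _) hs1
    _ ≤ _ := h4

end Pool.Agent.TIFA
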