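import Pool.Agent.TIFA.Jor

/-!
# Lattices and torsion subgroups

A parametrization of the `ℓ`-power torsion of an abelian group `A` is a homomorphism
`β : ℚ_ℓ ^ ι → A` with kernel `ℤ_ℓ ^ ι` whose image contains the `ℓ`-power torsion. Homomorphisms
correspond to integral matrices, lattices to torsion subgroups.
-/

set_option autoImplicit false
set_option linter.unusedSectionVars false

open scoped Matrix Kronecker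

namespace Pool.Agent.TIFA

section basic

variable {ℓ : ℕ} [Fact ℓ.Prime]

/-- Integral vectors. -/
def IV {ι : Type*} (v : ι → ℚ_[ℓ]) : Prop := ∀ i, ‖v i‖ ≤ 1

/-- `β` parametrizes the `ℓ`-power torsion of `A`. -/
structure IsPar {ι A : Type*} [AddCommGroup A] (β : (ι → ℚ_[ℓ]) →+ A) : Prop where
  ker : ∀ v, β v = 0 ↔ IV v
  tors : ∀ (x : A) (n : ℕ), ℓ ^ n • x = 0 → ∃ v, β v = x

variable {ι : Type*}

theorem IV.add {v w : ι → ℚ_[ℓ]} (hv : IV v) (hw : IV w) : IV (v + w) := fun i =>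
  (Padic.nonarchimedean _ _).trans (max_le (hv i) (hw i))

theorem IV.neg {v : ι → ℚ_[ℓ]} (hv : IV v) : IV (-v) := fun i => by
  rw [Pi.neg_apply, norm_neg]; exact hv i

theorem IV.sub {v w : ι → ℚ_[ℓ]} (hv : IV v) (hw : IV w) : IV (v - w) := by
  rw [sub_eq_add_neg]; exact hv.add hw.neg

theorem IV.zero : IV (0 : ι → ℚ_[ℓ]) := fun i => by
  rw [Pi.zero_apply, norm_zero]; exact zero_le_one

theorem IV.smul {v : ι → ℚ_[ℓ]} (hv : IV v) {c : ℚ_[ℓ]} (hc : ‖c‖ ≤ 1) : IV (c • v) := fun i => by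
  rw [Pi.smul_apply, smul_eq_mul, norm_mul]
  exact mul_le_one₀ hc (norm_nonneg _) (hv i)

theorem norm_natCast_le (n : ℕ) : ‖(n : ℚ_[ℓ])‖ ≤ 1 := by
  exact_mod_cast Padic.norm_int_le_one (p := ℓ) (n : ℤ)

theorem ell_ne : (ℓ : ℚ_[ℓ]) ≠ 0 := by exact_mod_cast (Fact.out : ℓ.Prime).ne_zero

theorem norm_ell_pow (n : ℕ) : ‖(ℓ : ℚ_[ℓ]) ^ n‖ = ((ℓ : ℝ)⁻¹) ^ n := by
  rw [norm_pow, Padic.norm_p]

theorem exists_pow_mul_le (x : ℚ_[ℓ]) : ∃ n : ℕ, ‖(ℓ : ℚ_[ℓ]) ^ n * x‖ ≤ 1 := by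
  have hl : (1 : ℝ) < (ℓ : ℝ) := by exact_mod_cast (Fact.out : ℓ.Prime).one_lt
  obtain ⟨n, hn⟩ := pow_unbounded_of_one_lt ‖x‖ hl
  refine ⟨n, ?_⟩
  rw [norm_mul, norm_ell_pow, inv_pow]
  rw [inv_mul_le_iff₀ (by positivity), mul_one]
  exact hn.le

/-- Every `x` is `m ℓ ^ (-n)` modulo integral elements. -/
theorem exists_approx (x : ℚ_[ℓ]) :
    ∃ (n m : ℕ), ‖x - (m : ℚ_[ℓ]) * ((ℓ : ℚ_[ℓ]) ^ n)⁻¹‖ ≤ 1 := by
  obtain ⟨n, hn⟩ := exists_pow_mul_le x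
  let y : ℤ_[ℓ] := ⟨(ℓ : ℚ_[ℓ]) ^ n * x, hn⟩
  refine ⟨n, y.appr n, ?_⟩
  have h1 := PadicInt.appr_spec n y
  rw [← PadicInt.norm_le_pow_iff_mem_span_pow] at h1
  have hl0 := ell_ne (ℓ := ℓ)
  have h2 : x - (y.appr n : ℚ_[ℓ]) * ((ℓ : ℚ_[ℓ]) ^ n)⁻¹
      = ((ℓ : ℚ_[ℓ]) ^ n)⁻¹ * ((y - (y.appr n : ℤ_[ℓ]) : ℤ_[ℓ]) : ℚ_[ℓ]) := by
    rw [PadicInt.coe_sub, PadicInt.coe_natCast]
    change _ = ((ℓ : ℚ_[ℓ]) ^ n)⁻¹ * ((ℓ : ℚ_[ℓ]) ^ n * x - _)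
    field_simp
  rw [h2, norm_mul, norm_inv, norm_ell_pow]
  have h3 : ‖((y - (y.appr n : ℤ_[ℓ]) : ℤ_[ℓ]) : ℚ_[ℓ])‖ ≤ (ℓ : ℝ) ^ (-(n : ℤ)) := h1
  have hl : (0 : ℝ) < (ℓ : ℝ) := ell_pos
  have h4 : (ℓ : ℝ) ^ (-(n : ℤ)) = ((ℓ : ℝ)⁻¹) ^ n := by
    rw [zpow_neg, zpow_natCast, inv_pow]
  rw [h4] at h3
  calc (((ℓ : ℝ)⁻¹) ^ n)⁻¹ * ‖((y - (y.appr n : ℤ_[ℓ]) : ℤ_[ℓ]) : ℚ_[ℓ])‖
      ≤ (((ℓ : ℝ)⁻¹) ^ n)⁻¹ * ((ℓ : ℝ)⁻¹) ^ n := by gcongr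
    _ = 1 := by
      apply inv_mul_cancel₀
      positivity

theorem small_of_all {x : ℚ_[ℓ]} (h : ∀ n : ℕ, ‖x‖ ≤ ((ℓ : ℝ)⁻¹) ^ n) : x = 0 := by
  rw [← norm_le_zero_iff]
  have hl : (1 : ℝ) < (ℓ : ℝ) := by exact_mod_cast (Fact.out : ℓ.Prime).one_lt
  exact ge_of_tendsto (tendsto_pow_atTop_nhds_zero_of_lt_one (by positivity)
    (inv_lt_one_of_one_lt₀ hl)) (Filter.Eventually.of_forall h)

variable {A : Type*} [AddCommGroup A]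

/-- One-dimensional homomorphisms lift. -/
theorem IsPar.exists_lift {β : (ι → ℚ_[ℓ]) →+ A} (hβ : IsPar β) (g : ℚ_[ℓ] →+ A)
    (hg : ∀ x, ‖x‖ ≤ 1 → g x = 0) : ∃ a : ι → ℚ_[ℓ], IV a ∧ ∀ x, g x = β (x • a) := by
  have hl0 := ell_ne (ℓ := ℓ)
  have hl : (1 : ℝ) < (ℓ : ℝ) := by exact_mod_cast (Fact.out : ℓ.Prime).one_lt
  have h1 : ∀ n : ℕ, ∃ w, β w = g (((ℓ : ℚ_[ℓ]) ^ n)⁻¹) := by
    intro n
    refine hβ.tors _ n ?_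
    rw [← map_nsmul]
    apply hg
    rw [nsmul_eq_mul, Nat.cast_pow, mul_inv_cancel₀ (pow_ne_zero _ hl0), norm_one]
  choose w hw using h1
  let u : ℕ → ι → ℚ_[ℓ] := fun n => ((ℓ : ℚ_[ℓ]) ^ n) • w n
  have hβs : ∀ (n : ℕ) (v : ι → ℚ_[ℓ]), β (((ℓ : ℚ_[ℓ]) ^ n) • v) = ℓ ^ n • β v := by
    intro n v
    rw [← map_nsmul]
    congr 1
    rw [← Nat.cast_smul_eq_nsmul ℚ_[ℓ], Nat.cast_pow]
  have hu : ∀ n, IV (u n) := by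
    intro n
    rw [← hβ.ker, hβs, hw, ← map_nsmul]
    apply hg
    rw [nsmul_eq_mul, Nat.cast_pow, mul_inv_cancel₀ (pow_ne_zero _ hl0), norm_one]
  have hstep : ∀ n i, ‖u (n + 1) i - u n i‖ ≤ ((ℓ : ℝ)⁻¹) ^ n := by
    intro n i
    have h2 : IV ((ℓ : ℚ_[ℓ]) • w (n + 1) - w n) := by
      rw [← hβ.ker, map_sub, hw n]
      have h3 := hβs 1 (w (n + 1))
      rw [pow_one, pow_one] at h3
      rw [h3, hw, ← map_nsmul, ← map_sub]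
      apply hg
      have h4 : (ℓ • ((ℓ : ℚ_[ℓ]) ^ (n + 1))⁻¹ : ℚ_[ℓ]) - ((ℓ : ℚ_[ℓ]) ^ n)⁻¹ = 0 := by
        rw [nsmul_eq_mul]
        field_simp
        ring
      rw [h4, norm_zero]
      exact zero_le_one
    have h5 : u (n + 1) i - u n i = (ℓ : ℚ_[ℓ]) ^ n * ((ℓ : ℚ_[ℓ]) • w (n + 1) - w n) i := by
      simp only [u, Pi.smul_apply, Pi.sub_apply, smul_eq_mul]
      ring
    rw [h5, norm_mul, norm_ell_pow]
    exact mul_le_of_le_one_right (by positivity) (h2 i)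
  have hfar : ∀ n k i, ‖u (n + k) i - u n i‖ ≤ ((ℓ : ℝ)⁻¹) ^ n := by
    intro n k i
    induction k with
    | zero => rw [add_zero, sub_self, norm_zero]; positivity
    | succ k ih =>
      have h6 : u (n + (k + 1)) i - u n i
          = (u (n + k + 1) i - u (n + k) i) + (u (n + k) i - u n i) := by
        rw [← add_assoc]; ring
      rw [h6]
      refine (Padic.nonarchimedean _ _).trans (max_le ((hstep _ _).trans ?_) ih)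
      exact pow_le_pow_of_le_one (by positivity) (inv_lt_one_of_one_lt₀ hl).le
        (Nat.le_add_right _ _)
  have hlim : ∀ i, ∃ a, Filter.Tendsto (fun n => u n i) Filter.atTop (nhds a) := by
    intro i
    refine cauchySeq_tendsto_of_complete (cauchySeq_of_le_geometric ((ℓ : ℝ)⁻¹) 1
      (inv_lt_one_of_one_lt₀ hl) fun n => ?_)
    rw [dist_eq_norm, norm_sub_rev, one_mul]
    exact hstep n i
  choose a ha using hlim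
  have hau : ∀ n i, ‖a i - u n i‖ ≤ ((ℓ : ℝ)⁻¹) ^ n := by
    intro n i
    have h7 : Filter.Tendsto (fun m => ‖u m i - u n i‖) Filter.atTop (nhds ‖a i - u n i‖) :=
      ((ha i).sub_const _).norm
    refine le_of_tendsto h7 ?_
    filter_upwards [Filter.eventually_ge_atTop n] with m hm
    obtain ⟨k, rfl⟩ := Nat.exists_eq_add_of_le hm
    exact hfar n k i
  have hga : ∀ n : ℕ, g (((ℓ : ℚ_[ℓ]) ^ n)⁻¹) = β ((((ℓ : ℚ_[ℓ]) ^ n)⁻¹) • a) := by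
    intro n
    rw [← hw n, ← sub_eq_zero, ← map_sub, hβ.ker]
    intro i
    have h8 : (w n - (((ℓ : ℚ_[ℓ]) ^ n)⁻¹) • a) i = -((((ℓ : ℚ_[ℓ]) ^ n)⁻¹) * (a i - u n i)) := by
      simp only [u, Pi.smul_apply, Pi.sub_apply, smul_eq_mul]
      field_simp
      ring
    rw [h8, norm_neg, norm_mul, norm_inv, norm_ell_pow]
    calc (((ℓ : ℝ)⁻¹) ^ n)⁻¹ * ‖a i - u n i‖ ≤ (((ℓ : ℝ)⁻¹) ^ n)⁻¹ * ((ℓ : ℝ)⁻¹) ^ n := by
          gcongr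
          exact hau n i
      _ = 1 := inv_mul_cancel₀ (by positivity)
  have haI : IV a := by
    rw [← hβ.ker]
    have h9 := hga 0
    rw [pow_zero, inv_one, one_smul] at h9
    rw [← h9]
    apply hg
    rw [norm_one]
  refine ⟨a, haI, fun x => ?_⟩
  obtain ⟨n, m, hnm⟩ := exists_approx x
  have h10 : g x = m • g (((ℓ : ℚ_[ℓ]) ^ n)⁻¹) := by
    rw [← map_nsmul, ← sub_eq_zero, ← map_sub, nsmul_eq_mul]
    exact hg _ hnm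
  have h11 : β (x • a) = m • β ((((ℓ : ℚ_[ℓ]) ^ n)⁻¹) • a) := by
    rw [← map_nsmul, ← sub_eq_zero, ← map_sub, ← Nat.cast_smul_eq_nsmul ℚ_[ℓ], smul_smul,
      ← sub_smul, hβ.ker]
    exact haI.smul hnm
  rw [h10, h11, hga]

end basic

section mat

variable {ℓ : ℕ} [Fact ℓ.Prime] {ι ι' ι'' : Type*} [Fintype ι] [DecidableEq ι] [Fintype ι']
  [DecidableEq ι'] [Fintype ι''] [DecidableEq ι''] {A A' A'' : Type*} [AddCommGroup A]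
  [AddCommGroup A'] [AddCommGroup A'']

/-- Homomorphisms are given by integral matrices. -/
theorem IsPar.exists_mat {β : (ι → ℚ_[ℓ]) →+ A} (hβ : IsPar β) {β' : (ι' → ℚ_[ℓ]) →+ A'}
    (hβ' : IsPar β') (f : A →+ A') : ∃ m : Matrix ι' ι ℚ_[ℓ], (∀ i j, ‖m i j‖ ≤ 1) ∧
      ∀ v, f (β v) = β' (m *ᵥ v) := by
  have h1 : ∀ j : ι, ∃ a : ι' → ℚ_[ℓ], IV a ∧ ∀ x : ℚ_[ℓ], f (β (Pi.single j x)) = β' (x • a) := by
    intro j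
    refine hβ'.exists_lift ((f.comp β).comp (AddMonoidHom.single (fun _ : ι => ℚ_[ℓ]) j)) ?_
    intro x hx
    change f (β (Pi.single j x)) = 0
    rw [(hβ.ker _).2, map_zero]
    intro i
    rw [Pi.single_apply]
    split_ifs
    · exact hx
    · rw [norm_zero]; exact zero_le_one
  choose a ha1 ha2 using h1
  refine ⟨fun i j => a j i, fun i j => ha1 j i, fun v => ?_⟩
  have h2 : v = ∑ j, Pi.single j (v j) := by
    rw [Finset.univ_sum_single]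
  conv_lhs => rw [h2]
  rw [map_sum, map_sum]
  have h3 : (Matrix.of fun i j => a j i : Matrix ι' ι ℚ_[ℓ]) *ᵥ v = ∑ j, v j • a j := by
    ext i
    rw [Matrix.mulVec, dotProduct, Finset.sum_apply]
    refine Finset.sum_congr rfl fun j _ => ?_
    rw [Matrix.of_apply, Pi.smul_apply, smul_eq_mul, mul_comm]
  change _ = β' ((Matrix.of fun i j => a j i : Matrix ι' ι ℚ_[ℓ]) *ᵥ v)
  rw [h3, map_sum]
  exact Finset.sum_congr rfl fun j _ => ha2 j (v j)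

theorem IsPar.mat_unique {β' : (ι' → ℚ_[ℓ]) →+ A'} (hβ' : IsPar β') {m m' : Matrix ι' ι ℚ_[ℓ]}
    (h : ∀ v, β' (m *ᵥ v) = β' (m' *ᵥ v)) : m = m' := by
  rw [← sub_eq_zero]
  ext i j
  rw [Matrix.zero_apply]
  apply small_of_all (ℓ := ℓ)
  intro n
  have h1 := h (Pi.single j (((ℓ : ℚ_[ℓ]) ^ n)⁻¹))
  rw [← sub_eq_zero, ← map_sub, ← Matrix.sub_mulVec, hβ'.ker] at h1
  have h2 := h1 i
  rw [Matrix.mulVec_single, Pi.smul_apply, MulOpposite.smul_eq_mul_unop, MulOpposite.unop_op,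
    Matrix.col_apply, norm_mul, mul_comm, norm_inv, norm_ell_pow] at h2
  have hl : (0 : ℝ) < (ℓ : ℝ) := ell_pos
  rwa [inv_mul_le_iff₀ (by positivity), mul_one] at h2

/-- The matrix of a homomorphism. -/
noncomputable def mat {β : (ι → ℚ_[ℓ]) →+ A} (hβ : IsPar β) {β' : (ι' → ℚ_[ℓ]) →+ A'}
    (hβ' : IsPar β') (f : A →+ A') : Matrix ι' ι ℚ_[ℓ] := (hβ.exists_mat hβ' f).choose

theorem mat_int {β : (ι → ℚ_[ℓ]) →+ A} (hβ : IsPar β) {β' : (ι' → ℚ_[ℓ]) →+ A'}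
    (hβ' : IsPar β') (f : A →+ A') (i j) : ‖mat hβ hβ' f i j‖ ≤ 1 :=
  (hβ.exists_mat hβ' f).choose_spec.1 i j

theorem mat_spec {β : (ι → ℚ_[ℓ]) →+ A} (hβ : IsPar β) {β' : (ι' → ℚ_[ℓ]) →+ A'}
    (hβ' : IsPar β') (f : A →+ A') (v) : f (β v) = β' (mat hβ hβ' f *ᵥ v) :=
  (hβ.exists_mat hβ' f).choose_spec.2 v

theorem mat_eq {β : (ι → ℚ_[ℓ]) →+ A} (hβ : IsPar β) {β' : (ι' → ℚ_[ℓ]) →+ A'}
    (hβ' : IsPar β') (f : A →+ A') (m : Matrix ι' ι ℚ_[ℓ]) (h : ∀ v, f (β v) = β' (m *ᵥ v)) :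
    mat hβ hβ' f = m :=
  hβ'.mat_unique fun v => by rw [← mat_spec hβ hβ', h]

theorem mat_comp {β : (ι → ℚ_[ℓ]) →+ A} (hβ : IsPar β) {β' : (ι' → ℚ_[ℓ]) →+ A'}
    (hβ' : IsPar β') {β'' : (ι'' → ℚ_[ℓ]) →+ A''} (hβ'' : IsPar β'') (f : A →+ A')
    (g : A' →+ A'') : mat hβ hβ'' (g.comp f) = mat hβ' hβ'' g * mat hβ hβ' f := by
  apply mat_eq
  intro v
  rw [AddMonoidHom.comp_apply, mat_spec hβ hβ', mat_spec hβ' hβ'', Matrix.mulVec_mulVec]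

theorem mat_add {β : (ι → ℚ_[ℓ]) →+ A} (hβ : IsPar β) {β' : (ι' → ℚ_[ℓ]) →+ A'}
    (hβ' : IsPar β') (f g : A →+ A') : mat hβ hβ' (f + g) = mat hβ hβ' f + mat hβ hβ' g := by
  apply mat_eq
  intro v
  rw [AddMonoidHom.add_apply, mat_spec hβ hβ', mat_spec hβ hβ', Matrix.add_mulVec, map_add]

theorem mat_id {β : (ι → ℚ_[ℓ]) →+ A} (hβ : IsPar β) :
    mat hβ hβ (AddMonoidHom.id A) = 1 := by
  apply mat_eq
  intro v
  rw [AddMonoidHom.id_apply, Matrix.one_mulVec]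

end mat

section lat

variable {ℓ : ℕ} [Fact ℓ.Prime] {ι : Type*} [Fintype ι] [DecidableEq ι] {A : Type*}
  [AddCommGroup A]

theorem IV.mulVec {m : Matrix ι ι ℚ_[ℓ]} (hm : Sm 0 m) {v : ι → ℚ_[ℓ]} (hv : IV v) :
    IV (m *ᵥ v) := by
  intro i
  rw [Matrix.mulVec, dotProduct]
  refine norm_sum_le_of _ _ _ zero_le_one fun j _ => ?_
  rw [norm_mul]
  have h1 := hm i j
  rw [Nat.cast_zero, neg_zero, zpow_zero] at h1
  exact mul_le_one₀ h1 (norm_nonneg _) (hv j)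

theorem Sm_iff_IV {m : Matrix ι ι ℚ_[ℓ]} : Sm 0 m ↔ ∀ v, IV v → IV (m *ᵥ v) := by
  constructor
  · intro hm v hv
    exact IV.mulVec hm hv
  · intro h i j
    have h1 : IV (Pi.single j (1 : ℚ_[ℓ])) := by
      intro i
      rw [Pi.single_apply]
      split_ifs
      · rw [norm_one]
      · rw [norm_zero]; exact zero_le_one
    have h2 := h _ h1 i
    rw [Matrix.mulVec_single, Pi.smul_apply, MulOpposite.smul_eq_mul_unop, MulOpposite.unop_op,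
      Matrix.col_apply, mul_one] at h2
    rw [Nat.cast_zero, neg_zero, zpow_zero]
    exact h2

/-- The power `ℓ ^ c` as a scalar matrix. -/
noncomputable def sc (ℓ : ℕ) [Fact ℓ.Prime] (ι : Type*) [Fintype ι] [DecidableEq ι] (c : ℤ) :
    GL ι ℚ_[ℓ] where
  val := ((ℓ : ℚ_[ℓ]) ^ c) • 1
  inv := ((ℓ : ℚ_[ℓ]) ^ (-c)) • 1
  val_inv := by
    rw [smul_mul_smul_comm, ← zpow_add₀ ell_ne, add_neg_cancel, zpow_zero, one_smul, mul_one]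
  inv_val := by
    rw [smul_mul_smul_comm, ← zpow_add₀ ell_ne, neg_add_cancel, zpow_zero, one_smul, mul_one]

/-- The torsion subgroup of the lattice `h ℤ_ℓ ^ ι ⊇ ℤ_ℓ ^ ι`: the image of the lattice. -/
def latD (β : (ι → ℚ_[ℓ]) →+ A) (h : GL ι ℚ_[ℓ]) : AddSubgroup A where
  carrier := {x | ∃ v, IV v ∧ β ((h : Matrix ι ι ℚ_[ℓ]) *ᵥ v) = x}
  add_mem' := by
    rintro _ _ ⟨v, hv, rfl⟩ ⟨w, hw, rfl⟩
    exact ⟨v + w, hv.add hw, by rw [Matrix.mulVec_add, map_add]⟩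
  zero_mem' := ⟨0, IV.zero, by rw [Matrix.mulVec_zero, map_zero]⟩
  neg_mem' := by
    rintro _ ⟨v, hv, rfl⟩
    exact ⟨-v, hv.neg, by rw [Matrix.mulVec_neg, map_neg]⟩

theorem mem_latD {β : (ι → ℚ_[ℓ]) →+ A} {h : GL ι ℚ_[ℓ]} {x : A} :
    x ∈ latD β h ↔ ∃ v, IV v ∧ β ((h : Matrix ι ι ℚ_[ℓ]) *ᵥ v) = x := Iff.rfl

/-- If `ℤ_ℓ ^ ι ⊆ h ℤ_ℓ ^ ι`, then membership of `β x` is a condition on `x`. -/
theorem apply_mem_latD {β : (ι → ℚ_[ℓ]) →+ A} (hβ : IsPar β) {h : GL ι ℚ_[ℓ]}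
    (hh : Sm 0 ((h⁻¹ : GL ι ℚ_[ℓ]) : Matrix ι ι ℚ_[ℓ])) (x : ι → ℚ_[ℓ]) :
    β x ∈ latD β h ↔ IV (((h⁻¹ : GL ι ℚ_[ℓ]) : Matrix ι ι ℚ_[ℓ]) *ᵥ x) := by
  have e1 : ((h⁻¹ : GL ι ℚ_[ℓ]) : Matrix ι ι ℚ_[ℓ]) * (h : Matrix ι ι ℚ_[ℓ]) = 1 := by
    rw [← Units.val_mul, inv_mul_cancel, Units.val_one]
  have e2 : (h : Matrix ι ι ℚ_[ℓ]) * ((h⁻¹ : GL ι ℚ_[ℓ]) : Matrix ι ι ℚ_[ℓ]) = 1 := by
    rw [← Units.val_mul, mul_inv_cancel, Units.val_one]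
  rw [mem_latD]
  constructor
  · rintro ⟨v, hv, hx⟩
    have h1 : IV (x - (h : Matrix ι ι ℚ_[ℓ]) *ᵥ v) := by
      rw [← hβ.ker, map_sub, hx, sub_self]
    have h2 := (IV.mulVec hh h1).add hv
    rw [Matrix.mulVec_sub, Matrix.mulVec_mulVec, e1, Matrix.one_mulVec, sub_add_cancel] at h2
    exact h2
  · intro h1
    exact ⟨_, h1, by rw [Matrix.mulVec_mulVec, e2, Matrix.one_mulVec]⟩

/-- The parametrization of the quotient. -/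
noncomputable def latQ (β : (ι → ℚ_[ℓ]) →+ A) (h : GL ι ℚ_[ℓ]) :
    (ι → ℚ_[ℓ]) →+ A ⧸ latD β h :=
  (QuotientAddGroup.mk' (latD β h)).comp
    (β.comp (Matrix.mulVecLin (h : Matrix ι ι ℚ_[ℓ])).toAddMonoidHom)

theorem latQ_apply (β : (ι → ℚ_[ℓ]) →+ A) (h : GL ι ℚ_[ℓ]) (v : ι → ℚ_[ℓ]) :
    latQ β h v = QuotientAddGroup.mk (β ((h : Matrix ι ι ℚ_[ℓ]) *ᵥ v)) := rfl

/-- Elements of `latD` are torsion. -/
theorem latD_tors {β : (ι → ℚ_[ℓ]) →+ A} (hβ : IsPar β) (h : GL ι ℚ_[ℓ]) {n : ℕ}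
    (hn : Sm 0 (((ℓ : ℚ_[ℓ]) ^ n) • (h : Matrix ι ι ℚ_[ℓ]))) {x : A} (hx : x ∈ latD β h) :
    ℓ ^ n • x = 0 := by
  obtain ⟨v, hv, rfl⟩ := hx
  rw [← map_nsmul, hβ.ker, ← Nat.cast_smul_eq_nsmul ℚ_[ℓ], Nat.cast_pow, ← Matrix.smul_mulVec]
  exact IV.mulVec hn hv

theorem exists_Sm_pow (m : Matrix ι ι ℚ_[ℓ]) : ∃ n : ℕ, Sm 0 (((ℓ : ℚ_[ℓ]) ^ n) • m) := by
  obtain ⟨c, hc⟩ := exists_Sm m
  refine ⟨c, ?_⟩
  have h1 : Sm (0 + c) (((ℓ : ℚ_[ℓ]) ^ c) • (1 : Matrix ι ι ℚ_[ℓ])) := by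
    intro i j
    rw [Matrix.smul_apply, smul_eq_mul, norm_mul, norm_ell_pow, zero_add, zpow_neg,
      zpow_natCast, inv_pow]
    have h2 : ‖(1 : Matrix ι ι ℚ_[ℓ]) i j‖ ≤ 1 := by simpa using (Sm_one (ℓ := ℓ) (ι := ι)) i j
    exact mul_le_of_le_one_right (by positivity) h2
  have h3 := (hc 0 _ h1).1
  rwa [mul_smul_comm, mul_one] at h3

theorem latQ_isPar {β : (ι → ℚ_[ℓ]) →+ A} (hβ : IsPar β) {h : GL ι ℚ_[ℓ]}
    (hh : Sm 0 ((h⁻¹ : GL ι ℚ_[ℓ]) : Matrix ι ι ℚ_[ℓ])) : IsPar (latQ β h) := by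
  have e1 : ((h⁻¹ : GL ι ℚ_[ℓ]) : Matrix ι ι ℚ_[ℓ]) * (h : Matrix ι ι ℚ_[ℓ]) = 1 := by
    rw [← Units.val_mul, inv_mul_cancel, Units.val_one]
  have e2 : (h : Matrix ι ι ℚ_[ℓ]) * ((h⁻¹ : GL ι ℚ_[ℓ]) : Matrix ι ι ℚ_[ℓ]) = 1 := by
    rw [← Units.val_mul, mul_inv_cancel, Units.val_one]
  constructor
  · intro v
    rw [latQ_apply, QuotientAddGroup.eq_zero_iff, apply_mem_latD hβ hh, Matrix.mulVec_mulVec, e1,
      Matrix.one_mulVec]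
  · intro x n hx
    obtain ⟨y, rfl⟩ := QuotientAddGroup.mk_surjective x
    rw [← QuotientAddGroup.mk_nsmul, QuotientAddGroup.eq_zero_iff] at hx
    obtain ⟨m, hm⟩ := exists_Sm_pow (h : Matrix ι ι ℚ_[ℓ])
    have h1 := latD_tors hβ h hm hx
    rw [smul_smul, ← pow_add] at h1
    obtain ⟨v, rfl⟩ := hβ.tors _ _ h1
    refine ⟨((h⁻¹ : GL ι ℚ_[ℓ]) : Matrix ι ι ℚ_[ℓ]) *ᵥ v, ?_⟩
    rw [latQ_apply, Matrix.mulVec_mulVec, e2, Matrix.one_mulVec]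

/-- An isomorphism of quotients gives an element of `GL (ℤ_ℓ)`. -/
theorem exists_unit {A' : Type*} [AddCommGroup A'] {β : (ι → ℚ_[ℓ]) →+ A} (hβ : IsPar β)
    {β' : (ι → ℚ_[ℓ]) →+ A'} (hβ' : IsPar β') (ψ : A ≃+ A') : ∃ k ∈ KN ℓ ι 0,
      ∀ v, ψ (β v) = β' (((k : GL ι ℚ_[ℓ]) : Matrix ι ι ℚ_[ℓ]) *ᵥ v) := by
  have h1 : mat hβ hβ' ψ.toAddMonoidHom * mat hβ' hβ ψ.symm.toAddMonoidHom = 1 := by
    rw [← mat_comp, ← mat_id hβ']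
    congr 1
    ext x
    simp
  have h2 : mat hβ' hβ ψ.symm.toAddMonoidHom * mat hβ hβ' ψ.toAddMonoidHom = 1 := by
    rw [← mat_comp, ← mat_id hβ]
    congr 1
    ext x
    simp
  let k : GL ι ℚ_[ℓ] := ⟨mat hβ hβ' ψ.toAddMonoidHom, mat hβ' hβ ψ.symm.toAddMonoidHom, h1, h2⟩
  refine ⟨k, mem_KN_zero ?_ ?_, fun v => mat_spec hβ hβ' ψ.toAddMonoidHom v⟩
  · intro i j
    rw [Nat.cast_zero, neg_zero, zpow_zero]
    exact mat_int hβ hβ' _ i j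
  · intro i j
    rw [Nat.cast_zero, neg_zero, zpow_zero]
    exact mat_int hβ' hβ _ i j

end lat

end Pool.Agent.TIFA
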