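import Pool.Agent.TIFA.Dic

/-!
# Lagrangian subgroups, equivalences, representatives
-/

set_option autoImplicit false
set_option linter.unusedSectionVars false

open scoped Matrix Kronecker

namespace Pool.Agent.TIFA

/-- A bound for the length of sequences without `i < j` with `R (f i) (f j)` gives finitely many
representatives. -/
theorem exists_reps_of_bound {X : Type*} (R : X → X → Prop) (M : ℕ)
    (h : ∀ f : Fin (M + 1) → X, ∃ i j, i < j ∧ R (f i) (f j)) :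
    ∃ Z : Finset X, ∀ x, ∃ z ∈ Z, R z x := by
  classical
  by_contra hcon
  push Not at hcon
  -- construct a long bad sequence
  choose g hg using hcon
  have key : ∀ n : ℕ, ∃ f : Fin n → X, ∀ i j, i < j → ¬ R (f i) (f j) := by
    intro n
    induction n with
    | zero => exact ⟨Fin.elim0, fun i => i.elim0⟩
    | succ n ih =>
      obtain ⟨f, hf⟩ := ih
      refine ⟨Fin.snoc f (g (Finset.univ.image f)), fun i j hij => ?_⟩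
      refine Fin.lastCases (motive := fun j => i < j → ¬ R (Fin.snoc (α := fun _ => X) f
        (g (Finset.univ.image f)) i) (Fin.snoc (α := fun _ => X) f (g (Finset.univ.image f)) j))
        ?_ ?_ j hij
      · intro hi
        obtain ⟨i', rfl⟩ : ∃ i' : Fin n, i'.castSucc = i :=
          ⟨i.castLT (by simpa [Fin.lt_def] using hi), by simp⟩
        rw [Fin.snoc_last, Fin.snoc_castSucc]
        exact hg _ _ (Finset.mem_image_of_mem _ (Finset.mem_univ _))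
      · intro j' hi
        obtain ⟨i', rfl⟩ : ∃ i' : Fin n, i'.castSucc = i :=
          ⟨i.castLT (lt_of_lt_of_le hi (by simp)), by simp⟩
        rw [Fin.snoc_castSucc, Fin.snoc_castSucc]
        exact hf _ _ (by simpa using hi)
  obtain ⟨f, hf⟩ := key (M + 1)
  obtain ⟨i, j, hij, hR⟩ := h f
  exact hf i j hij hR

section

variable {ℓ : ℕ} [Fact ℓ.Prime] {ι : Type*} [Fintype ι] [DecidableEq ι] {A : Type*}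
  [AddCommGroup A]

theorem sc_val (c : ℤ) : ((sc ℓ ι c : GL ι ℚ_[ℓ]) : Matrix ι ι ℚ_[ℓ])
    = ((ℓ : ℚ_[ℓ]) ^ c) • (1 : Matrix ι ι ℚ_[ℓ]) := rfl

theorem sc_inv (c : ℤ) : (sc ℓ ι c)⁻¹ = sc ℓ ι (-c) := by
  apply Units.ext
  rfl

theorem sc_comm (c : ℤ) (h : GL ι ℚ_[ℓ]) : sc ℓ ι c * h = h * sc ℓ ι c := by
  apply Units.ext
  rw [Units.val_mul, Units.val_mul, sc_val, smul_mul_assoc, one_mul, mul_smul_comm, mul_one]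

theorem sc_mul (c d : ℤ) : sc ℓ ι c * sc ℓ ι d = sc ℓ ι (c + d) := by
  apply Units.ext
  rw [Units.val_mul, sc_val, sc_val, sc_val, smul_mul_smul_comm, ← zpow_add₀ ell_ne, one_mul]

theorem IV_iff_all (v : ι → ℚ_[ℓ]) : IV v ↔ ∀ w : ι → ℚ_[ℓ], IV w → ‖v ⬝ᵥ w‖ ≤ 1 := by
  constructor
  · intro hv w hw
    refine norm_sum_le_of _ _ _ zero_le_one fun j _ => ?_
    rw [norm_mul]
    exact mul_le_one₀ (hv j) (norm_nonneg _) (hw j)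
  · intro h i
    have h1 : IV (Pi.single i (1 : ℚ_[ℓ])) := by
      intro j
      rw [Pi.single_apply]
      split_ifs
      · rw [norm_one]
      · rw [norm_zero]; exact zero_le_one
    have h2 := h _ h1
    rwa [dotProduct_single, mul_one] at h2

/-- The subgroup of an isometric lattice is its own orthogonal. -/
theorem lagrangian {β : (ι → ℚ_[ℓ]) →+ A} (hβ : IsPar β) (Ψ : GL ι ℚ_[ℓ]) (hΨ : Ψ ∈ KN ℓ ι 0)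
    {h : GL ι ℚ_[ℓ]} (hh : (h : Matrix ι ι ℚ_[ℓ])ᵀ * (Ψ : Matrix ι ι ℚ_[ℓ]) *
      (h : Matrix ι ι ℚ_[ℓ]) = (Ψ : Matrix ι ι ℚ_[ℓ])) (c : ℕ)
    (hc : Sm 0 (((sc ℓ ι (-c) * h)⁻¹ : GL ι ℚ_[ℓ]) : Matrix ι ι ℚ_[ℓ])) (x : ι → ℚ_[ℓ]) :
    β x ∈ latD β (sc ℓ ι (-c) * h) ↔ ∀ y, β y ∈ latD β (sc ℓ ι (-c) * h) →
      ‖(ℓ : ℚ_[ℓ]) ^ (2 * c) * (x ⬝ᵥ ((Ψ : Matrix ι ι ℚ_[ℓ]) *ᵥ y))‖ ≤ 1 := by
  set g : GL ι ℚ_[ℓ] := sc ℓ ι (-c) * h with hg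
  have e1 : ((g⁻¹ : GL ι ℚ_[ℓ]) : Matrix ι ι ℚ_[ℓ]) * (g : Matrix ι ι ℚ_[ℓ]) = 1 := by
    rw [← Units.val_mul, inv_mul_cancel, Units.val_one]
  have e2 : (g : Matrix ι ι ℚ_[ℓ]) * ((g⁻¹ : GL ι ℚ_[ℓ]) : Matrix ι ι ℚ_[ℓ]) = 1 := by
    rw [← Units.val_mul, mul_inv_cancel, Units.val_one]
  have hl0 := ell_ne (ℓ := ℓ)
  have hgΨ : (ℓ : ℚ_[ℓ]) ^ (2 * c) • ((g : Matrix ι ι ℚ_[ℓ])ᵀ * (Ψ : Matrix ι ι ℚ_[ℓ]) *
      (g : Matrix ι ι ℚ_[ℓ])) = (Ψ : Matrix ι ι ℚ_[ℓ]) := by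
    rw [hg, Units.val_mul, sc_val, smul_mul_assoc, one_mul, Matrix.transpose_smul, smul_mul_assoc,
      smul_mul_assoc, mul_smul_comm, hh, smul_smul, smul_smul, ← zpow_natCast, ← zpow_add₀ hl0,
      ← zpow_add₀ hl0]
    have : ((2 * c : ℕ) : ℤ) + (-c + -c) = 0 := by push_cast; ring
    rw [← add_assoc] at this
    rw [show ((2 * c : ℕ) : ℤ) + -(c : ℤ) + -(c : ℤ) = 0 by push_cast; ring, zpow_zero, one_smul]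
  rw [apply_mem_latD hβ hc]
  have hpair : ∀ y' : ι → ℚ_[ℓ], (ℓ : ℚ_[ℓ]) ^ (2 * c) * (x ⬝ᵥ ((Ψ : Matrix ι ι ℚ_[ℓ]) *ᵥ
      ((g : Matrix ι ι ℚ_[ℓ]) *ᵥ y'))) = (((Ψ : Matrix ι ι ℚ_[ℓ])ᵀ *ᵥ
      (((g⁻¹ : GL ι ℚ_[ℓ]) : Matrix ι ι ℚ_[ℓ]) *ᵥ x))) ⬝ᵥ y' := by
    intro y'
    set x' := ((g⁻¹ : GL ι ℚ_[ℓ]) : Matrix ι ι ℚ_[ℓ]) *ᵥ x with hx'
    have hx : x = (g : Matrix ι ι ℚ_[ℓ]) *ᵥ x' := by
      rw [hx', Matrix.mulVec_mulVec, e2, Matrix.one_mulVec]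
    rw [hx, ← Matrix.vecMul_transpose, Matrix.mulVec_mulVec, ← Matrix.dotProduct_mulVec,
      Matrix.mulVec_mulVec, ← smul_eq_mul, ← dotProduct_smul, ← Matrix.smul_mulVec, ← mul_assoc,
      hgΨ, Matrix.mulVec_transpose, Matrix.dotProduct_mulVec]
  have hΨt : Sm 0 ((Ψ : Matrix ι ι ℚ_[ℓ])ᵀ) := fun i j => hΨ.1 j i
  have hΨt' : Sm 0 (((Ψ⁻¹ : GL ι ℚ_[ℓ]) : Matrix ι ι ℚ_[ℓ])ᵀ) := fun i j => hΨ.2.1 j i
  have e3 : ((Ψ⁻¹ : GL ι ℚ_[ℓ]) : Matrix ι ι ℚ_[ℓ])ᵀ * (Ψ : Matrix ι ι ℚ_[ℓ])ᵀ = 1 := by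
    rw [← Matrix.transpose_mul, ← Units.val_mul, mul_inv_cancel, Units.val_one,
      Matrix.transpose_one]
  constructor
  · intro hx y hy
    rw [apply_mem_latD hβ hc] at hy
    have h1 := hpair (((g⁻¹ : GL ι ℚ_[ℓ]) : Matrix ι ι ℚ_[ℓ]) *ᵥ y)
    rw [Matrix.mulVec_mulVec (M := (g : Matrix ι ι ℚ_[ℓ])), e2, Matrix.one_mulVec] at h1
    rw [h1]
    exact (IV_iff_all _).1 (IV.mulVec hΨt hx) _ hy
  · intro h
    have h2 : IV ((Ψ : Matrix ι ι ℚ_[ℓ])ᵀ *ᵥ (((g⁻¹ : GL ι ℚ_[ℓ]) : Matrix ι ι ℚ_[ℓ]) *ᵥ x)) := by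
      rw [IV_iff_all]
      intro y' hy'
      rw [← hpair]
      apply h
      rw [apply_mem_latD hβ hc, Matrix.mulVec_mulVec, e1, Matrix.one_mulVec]
      exact hy'
    have h3 := IV.mulVec hΨt' h2
    rwa [Matrix.mulVec_mulVec, e3, Matrix.one_mulVec] at h3

/-- The composition of an isomorphism of quotients with the projection and multiplication by
`ℓ ^ n` as an endomorphism of `A`. -/
theorem exists_gamma_aux {β : (ι → ℚ_[ℓ]) →+ A} (hβ : IsPar β) {g g' : GL ι ℚ_[ℓ]}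
    (hc : Sm 0 ((g⁻¹ : GL ι ℚ_[ℓ]) : Matrix ι ι ℚ_[ℓ]))
    (hc' : Sm 0 ((g'⁻¹ : GL ι ℚ_[ℓ]) : Matrix ι ι ℚ_[ℓ]))
    (ψ : A ⧸ latD β g ≃+ A ⧸ latD β g') :
    ∃ k ∈ KN ℓ ι 0, ∀ (n : ℕ) (a : A →+ A), (∀ x y : A, ψ (QuotientAddGroup.mk x) =
      QuotientAddGroup.mk y → a x = ℓ ^ n • y) →
        ((ℓ : ℚ_[ℓ]) ^ n) • ((g' * k * g⁻¹ : GL ι ℚ_[ℓ]) : Matrix ι ι ℚ_[ℓ])
          = mat hβ hβ a := by
  obtain ⟨k, hk, hk2⟩ := exists_unit (latQ_isPar hβ hc) (latQ_isPar hβ hc') ψ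
  refine ⟨k, hk, fun n a ha => ?_⟩
  symm
  apply mat_eq
  intro v
  have e2 : (g : Matrix ι ι ℚ_[ℓ]) * ((g⁻¹ : GL ι ℚ_[ℓ]) : Matrix ι ι ℚ_[ℓ]) = 1 := by
    rw [← Units.val_mul, mul_inv_cancel, Units.val_one]
  have h1 := hk2 (((g⁻¹ : GL ι ℚ_[ℓ]) : Matrix ι ι ℚ_[ℓ]) *ᵥ v)
  rw [latQ_apply, latQ_apply, Matrix.mulVec_mulVec, e2, Matrix.one_mulVec] at h1
  rw [ha _ _ h1, ← map_nsmul]
  congr 1
  rw [← Nat.cast_smul_eq_nsmul ℚ_[ℓ], Nat.cast_pow, Matrix.mulVec_mulVec, Matrix.mulVec_mulVec,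
    ← Matrix.smul_mulVec]
  congr 2

/-- The same with `ℓ ^ (2 c')` and the lattices `ℓ ^ (-c) h`, `ℓ ^ (-c') h'`. -/
theorem exists_gamma {β : (ι → ℚ_[ℓ]) →+ A} (hβ : IsPar β) {h h' : GL ι ℚ_[ℓ]} (c c' : ℕ)
    (hc : Sm 0 (((sc ℓ ι (-c) * h)⁻¹ : GL ι ℚ_[ℓ]) : Matrix ι ι ℚ_[ℓ]))
    (hc' : Sm 0 (((sc ℓ ι (-c') * h')⁻¹ : GL ι ℚ_[ℓ]) : Matrix ι ι ℚ_[ℓ]))
    (ψ : A ⧸ latD β (sc ℓ ι (-c) * h) ≃+ A ⧸ latD β (sc ℓ ι (-c') * h')) :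
    ∃ k ∈ KN ℓ ι 0, ∀ (a : A →+ A), (∀ x y : A, ψ (QuotientAddGroup.mk x) =
      QuotientAddGroup.mk y → a x = ℓ ^ (2 * c') • y) →
        ((ℓ : ℚ_[ℓ]) ^ (c + c')) • ((h' * k * h⁻¹ : GL ι ℚ_[ℓ]) : Matrix ι ι ℚ_[ℓ])
          = mat hβ hβ a := by
  obtain ⟨k, hk, hk2⟩ := exists_gamma_aux hβ hc hc' ψ
  refine ⟨k, hk, fun a ha => ?_⟩
  rw [← hk2 _ a ha]
  have h3 : ((sc ℓ ι (-c') * h') * k * (sc ℓ ι (-c) * h)⁻¹ : GL ι ℚ_[ℓ])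
      = sc ℓ ι (c - c') * (h' * k * h⁻¹) := by
    rw [mul_inv_rev, sc_inv, neg_neg, ← sc_comm (c : ℤ) h⁻¹]
    calc sc ℓ ι (-c') * h' * k * (sc ℓ ι c * h⁻¹)
        = sc ℓ ι (-c') * ((h' * k) * sc ℓ ι c) * h⁻¹ := by group
      _ = sc ℓ ι (-c') * (sc ℓ ι c * (h' * k)) * h⁻¹ := by rw [sc_comm (c : ℤ) (h' * k)]
      _ = (sc ℓ ι (-c') * sc ℓ ι c) * (h' * k * h⁻¹) := by group
      _ = _ := by
        rw [sc_mul]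
        congr 2
        ring
  rw [h3, Units.val_mul (sc ℓ ι (c - c')), sc_val, smul_mul_assoc, one_mul, smul_smul,
    ← zpow_natCast, ← zpow_natCast, ← zpow_add₀ ell_ne]
  congr 2
  push_cast
  ring

end

end Pool.Agent.TIFA
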