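import Pool.Agent.TIFA.Lin
import Pool.Agent.TIFA.Cen

/-!
# The Frobenius matrix is semisimple

Situation of `TIFA/Lin.lean`: `F` is a similitude of the alternating form `ψ` with factor `q ≠ 0`,
`H = isoG ψ F C` is the group of isometries of `ψ ⊗ C` which commute with `F ⊗ 1` and `Γ ≤ H` is
'discrete and cocompact'. Then the minimal polynomial of `F` is squarefree. In particular a matrix
`φ` such that `F φ - φ F` commutes with `F` commutes with `F`.
-/

set_option autoImplicit false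
set_option linter.unusedSectionVars false

open scoped Matrix Kronecker

namespace Pool.Agent.TIFA

section general

variable {R : Type*} [Field R] {κ ρ : Type*} [Fintype κ] [DecidableEq κ] [Fintype ρ] [DecidableEq ρ]

theorem inv_psi_mul (ψ : GL κ R) : ((ψ⁻¹ : GL κ R) : Matrix κ κ R) * (ψ : Matrix κ κ R) = 1 := by
  rw [← Units.val_mul, inv_mul_cancel, Units.val_one]

theorem psi_mul_inv (ψ : GL κ R) : (ψ : Matrix κ κ R) * ((ψ⁻¹ : GL κ R) : Matrix κ κ R) = 1 := by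
  rw [← Units.val_mul, mul_inv_cancel, Units.val_one]

theorem adj_mul (ψ : GL κ R) (a b : Matrix κ κ R) : adj ψ (a * b) = adj ψ b * adj ψ a := by
  rw [adj, adj, adj, Matrix.transpose_mul]
  calc ((ψ⁻¹ : GL κ R) : Matrix κ κ R) * (bᵀ * aᵀ) * (ψ : Matrix κ κ R)
      = ((ψ⁻¹ : GL κ R) : Matrix κ κ R) * bᵀ * 1 * aᵀ * (ψ : Matrix κ κ R) := by noncomm_ring
    _ = _ := by
      rw [← psi_mul_inv ψ]
      noncomm_ring

theorem adj_sub (ψ : GL κ R) (a b : Matrix κ κ R) : adj ψ (a - b) = adj ψ a - adj ψ b := by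
  rw [adj, adj, adj, Matrix.transpose_sub, mul_sub, sub_mul]

theorem adj_one (ψ : GL κ R) : adj ψ (1 : Matrix κ κ R) = 1 := by
  rw [adj, Matrix.transpose_one, mul_one, inv_psi_mul]

theorem adj_pow (ψ : GL κ R) (a : Matrix κ κ R) (n : ℕ) : adj ψ (a ^ n) = adj ψ a ^ n := by
  induction n with
  | zero => rw [pow_zero, pow_zero, adj_one]
  | succ n ih => rw [pow_succ, adj_mul, ih, pow_succ']

theorem adj_zero (ψ : GL κ R) : adj ψ (0 : Matrix κ κ R) = 0 := by
  rw [adj, Matrix.transpose_zero, mul_zero, zero_mul]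

theorem adj_adj (ψ : GL κ R) (hψ : (ψ : Matrix κ κ R)ᵀ = -(ψ : Matrix κ κ R))
    (a : Matrix κ κ R) : adj ψ (adj ψ a) = a := by
  have h := adj_transpose ψ hψ a
  rw [adj, mul_assoc, h, ← mul_assoc, inv_psi_mul, one_mul]

/-- The bicommutant of `F`. -/
def BC (F : Matrix κ κ R) (x : Matrix κ κ R) : Prop := ∀ y, y * F = F * y → x * y = y * x

theorem BC.mul {F x y : Matrix κ κ R} (hx : BC F x) (hy : BC F y) : BC F (x * y) := by
  intro z hz
  rw [mul_assoc, hy z hz, ← mul_assoc, hx z hz, mul_assoc]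

theorem BC.sub {F x y : Matrix κ κ R} (hx : BC F x) (hy : BC F y) : BC F (x - y) := by
  intro z hz
  rw [sub_mul, mul_sub, hx z hz, hy z hz]

theorem BC.comm {F x y : Matrix κ κ R} (hx : BC F x) (hy : BC F y) : x * y = y * x :=
  hx y (hy F rfl)

theorem BC.self (F : Matrix κ κ R) : BC F F := fun _ h => h.symm

theorem commute_aeval {A : Type*} [Ring A] [Algebra R A] {a y : A} (h : Commute a y)
    (f : Polynomial R) : Commute (Polynomial.aeval a f) y := by
  induction f using Polynomial.induction_on' with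
  | add p q hp hq => rw [map_add]; exact hp.add_left hq
  | monomial n c =>
    rw [Polynomial.aeval_monomial, ← Algebra.smul_def]
    exact (h.pow_left n).smul_left c

theorem BC.aeval (F : Matrix κ κ R) (f : Polynomial R) : BC F (Polynomial.aeval F f) := by
  intro y hy
  exact commute_aeval (show Commute F y from hy.symm) f

theorem BC.adj {ψ F : GL κ R} (hψ : (ψ : Matrix κ κ R)ᵀ = -(ψ : Matrix κ κ R)) {q : R}
    (hF : (F : Matrix κ κ R)ᵀ * (ψ : Matrix κ κ R) * (F : Matrix κ κ R) = q • (ψ : Matrix κ κ R))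
    {x : Matrix κ κ R} (hx : BC (F : Matrix κ κ R) x) : BC (F : Matrix κ κ R) (adj ψ x) := by
  intro y hy
  have h1 := hx _ (adj_comm ψ F q hF y hy)
  have h2 := congrArg (TIFA.adj ψ) h1
  rw [adj_mul, adj_mul, adj_adj ψ hψ] at h2
  exact h2.symm

/-- `F' F = q`. -/
theorem adj_F_mul (ψ F : GL κ R) {q : R}
    (hF : (F : Matrix κ κ R)ᵀ * (ψ : Matrix κ κ R) * (F : Matrix κ κ R) = q • (ψ : Matrix κ κ R)) :
    adj ψ (F : Matrix κ κ R) * (F : Matrix κ κ R) = q • 1 := by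
  rw [adj, mul_assoc, mul_assoc, ← mul_assoc (F : Matrix κ κ R)ᵀ, hF, mul_smul_comm, inv_psi_mul]

theorem kron_pow (x : Matrix κ κ R) (n : ℕ) :
    (x ⊗ₖ (1 : Matrix ρ ρ R)) ^ n = (x ^ n) ⊗ₖ (1 : Matrix ρ ρ R) := by
  induction n with
  | zero => rw [pow_zero, pow_zero, Matrix.one_kronecker_one]
  | succ n ih => rw [pow_succ, ih, pow_succ, ← Matrix.mul_kronecker_mul, one_mul]

theorem kron_nilpotent {x : Matrix κ κ R} (hx : IsNilpotent x) :
    IsNilpotent (x ⊗ₖ (1 : Matrix ρ ρ R)) := by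
  obtain ⟨n, hn⟩ := hx
  exact ⟨n, by rw [kron_pow, hn, Matrix.zero_kronecker]⟩

/-- Elements of `isoG` commute with `x ⊗ 1` for `x` in the bicommutant of `F`. -/
theorem BC.kron_comm {ψ F : Matrix κ κ R} {C : Matrix ρ ρ R} {x : Matrix κ κ R} (hx : BC F x)
    {h : GL (κ × ρ) R} (hh : h ∈ isoG ψ F C) :
    (h : Matrix (κ × ρ) (κ × ρ) R) * (x ⊗ₖ (1 : Matrix ρ ρ R)) =
      (x ⊗ₖ (1 : Matrix ρ ρ R)) * (h : Matrix (κ × ρ) (κ × ρ) R) := by
  have h1 := (mem_isoG.1 hh).2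
  have hL : ∀ (a : Matrix (κ × ρ) (κ × ρ) R) (z : Matrix κ κ R) (i : κ) (r : ρ) (j : κ) (s : ρ),
      (a * (z ⊗ₖ (1 : Matrix ρ ρ R))) (i, r) (j, s)
        = ((Matrix.of fun i j => a (i, r) (j, s) : Matrix κ κ R) * z) i j := by
    intro a z i r j s
    rw [Matrix.mul_apply, Matrix.mul_apply, Fintype.sum_prod_type]
    refine Finset.sum_congr rfl fun k _ => ?_
    rw [Finset.sum_eq_single s]
    · rw [Matrix.kroneckerMap_apply, Matrix.one_apply_eq, mul_one, Matrix.of_apply]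
    · intro t _ ht
      rw [Matrix.kroneckerMap_apply, Matrix.one_apply_ne ht, mul_zero, mul_zero]
    · intro ht
      exact absurd (Finset.mem_univ _) ht
  have hR : ∀ (a : Matrix (κ × ρ) (κ × ρ) R) (z : Matrix κ κ R) (i : κ) (r : ρ) (j : κ) (s : ρ),
      ((z ⊗ₖ (1 : Matrix ρ ρ R)) * a) (i, r) (j, s)
        = (z * (Matrix.of fun i j => a (i, r) (j, s) : Matrix κ κ R)) i j := by
    intro a z i r j s
    rw [Matrix.mul_apply, Matrix.mul_apply, Fintype.sum_prod_type]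
    refine Finset.sum_congr rfl fun k _ => ?_
    rw [Finset.sum_eq_single r]
    · rw [Matrix.kroneckerMap_apply, Matrix.one_apply_eq, mul_one, Matrix.of_apply]
    · intro t _ ht
      rw [Matrix.kroneckerMap_apply, Matrix.one_apply_ne (Ne.symm ht), mul_zero, zero_mul]
    · intro ht
      exact absurd (Finset.mem_univ _) ht
  have h2 : ∀ r s : ρ, (Matrix.of fun i j => (h : Matrix (κ × ρ) (κ × ρ) R) (i, r) (j, s) :
      Matrix κ κ R) * F = F * (Matrix.of fun i j => (h : Matrix (κ × ρ) (κ × ρ) R) (i, r) (j, s) :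
      Matrix κ κ R) := by
    intro r s
    ext i j
    rw [← hL, ← hR, h1]
  ext ⟨i, r⟩ ⟨j, s⟩
  rw [hL, hR, hx _ (h2 r s)]

end general

section ladic

variable {ℓ : ℕ} [Fact ℓ.Prime] {κ ρ : Type*} [Fintype κ] [DecidableEq κ] [Fintype ρ]
  [DecidableEq ρ]

theorem exp_semiconj {ι : Type*} [Fintype ι] [DecidableEq ι] {A B P : Matrix ι ι ℚ_[ℓ]}
    (hA : IsNilpotent A) (hB : IsNilpotent B) (h : A * P = P * B) :
    IsNilpotent.exp A * P = P * IsNilpotent.exp B := by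
  obtain ⟨a, ha⟩ := hA
  obtain ⟨b, hb⟩ := hB
  have ha' : A ^ (a + b) = 0 := by rw [pow_add, ha, zero_mul]
  have hb' : B ^ (a + b) = 0 := by rw [pow_add, hb, mul_zero]
  have hp : ∀ n, A ^ n * P = P * B ^ n := by
    intro n
    induction n with
    | zero => rw [pow_zero, pow_zero, one_mul, mul_one]
    | succ n ih => rw [pow_succ, mul_assoc, h, ← mul_assoc, ih, mul_assoc, ← pow_succ]
  rw [IsNilpotent.exp_eq_sum ha', IsNilpotent.exp_eq_sum hb', Finset.sum_mul, Finset.mul_sum]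
  refine Finset.sum_congr rfl fun i _ => ?_
  rw [smul_mul_assoc, mul_smul_comm, hp]

theorem exp_transpose {ι : Type*} [Fintype ι] [DecidableEq ι] {A : Matrix ι ι ℚ_[ℓ]}
    (hA : IsNilpotent A) : (IsNilpotent.exp A)ᵀ = IsNilpotent.exp Aᵀ := by
  obtain ⟨a, ha⟩ := hA
  have ha' : Aᵀ ^ a = 0 := by rw [← Matrix.transpose_pow, ha, Matrix.transpose_zero]
  rw [IsNilpotent.exp_eq_sum ha, IsNilpotent.exp_eq_sum ha', Matrix.transpose_sum]
  refine Finset.sum_congr rfl fun i _ => ?_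
  rw [Matrix.transpose_smul, Matrix.transpose_pow]

/-- There are no nilpotent skew elements in the bicommutant of `F`. -/
theorem skew_nil_zero [Nonempty ρ] (ψ F : GL κ ℚ_[ℓ]) (C : Matrix ρ ρ ℚ_[ℓ])
    (Γ : Subgroup (GL (κ × ρ) ℚ_[ℓ]))
    (hΓH : Γ ≤ isoG (ψ : Matrix κ κ ℚ_[ℓ]) (F : Matrix κ κ ℚ_[ℓ]) C)
    (hfin : {γ : GL (κ × ρ) ℚ_[ℓ] | γ ∈ Γ ∧ γ ∈ KN ℓ (κ × ρ) 0}.Finite)
    (hY : ∃ Z : Finset (GL (κ × ρ) ℚ_[ℓ]),
      ∀ x ∈ isoG (ψ : Matrix κ κ ℚ_[ℓ]) (F : Matrix κ κ ℚ_[ℓ]) C,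
        ∃ z ∈ Z, ∃ γ ∈ Γ, ∃ k ∈ KN ℓ (κ × ρ) 0,
          k ∈ isoG (ψ : Matrix κ κ ℚ_[ℓ]) (F : Matrix κ κ ℚ_[ℓ]) C ∧ x = γ * z * k)
    (x : Matrix κ κ ℚ_[ℓ]) (hx : IsNilpotent x) (hbc : BC (F : Matrix κ κ ℚ_[ℓ]) x)
    (hsk : adj ψ x = -x) : x = 0 := by
  have hX : IsNilpotent (x ⊗ₖ (1 : Matrix ρ ρ ℚ_[ℓ])) := kron_nilpotent hx
  have hXt : (x ⊗ₖ (1 : Matrix ρ ρ ℚ_[ℓ]))ᵀ * ((ψ : Matrix κ κ ℚ_[ℓ]) ⊗ₖ C) =
      ((ψ : Matrix κ κ ℚ_[ℓ]) ⊗ₖ C) * -(x ⊗ₖ (1 : Matrix ρ ρ ℚ_[ℓ])) := by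
    rw [← Matrix.kroneckerMap_transpose, ← Matrix.mul_kronecker_mul, Matrix.transpose_one,
      one_mul, ← psi_adj, hsk, mul_neg, mul_neg, ← Matrix.mul_kronecker_mul, mul_one]
    ext ⟨i, r⟩ ⟨j, s⟩
    simp only [Matrix.kroneckerMap_apply, Matrix.neg_apply, neg_mul]
  have hexp : ∀ (s : ℚ_[ℓ]) (B : Matrix (κ × ρ) (κ × ρ) ℚ_[ℓ]),
      (x ⊗ₖ (1 : Matrix ρ ρ ℚ_[ℓ])) * B = B * (x ⊗ₖ (1 : Matrix ρ ρ ℚ_[ℓ])) →
      ((eu _ hX s : GL (κ × ρ) ℚ_[ℓ]) : Matrix (κ × ρ) (κ × ρ) ℚ_[ℓ]) * B =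
        B * ((eu _ hX s : GL (κ × ρ) ℚ_[ℓ]) : Matrix (κ × ρ) (κ × ρ) ℚ_[ℓ]) := by
    intro s B hB
    rw [eu_val]
    refine exp_semiconj (hX.smul s) (hX.smul s) ?_
    rw [smul_mul_assoc, hB, mul_smul_comm]
  have h0 : (x ⊗ₖ (1 : Matrix ρ ρ ℚ_[ℓ])) = 0 := by
    refine central_nil_zero _ Γ hΓH hfin hY _ hX ?_ ?_
    · intro s
      rw [mem_isoG]
      constructor
      · rw [eu_val, exp_transpose (hX.smul s)]
        have h1 : IsNilpotent.exp (s • (x ⊗ₖ (1 : Matrix ρ ρ ℚ_[ℓ])))ᵀ *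
            ((ψ : Matrix κ κ ℚ_[ℓ]) ⊗ₖ C) = ((ψ : Matrix κ κ ℚ_[ℓ]) ⊗ₖ C) *
            IsNilpotent.exp (-(s • (x ⊗ₖ (1 : Matrix ρ ρ ℚ_[ℓ])))) := by
          refine exp_semiconj ?_ (hX.smul s).neg ?_
          · obtain ⟨n, hn⟩ := hX.smul s
            exact ⟨n, by rw [← Matrix.transpose_pow, hn, Matrix.transpose_zero]⟩
          · rw [Matrix.transpose_smul, smul_mul_assoc, hXt, mul_neg, mul_neg, mul_smul_comm,
              smul_neg]
        rw [h1, mul_assoc, IsNilpotent.exp_neg_mul_exp_self (hX.smul s), mul_one]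
      · apply hexp
        rw [← Matrix.mul_kronecker_mul, ← Matrix.mul_kronecker_mul, mul_one,
          hbc _ rfl]
    · intro s h hh
      apply Units.ext
      rw [Units.val_mul, Units.val_mul]
      exact (hexp s _ (hbc.kron_comm hh).symm).symm
  obtain ⟨r⟩ := (inferInstance : Nonempty ρ)
  ext i j
  have h1 := congrFun (congrFun h0 (i, r)) (j, r)
  rw [Matrix.kroneckerMap_apply, Matrix.one_apply_eq, mul_one] at h1
  rw [h1]
  rfl

end ladic

section abstract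

variable {R : Type*} [Field R] {κ : Type*} [Fintype κ] [DecidableEq κ]

/-- If there are no nilpotent skew elements in the bicommutant of the similitude `F`, then the
minimal polynomial of `F` is squarefree. -/
theorem minpoly_squarefree [CharZero R] (ψ F : GL κ R)
    (hψ : (ψ : Matrix κ κ R)ᵀ = -(ψ : Matrix κ κ R))
    (q : R) (hq : q ≠ 0) (hF : (F : Matrix κ κ R)ᵀ * (ψ : Matrix κ κ R) *
      (F : Matrix κ κ R) = q • (ψ : Matrix κ κ R))
    (hS : ∀ x : Matrix κ κ R, IsNilpotent x → BC (F : Matrix κ κ R) x → adj ψ x = -x → x = 0) :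
    Squarefree (minpoly R (F : Matrix κ κ R)) := by
  classical
  set F0 : Matrix κ κ R := (F : Matrix κ κ R) with hF0
  have hint : IsIntegral R F0 := Matrix.isIntegral F0
  set P := minpoly R F0 with hP
  have hP0 : P ≠ 0 := minpoly.ne_zero hint
  have hev : ∀ f : Polynomial R, Polynomial.aeval F0 f = 0 ↔ P ∣ f := fun f =>
    (minpoly.dvd_iff).symm
  set u : Matrix κ κ R := F0 - adj ψ F0 with hu
  have hσF : adj ψ F0 * F0 = q • 1 := adj_F_mul ψ F hF
  have hbF : BC F0 F0 := BC.self F0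
  have hbσ : BC F0 (adj ψ F0) := BC.adj hψ hF hbF
  have hbu : BC F0 u := hbF.sub hbσ
  have hσu : adj ψ u = -u := by
    rw [hu, adj_sub, adj_adj ψ hψ, neg_sub]
  have hFu : F0 * u = F0 ^ 2 - q • 1 := by
    rw [hu, mul_sub, ← hσF, hbF.comm hbσ, sq]
  have hX : ∀ f : Polynomial R, Polynomial.aeval F0 f * u = 0 →
      P ∣ f * (Polynomial.X ^ 2 - Polynomial.C q) := by
    intro f hf
    rw [← hev, map_mul, map_sub, map_pow, Polynomial.aeval_X, Polynomial.aeval_C,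
      Algebra.algebraMap_eq_smul_one, ← hFu, hbF.comm hbu, ← mul_assoc, hf, zero_mul]
  -- nilpotents in the bicommutant are symmetric
  have hsym : ∀ y : Matrix κ κ R, IsNilpotent y → BC F0 y → adj ψ y = y := by
    intro y hy hb
    have hb' : BC F0 (adj ψ y) := BC.adj hψ hF hb
    have hn' : IsNilpotent (adj ψ y) := by
      obtain ⟨n, hn⟩ := hy
      exact ⟨n, by rw [← adj_pow, hn, adj_zero]⟩
    have h1 := hS (y - adj ψ y) (Commute.isNilpotent_sub (hb.comm hb') hy hn') (hb.sub hb')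
      (by rw [adj_sub, adj_adj ψ hψ, neg_sub])
    exact (sub_eq_zero.1 h1).symm
  have hsymu : ∀ y : Matrix κ κ R, IsNilpotent y → BC F0 y → y * u = 0 := by
    intro y hy hb
    refine hS _ ?_ (hb.mul hbu) ?_
    · exact (show Commute y u from hb.comm hbu).isNilpotent_mul_right hy
    · rw [adj_mul, hσu, hsym y hy hb, neg_mul, hbu.comm hb]
  rw [squarefree_iff_no_irreducibles hP0]
  intro p hp hpp
  obtain ⟨R', hR'⟩ := hpp
  -- `p ∣ X² - q`
  have h1 : p ∣ Polynomial.X ^ 2 - Polynomial.C q := by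
    have hnil : IsNilpotent (Polynomial.aeval F0 (p * R')) := by
      refine ⟨2, ?_⟩
      rw [← map_pow, hev, hR']
      exact ⟨R', by ring⟩
    have h2 := hX _ (hsymu _ hnil (BC.aeval F0 _))
    rw [hR', mul_assoc, mul_comm p R', mul_assoc, mul_comm p, ← mul_assoc] at h2
    rw [hR'] at hP0
    have hR0 : p * R' ≠ 0 := by
      intro h
      exact hP0 (by rw [mul_assoc, h, mul_zero])
    have h3 : (p * R') * p ∣ (p * R') * (Polynomial.X ^ 2 - Polynomial.C q) := by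
      convert h2 using 1 <;> ring
    exact (mul_dvd_mul_iff_left hR0).1 h3
  -- the `p`-part
  have hfm : FiniteMultiplicity p P := FiniteMultiplicity.of_prime_left hp.prime hP0
  obtain ⟨Q, hPQ, hpQ⟩ := hfm.exists_eq_pow_mul_and_not_dvd
  set e := multiplicity p P with he
  have he2 : 2 ≤ e := by
    by_contra hlt
    have hle : e ≤ 1 := by omega
    have h4 : p * p ∣ p ^ e * Q := by
      rw [← hPQ]
      exact ⟨R', hR'⟩
    rcases Nat.le_one_iff_eq_zero_or_eq_one.1 hle with h0 | h0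
    · rw [h0, pow_zero, one_mul] at h4
      exact hpQ ((dvd_mul_right p p).trans h4)
    · rw [h0, pow_one] at h4
      exact hpQ ((mul_dvd_mul_iff_left hp.ne_zero).1 h4)
  -- `z = Q(F) u` is nilpotent
  have hbQ : BC F0 (Polynomial.aeval F0 Q) := BC.aeval F0 Q
  have hbQ' : BC F0 (adj ψ (Polynomial.aeval F0 Q)) := BC.adj hψ hF hbQ
  have hFz : F0 * (Polynomial.aeval F0 Q * u)
      = Polynomial.aeval F0 (Q * (Polynomial.X ^ 2 - Polynomial.C q)) := by
    rw [map_mul, map_sub, map_pow, Polynomial.aeval_X, Polynomial.aeval_C,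
      Algebra.algebraMap_eq_smul_one, ← hFu, ← mul_assoc, hbF.comm hbQ, mul_assoc]
  have hbz : BC F0 (Polynomial.aeval F0 Q * u) := hbQ.mul hbu
  have hznil : IsNilpotent (Polynomial.aeval F0 Q * u) := by
    have h5 : IsNilpotent (F0 * (Polynomial.aeval F0 Q * u)) := by
      refine ⟨e, ?_⟩
      rw [hFz, ← map_pow, hev, mul_pow, hPQ, mul_comm (p ^ e)]
      exact mul_dvd_mul (dvd_pow_self Q (by omega)) (pow_dvd_pow_of_dvd h1 e)
    have h6 : Polynomial.aeval F0 Q * u = ((F⁻¹ : GL κ R) : Matrix κ κ R) *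
        (F0 * (Polynomial.aeval F0 Q * u)) := by
      rw [← mul_assoc, hF0, inv_psi_mul, one_mul]
    rw [h6]
    refine Commute.isNilpotent_mul_left ?_ h5
    have h7 : Commute (F : Matrix κ κ R) (F0 * (Polynomial.aeval F0 Q * u)) :=
      hbF.comm (hbF.mul hbz)
    exact Commute.units_inv_left h7
  have hz := hsym _ hznil hbz
  have hw : adj ψ (Polynomial.aeval F0 Q) * (Polynomial.aeval F0 Q * u) = 0 := by
    refine hS _ ?_ (hbQ'.mul hbz) ?_
    · exact (show Commute _ _ from hbQ'.comm hbz).isNilpotent_mul_left hznil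
    · rw [adj_mul, adj_mul, adj_adj ψ hψ, hσu, neg_mul, neg_mul, mul_assoc,
        hbQ'.comm hbQ, hbu.comm (hbQ.mul hbQ'), ← mul_assoc, hbQ.comm hbQ']
  have hQz : Polynomial.aeval F0 Q * (Polynomial.aeval F0 Q * u) = 0 := by
    conv_lhs => rw [← hz]
    rw [adj_mul, hσu, neg_mul, mul_neg, hbu.comm hbQ', ← mul_assoc, hbQ.comm hbQ', mul_assoc, hw,
      neg_zero]
  rw [← mul_assoc, ← map_mul] at hQz
  have h8 := hX _ hQz
  have h9 : p * p ∣ Q * Q * (Polynomial.X ^ 2 - Polynomial.C q) := by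
    refine dvd_trans ?_ h8
    exact ⟨R', hR'⟩
  have h10 : p * p ∣ Polynomial.X ^ 2 - Polynomial.C q := by
    have hcop : IsCoprime (p * p) (Q * Q) := by
      have h11 : IsCoprime p Q := (hp.coprime_iff_not_dvd).2 hpQ
      exact (h11.mul_left h11).mul_right (h11.mul_left h11)
    exact hcop.dvd_of_dvd_mul_left h9
  have hsq : Squarefree (Polynomial.X ^ 2 - Polynomial.C q : Polynomial R) := by
    apply Polynomial.Separable.squarefree
    have := (Polynomial.separable_X_pow_sub_C q (n := 2) (by norm_num) hq)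
    exact this
  exact hp.not_isUnit (hsq p h10)

/-- If the minimal polynomial of `F` is squarefree and `F φ - φ F` commutes with `F`, then `φ`
commutes with `F`. -/
theorem comm_of_squarefree [CharZero R] (F : Matrix κ κ R) (hsq : Squarefree (minpoly R F))
    (φ : Matrix κ κ R) (hφ : (F * φ - φ * F) * F = F * (F * φ - φ * F)) : φ * F = F * φ := by
  set ε := F * φ - φ * F with hε
  have hder : ∀ f : Polynomial R, Polynomial.aeval F f * φ - φ * Polynomial.aeval F f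
      = Polynomial.aeval F (Polynomial.derivative f) * ε := by
    intro f
    induction f using Polynomial.induction_on' with
    | add a b ha hb =>
      rw [Polynomial.derivative_add, map_add, map_add, add_mul, mul_add, add_mul, ← ha, ← hb]
      abel
    | monomial n c =>
      have hn : ∀ n : ℕ, F ^ n * φ - φ * F ^ n = (n : ℕ) • (F ^ (n - 1) * ε) := by
        intro n
        induction n with
        | zero => rw [pow_zero, one_mul, mul_one, sub_self, zero_smul]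
        | succ n ih =>
          have e1 : F ^ (n + 1) * φ - φ * F ^ (n + 1)
              = F * (F ^ n * φ - φ * F ^ n) + ε * F ^ n := by
            rw [hε, pow_succ']
            noncomm_ring
          have e2 : ε * F ^ n = F ^ n * ε := by
            have : Commute ε F := hφ
            exact (this.pow_right n).eq
          rw [e1, ih, e2, Nat.add_sub_cancel, add_smul, one_smul, mul_smul_comm]
          congr 1
          rcases Nat.eq_zero_or_pos n with h0 | h0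
          · rw [h0, zero_smul, zero_smul]
          · rw [← mul_assoc, ← pow_succ', Nat.sub_add_cancel h0]
      rw [Polynomial.aeval_monomial, Polynomial.derivative_monomial, Polynomial.aeval_monomial,
        ← Algebra.smul_def, ← Algebra.smul_def, smul_mul_assoc, mul_smul_comm, ← smul_sub, hn,
        smul_mul_assoc, mul_smul, Nat.cast_smul_eq_nsmul]
  have hsep : (minpoly R F).Separable := PerfectField.separable_iff_squarefree.2 hsq
  obtain ⟨a, b, hab⟩ := hsep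
  have h0 := hder (minpoly R F)
  rw [minpoly.aeval, zero_mul, mul_zero, sub_self] at h0
  have h1 := congrArg (Polynomial.aeval F) hab
  rw [map_add, map_mul, map_mul, minpoly.aeval, mul_zero, zero_add, map_one] at h1
  have h2 : ε = 0 := by
    calc ε = (Polynomial.aeval F b * Polynomial.aeval F (Polynomial.derivative (minpoly R F))) * ε := by
          rw [h1, one_mul]
      _ = 0 := by rw [mul_assoc, ← h0, mul_zero]
  exact (sub_eq_zero.1 h2).symm

end abstract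

section final

variable {ℓ : ℕ} [Fact ℓ.Prime] {κ ρ : Type*} [Fintype κ] [DecidableEq κ] [Fintype ρ]
  [DecidableEq ρ]

/-- The minimal polynomial of `F` is squarefree. -/
theorem frob_semisimple [Nonempty ρ] (ψ F : GL κ ℚ_[ℓ])
    (hψ : (ψ : Matrix κ κ ℚ_[ℓ])ᵀ = -(ψ : Matrix κ κ ℚ_[ℓ]))
    (q : ℚ_[ℓ]) (hq : q ≠ 0) (hF : (F : Matrix κ κ ℚ_[ℓ])ᵀ * (ψ : Matrix κ κ ℚ_[ℓ]) *
      (F : Matrix κ κ ℚ_[ℓ]) = q • (ψ : Matrix κ κ ℚ_[ℓ])) (C : Matrix ρ ρ ℚ_[ℓ])
    (Γ : Subgroup (GL (κ × ρ) ℚ_[ℓ]))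
    (hΓH : Γ ≤ isoG (ψ : Matrix κ κ ℚ_[ℓ]) (F : Matrix κ κ ℚ_[ℓ]) C)
    (hfin : {γ : GL (κ × ρ) ℚ_[ℓ] | γ ∈ Γ ∧ γ ∈ KN ℓ (κ × ρ) 0}.Finite)
    (hY : ∃ Z : Finset (GL (κ × ρ) ℚ_[ℓ]),
      ∀ x ∈ isoG (ψ : Matrix κ κ ℚ_[ℓ]) (F : Matrix κ κ ℚ_[ℓ]) C,
        ∃ z ∈ Z, ∃ γ ∈ Γ, ∃ k ∈ KN ℓ (κ × ρ) 0,
          k ∈ isoG (ψ : Matrix κ κ ℚ_[ℓ]) (F : Matrix κ κ ℚ_[ℓ]) C ∧ x = γ * z * k) :
    Squarefree (minpoly ℚ_[ℓ] (F : Matrix κ κ ℚ_[ℓ])) :=
  minpoly_squarefree ψ F hψ q hq hF fun x hx hb hs =>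
    skew_nil_zero ψ F C Γ hΓH hfin hY x hx hb hs

end final

end Pool.Agent.TIFA
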