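import Pool.Agent.TIFA.Rec

/-!
# `ℓ`-adic linear groups with a discrete cocompact subgroup

`H` a subgroup of `GL_n(ℚ_ℓ)`, `Γ ≤ H` such that `Γ ∩ GL_n(ℤ_ℓ)` is finite and
`Γ \ H / (H ∩ GL_n(ℤ_ℓ))` is finite. If `n ^ 2 = 0` and `1 + t n ∈ H` for all `t ∈ ℚ_ℓ`, then `n` is
in the `ℚ_ℓ`-linear span of `Γ`.
-/

set_option autoImplicit false
set_option linter.unusedSectionVars false

open scoped Matrix

namespace Pool.Agent.TIFA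

variable {ℓ : ℕ} [Fact ℓ.Prime] {ι : Type*} [Fintype ι] [DecidableEq ι]

/-- Integral matrices congruent to `0` modulo `ℓ ^ N`. -/
def Sm (N : ℕ) (a : Matrix ι ι ℚ_[ℓ]) : Prop := ∀ i j, ‖a i j‖ ≤ (ℓ : ℝ) ^ (-(N : ℤ))

theorem ell_pos : (0 : ℝ) < (ℓ : ℝ) := by exact_mod_cast (Fact.out : ℓ.Prime).pos

theorem ell_one_le : (1 : ℝ) ≤ (ℓ : ℝ) := by exact_mod_cast (Fact.out : ℓ.Prime).one_le

theorem Sm.add {N : ℕ} {a b : Matrix ι ι ℚ_[ℓ]} (ha : Sm N a) (hb : Sm N b) : Sm N (a + b) := by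
  intro i j
  rw [Matrix.add_apply]
  exact (Padic.nonarchimedean _ _).trans (max_le (ha i j) (hb i j))

theorem Sm.neg {N : ℕ} {a : Matrix ι ι ℚ_[ℓ]} (ha : Sm N a) : Sm N (-a) := by
  intro i j
  rw [Matrix.neg_apply, norm_neg]
  exact ha i j

theorem Sm.sub {N : ℕ} {a b : Matrix ι ι ℚ_[ℓ]} (ha : Sm N a) (hb : Sm N b) : Sm N (a - b) := by
  rw [sub_eq_add_neg]
  exact ha.add hb.neg

theorem norm_sum_le_of {α : Type*} (s : Finset α) (f : α → ℚ_[ℓ]) (C : ℝ) (hC : 0 ≤ C)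
    (h : ∀ i ∈ s, ‖f i‖ ≤ C) : ‖∑ i ∈ s, f i‖ ≤ C := by
  classical
  induction s using Finset.induction_on with
  | empty => simpa using hC
  | insert a s ha ih =>
    rw [Finset.sum_insert ha]
    refine (Padic.nonarchimedean _ _).trans (max_le (h a (Finset.mem_insert_self _ _)) ?_)
    exact ih fun i hi => h i (Finset.mem_insert_of_mem hi)

theorem Sm.mul {N M : ℕ} {a b : Matrix ι ι ℚ_[ℓ]} (ha : Sm N a) (hb : Sm M b) :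
    Sm (N + M) (a * b) := by
  intro i j
  have hl : (0 : ℝ) < (ℓ : ℝ) := ell_pos
  rw [Matrix.mul_apply]
  refine norm_sum_le_of _ _ _ (by positivity) fun k _ => ?_
  rw [norm_mul]
  have : (ℓ : ℝ) ^ (-((N + M : ℕ) : ℤ)) = (ℓ : ℝ) ^ (-(N : ℤ)) * (ℓ : ℝ) ^ (-(M : ℤ)) := by
    rw [← zpow_add₀ hl.ne']
    congr 1
    push_cast
    ring
  rw [this]
  exact mul_le_mul (ha i k) (hb k j) (norm_nonneg _) (by positivity)

theorem Sm.mono {N M : ℕ} (h : N ≤ M) {a : Matrix ι ι ℚ_[ℓ]} (ha : Sm M a) : Sm N a := by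
  intro i j
  refine (ha i j).trans (zpow_le_zpow_right₀ ell_one_le ?_)
  omega

theorem Sm_one : Sm 0 (1 : Matrix ι ι ℚ_[ℓ]) := by
  intro i j
  rw [Matrix.one_apply]
  split_ifs <;> simp

/-- Every matrix becomes small after multiplication with a power of `ℓ`. -/
theorem exists_Sm (x : Matrix ι ι ℚ_[ℓ]) : ∃ c : ℕ, ∀ (N : ℕ) (a : Matrix ι ι ℚ_[ℓ]),
    Sm (N + c) a → Sm N (x * a) ∧ Sm N (a * x) := by
  have hl : (0 : ℝ) < (ℓ : ℝ) := ell_pos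
  have h1 : ∃ c : ℕ, ∀ i j, ‖x i j‖ ≤ (ℓ : ℝ) ^ (c : ℤ) := by
    have h2 : ∀ q : ι × ι, ∃ c : ℕ, ‖x q.1 q.2‖ ≤ (ℓ : ℝ) ^ (c : ℤ) := by
      intro q
      obtain ⟨c, hc⟩ := pow_unbounded_of_one_lt ‖x q.1 q.2‖
        (by exact_mod_cast (Fact.out : ℓ.Prime).one_lt : (1 : ℝ) < ℓ)
      exact ⟨c, by rw [zpow_natCast]; exact hc.le⟩
    choose f hf using h2
    refine ⟨∑ q, f q, fun i j => (hf (i, j)).trans (zpow_le_zpow_right₀ ell_one_le ?_)⟩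
    exact_mod_cast Finset.single_le_sum (f := f) (fun _ _ => Nat.zero_le _)
      (Finset.mem_univ (i, j))
  obtain ⟨c, hc⟩ := h1
  refine ⟨c, fun N a ha => ?_⟩
  have e : (ℓ : ℝ) ^ (-(N : ℤ)) = (ℓ : ℝ) ^ (c : ℤ) * (ℓ : ℝ) ^ (-((N + c : ℕ) : ℤ)) := by
    rw [← zpow_add₀ hl.ne']
    congr 1
    push_cast
    ring
  constructor
  · intro i j
    rw [Matrix.mul_apply]
    refine norm_sum_le_of _ _ _ (by positivity) fun k _ => ?_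
    rw [norm_mul, e]
    exact mul_le_mul (hc i k) (ha k j) (norm_nonneg _) (by positivity)
  · intro i j
    rw [Matrix.mul_apply]
    refine norm_sum_le_of _ _ _ (by positivity) fun k _ => ?_
    rw [norm_mul, e, mul_comm]
    exact mul_le_mul (hc k j) (ha i k) (norm_nonneg _) (by positivity)

/-- The principal congruence subgroups of `GL_n(ℤ_ℓ)`. -/
def KN (ℓ : ℕ) [Fact ℓ.Prime] (ι : Type*) [Fintype ι] [DecidableEq ι] (N : ℕ) :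
    Subgroup (GL ι ℚ_[ℓ]) where
  carrier := {k | Sm 0 (k : Matrix ι ι ℚ_[ℓ]) ∧ Sm 0 ((k⁻¹ : GL ι ℚ_[ℓ]) : Matrix ι ι ℚ_[ℓ]) ∧
    Sm N ((k : Matrix ι ι ℚ_[ℓ]) - 1)}
  mul_mem' := by
    rintro a b ⟨ha1, ha2, ha3⟩ ⟨hb1, hb2, hb3⟩
    refine ⟨?_, ?_, ?_⟩
    · rw [Units.val_mul]
      exact ha1.mul hb1
    · rw [mul_inv_rev, Units.val_mul]
      exact hb2.mul ha2
    · have e : ((a * b : GL ι ℚ_[ℓ]) : Matrix ι ι ℚ_[ℓ]) - 1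
          = ((a : Matrix ι ι ℚ_[ℓ]) - 1) * (b : Matrix ι ι ℚ_[ℓ]) +
            ((b : Matrix ι ι ℚ_[ℓ]) - 1) := by
        rw [Units.val_mul]
        noncomm_ring
      rw [e]
      exact (ha3.mul hb1).add hb3
  one_mem' := by
    refine ⟨Sm_one, ?_, ?_⟩
    · rw [inv_one]
      exact Sm_one
    · rw [Units.val_one, sub_self]
      intro i j
      rw [Matrix.zero_apply, norm_zero]
      have := ell_pos (ℓ := ℓ)
      positivity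
  inv_mem' := by
    rintro a ⟨ha1, ha2, ha3⟩
    refine ⟨ha2, ?_, ?_⟩
    · rw [inv_inv]
      exact ha1
    · have e : ((a⁻¹ : GL ι ℚ_[ℓ]) : Matrix ι ι ℚ_[ℓ]) - 1
          = -(((a⁻¹ : GL ι ℚ_[ℓ]) : Matrix ι ι ℚ_[ℓ]) * ((a : Matrix ι ι ℚ_[ℓ]) - 1)) := by
        rw [mul_sub, mul_one, ← Units.val_mul, inv_mul_cancel, Units.val_one, neg_sub]
      rw [e]
      have h1 := ha2.mul ha3
      rw [zero_add] at h1
      exact h1.neg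

theorem mem_KN {N : ℕ} {k : GL ι ℚ_[ℓ]} : k ∈ KN ℓ ι N ↔ Sm 0 (k : Matrix ι ι ℚ_[ℓ]) ∧
    Sm 0 ((k⁻¹ : GL ι ℚ_[ℓ]) : Matrix ι ι ℚ_[ℓ]) ∧ Sm N ((k : Matrix ι ι ℚ_[ℓ]) - 1) := Iff.rfl

theorem KN_le {N M : ℕ} (h : N ≤ M) : KN ℓ ι M ≤ KN ℓ ι N :=
  fun _ hk => ⟨hk.1, hk.2.1, hk.2.2.mono h⟩

theorem mem_KN_zero {k : GL ι ℚ_[ℓ]} (h1 : Sm 0 (k : Matrix ι ι ℚ_[ℓ]))
    (h2 : Sm 0 ((k⁻¹ : GL ι ℚ_[ℓ]) : Matrix ι ι ℚ_[ℓ])) : k ∈ KN ℓ ι 0 :=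
  ⟨h1, h2, h1.sub Sm_one⟩

/-- Finite index from a map to a finite set. -/
theorem relIndex_ne_zero_of_fun {G : Type*} [Group G] (A K : Subgroup G) {S : Type*} [Finite S]
    (f : G → S) (h : ∀ a ∈ K, ∀ b ∈ K, f a = f b → a⁻¹ * b ∈ A) : A.relIndex K ≠ 0 := by
  have hfin : Finite (K ⧸ A.subgroupOf K) := by
    refine Finite.of_injective (fun q : K ⧸ A.subgroupOf K => f (q.out : G)) ?_
    intro q q' hq
    have h1 := h _ q.out.2 _ q'.out.2 hq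
    rw [← QuotientGroup.out_eq' q, ← QuotientGroup.out_eq' q', QuotientGroup.eq]
    exact Subgroup.mem_subgroupOf.2 h1
  rw [Subgroup.relIndex, Subgroup.index]
  exact Nat.card_pos.ne'

/-- The entries of a matrix modulo `ℓ ^ M`. -/
noncomputable def red (M : ℕ) (a : Matrix ι ι ℚ_[ℓ]) (i j : ι) : ZMod (ℓ ^ M) :=
  open Classical in if h : ‖a i j‖ ≤ 1 then PadicInt.toZModPow M ⟨a i j, h⟩ else 0

theorem Sm_of_red {M : ℕ} {a b : Matrix ι ι ℚ_[ℓ]} (ha : Sm 0 a) (hb : Sm 0 b)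
    (h : red M a = red M b) : Sm M (a - b) := by
  intro i j
  have h1 : ‖a i j‖ ≤ 1 := by simpa using ha i j
  have h2 : ‖b i j‖ ≤ 1 := by simpa using hb i j
  have h3 := congrFun (congrFun h i) j
  rw [red, red, dif_pos h1, dif_pos h2] at h3
  let a' : ℤ_[ℓ] := ⟨a i j, h1⟩
  let b' : ℤ_[ℓ] := ⟨b i j, h2⟩
  have h4 : PadicInt.toZModPow M (a' - b') = 0 := by
    rw [map_sub, sub_eq_zero]
    exact h3
  rw [← RingHom.mem_ker, PadicInt.ker_toZModPow, ← PadicInt.norm_le_pow_iff_mem_span_pow] at h4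
  exact h4

/-- `K_M` has finite index in `K_0`. -/
theorem KN_relIndex (M : ℕ) : (KN ℓ ι M).relIndex (KN ℓ ι 0) ≠ 0 := by
  have : NeZero (ℓ ^ M) := ⟨pow_ne_zero _ (Fact.out : ℓ.Prime).ne_zero⟩
  refine relIndex_ne_zero_of_fun _ _ (fun k : GL ι ℚ_[ℓ] => red M (k : Matrix ι ι ℚ_[ℓ])) ?_
  intro a ha b hb hab
  have h1 := Sm_of_red ha.1 hb.1 hab
  have h2 := (KN ℓ ι 0).mul_mem ((KN ℓ ι 0).inv_mem ha) hb
  refine ⟨h2.1, h2.2.1, ?_⟩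
  have e : ((a⁻¹ * b : GL ι ℚ_[ℓ]) : Matrix ι ι ℚ_[ℓ]) - 1
      = -(((a⁻¹ : GL ι ℚ_[ℓ]) : Matrix ι ι ℚ_[ℓ]) *
        ((a : Matrix ι ι ℚ_[ℓ]) - (b : Matrix ι ι ℚ_[ℓ]))) := by
    rw [mul_sub, ← Units.val_mul, inv_mul_cancel, Units.val_one, neg_sub, Units.val_mul]
  rw [e]
  have h3 := ha.2.1.mul h1
  rw [zero_add] at h3
  exact h3.neg

/-- Conjugates of `K_N` contain `K_M` for large `M`. -/
theorem exists_KN_le (N : ℕ) (x : GL ι ℚ_[ℓ]) :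
    ∃ M : ℕ, KN ℓ ι M ≤ (KN ℓ ι N).comap (MulAut.conj x).toMonoidHom := by
  obtain ⟨c, hc⟩ := exists_Sm (x : Matrix ι ι ℚ_[ℓ])
  obtain ⟨d, hd⟩ := exists_Sm ((x⁻¹ : GL ι ℚ_[ℓ]) : Matrix ι ι ℚ_[ℓ])
  have key : ∀ k ∈ KN ℓ ι (N + d + c),
      Sm N (((x * k * x⁻¹ : GL ι ℚ_[ℓ]) : Matrix ι ι ℚ_[ℓ]) - 1) := by
    intro k hk
    have e : ((x * k * x⁻¹ : GL ι ℚ_[ℓ]) : Matrix ι ι ℚ_[ℓ]) - 1
        = ((x : Matrix ι ι ℚ_[ℓ]) * ((k : Matrix ι ι ℚ_[ℓ]) - 1)) *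
          ((x⁻¹ : GL ι ℚ_[ℓ]) : Matrix ι ι ℚ_[ℓ]) := by
      rw [mul_sub, mul_one, sub_mul, ← Units.val_mul, ← Units.val_mul, ← Units.val_mul,
        mul_inv_cancel, Units.val_one]
    rw [e]
    exact (hd N _ (hc (N + d) _ hk.2.2).1).2
  refine ⟨N + d + c, fun k hk => ?_⟩
  have h1 := key k hk
  have h2 := key k⁻¹ ((KN ℓ ι (N + d + c)).inv_mem hk)
  have int : ∀ a : Matrix ι ι ℚ_[ℓ], Sm N (a - 1) → Sm 0 a := by
    intro a ha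
    have := (ha.mono (Nat.zero_le N)).add Sm_one
    rwa [sub_add_cancel] at this
  change Sm 0 ((x * k * x⁻¹ : GL ι ℚ_[ℓ]) : Matrix ι ι ℚ_[ℓ]) ∧
    Sm 0 (((x * k * x⁻¹)⁻¹ : GL ι ℚ_[ℓ]) : Matrix ι ι ℚ_[ℓ]) ∧ _
  refine ⟨int _ h1, ?_, h1⟩
  have e : (x * k * x⁻¹)⁻¹ = x * k⁻¹ * x⁻¹ := by group
  rw [e]
  exact int _ h2

/-- All conjugates of `K_N ∩ H` in `H` are commensurable. -/
theorem KN_comm (H : Subgroup (GL ι ℚ_[ℓ])) (N : ℕ) (x : H) :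
    (((KN ℓ ι N).subgroupOf H).comap (MulAut.conj x).toMonoidHom).relIndex
      ((KN ℓ ι N).subgroupOf H) ≠ 0 := by
  obtain ⟨M, hM⟩ := exists_KN_le N (x : GL ι ℚ_[ℓ])
  have h1 : (KN ℓ ι M).subgroupOf H ≤
      ((KN ℓ ι N).subgroupOf H).comap (MulAut.conj x).toMonoidHom := by
    intro k hk
    exact hM hk
  have h2 : ((KN ℓ ι M).subgroupOf H).relIndex ((KN ℓ ι 0).subgroupOf H) ≠ 0 := by
    have h3 := KN_relIndex (ℓ := ℓ) (ι := ι) M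
    rw [Subgroup.subgroupOf, Subgroup.relIndex_comap]
    intro h0
    apply h3
    refine Subgroup.relIndex_eq_zero_of_le_right ?_ h0
    rintro _ ⟨k, hk, rfl⟩
    exact hk
  have h3 : ((KN ℓ ι M).subgroupOf H).relIndex ((KN ℓ ι N).subgroupOf H) ≠ 0 := fun h0 =>
    h2 (Subgroup.relIndex_eq_zero_of_le_right
      (fun k hk => KN_le (Nat.zero_le N) hk) h0)
  exact fun h0 => h3 (Subgroup.relIndex_eq_zero_of_le_left h1 h0)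

/-- Recurrence for `ℓ`-adic groups. -/
theorem recurrence_KN (H Γ : Subgroup (GL ι ℚ_[ℓ])) (hΓ : Γ ≤ H)
    (hfin : {γ : GL ι ℚ_[ℓ] | γ ∈ Γ ∧ γ ∈ KN ℓ ι 0}.Finite)
    (hY : ∃ Z : Finset (GL ι ℚ_[ℓ]), ∀ x ∈ H, ∃ z ∈ Z, ∃ γ ∈ Γ, ∃ k ∈ KN ℓ ι 0,
      k ∈ H ∧ x = γ * z * k) (N : ℕ) (g : ℕ → GL ι ℚ_[ℓ]) (hg : ∀ i, g i ∈ H) :
    ∃ i j : ℕ, i < j ∧ ∃ k ∈ KN ℓ ι N, ∃ k' ∈ KN ℓ ι N, k * (g j * (g i)⁻¹) * k' ∈ Γ ∧
      k ∈ H ∧ k' ∈ H := by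
  classical
  have hfin' : Finite (Γ.subgroupOf H ⊓ (KN ℓ ι N).subgroupOf H : Subgroup H) := by
    have : Finite {γ : GL ι ℚ_[ℓ] | γ ∈ Γ ∧ γ ∈ KN ℓ ι 0} := hfin
    refine Finite.of_injective (fun γ : (Γ.subgroupOf H ⊓ (KN ℓ ι N).subgroupOf H : Subgroup H) =>
      (⟨((γ : H) : GL ι ℚ_[ℓ]), γ.2.1, KN_le (Nat.zero_le N) γ.2.2⟩ :
        {γ : GL ι ℚ_[ℓ] | γ ∈ Γ ∧ γ ∈ KN ℓ ι 0})) ?_
    intro γ γ' h
    have h2 := congrArg (fun z : {γ : GL ι ℚ_[ℓ] | γ ∈ Γ ∧ γ ∈ KN ℓ ι 0} => (z : GL ι ℚ_[ℓ])) h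
    exact Subtype.ext (Subtype.ext h2)
  -- finitely many double cosets for `K_N`
  have hY' : ∃ Z : Finset H, ∀ x : H, ∃ z ∈ Z, ∃ γ ∈ Γ.subgroupOf H,
      ∃ k ∈ (KN ℓ ι N).subgroupOf H, x = γ * z * k := by
    obtain ⟨Z, hZ⟩ := hY
    have hrel : ((KN ℓ ι N).subgroupOf H).relIndex ((KN ℓ ι 0).subgroupOf H) ≠ 0 := by
      have h3 := KN_relIndex (ℓ := ℓ) (ι := ι) N
      rw [Subgroup.subgroupOf, Subgroup.relIndex_comap]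
      intro h0
      apply h3
      refine Subgroup.relIndex_eq_zero_of_le_right ?_ h0
      rintro _ ⟨k, hk, rfl⟩
      exact hk
    have hq : Finite (((KN ℓ ι 0).subgroupOf H) ⧸
        ((KN ℓ ι N).subgroupOf H).subgroupOf ((KN ℓ ι 0).subgroupOf H)) := by
      rw [Subgroup.relIndex, Subgroup.index] at hrel
      exact (Nat.card_ne_zero.1 hrel).2
    have : Fintype (((KN ℓ ι 0).subgroupOf H) ⧸
        ((KN ℓ ι N).subgroupOf H).subgroupOf ((KN ℓ ι 0).subgroupOf H)) := Fintype.ofFinite _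
    let ZH : Finset H := Z.subtype (· ∈ H)
    refine ⟨(ZH ×ˢ (Finset.univ : Finset (((KN ℓ ι 0).subgroupOf H) ⧸
        ((KN ℓ ι N).subgroupOf H).subgroupOf ((KN ℓ ι 0).subgroupOf H)))).image
        (fun q => q.1 * ((q.2.out : (KN ℓ ι 0).subgroupOf H) : H)), ?_⟩
    intro x
    obtain ⟨z, hz, γ, hγ, k, hk, hkH, hx⟩ := hZ x x.2
    have hzH : z ∈ H := by
      have : z = γ⁻¹ * (x : GL ι ℚ_[ℓ]) * k⁻¹ := by
        rw [hx]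
        group
      rw [this]
      exact H.mul_mem (H.mul_mem (H.inv_mem (hΓ hγ)) x.2) (H.inv_mem hkH)
    let k0 : (KN ℓ ι 0).subgroupOf H := ⟨⟨k, hkH⟩, hk⟩
    let q := (k0 : ((KN ℓ ι 0).subgroupOf H) ⧸
        ((KN ℓ ι N).subgroupOf H).subgroupOf ((KN ℓ ι 0).subgroupOf H))
    have hq1 : (q.out)⁻¹ * k0 ∈ ((KN ℓ ι N).subgroupOf H).subgroupOf ((KN ℓ ι 0).subgroupOf H) := by
      rw [← QuotientGroup.eq, QuotientGroup.out_eq']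
    refine ⟨(⟨z, hzH⟩ : H) * ((q.out : (KN ℓ ι 0).subgroupOf H) : H), ?_,
      (⟨γ, hΓ hγ⟩ : H), hγ, ((q.out : (KN ℓ ι 0).subgroupOf H) : H)⁻¹ * ⟨k, hkH⟩, ?_, ?_⟩
    · refine Finset.mem_image.2 ⟨(⟨z, hzH⟩, q), Finset.mem_product.2 ⟨?_, Finset.mem_univ _⟩, rfl⟩
      exact Finset.mem_subtype.2 hz
    · exact Subgroup.mem_subgroupOf.1 hq1
    · apply Subtype.ext
      rw [hx]
      simp only [Subgroup.coe_mul, Subgroup.coe_inv]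
      group
  obtain ⟨i, j, hij, k, hk, k', hk', h⟩ := recurrence (Γ.subgroupOf H) ((KN ℓ ι N).subgroupOf H)
    (fun x => KN_comm H N x) hfin' hY' (fun i => ⟨g i, hg i⟩)
  exact ⟨i, j, hij, k, hk, k', hk', h, k.2, k'.2⟩

/-- The span of `Γ`. -/
noncomputable def spn (Γ : Subgroup (GL ι ℚ_[ℓ])) : Submodule ℚ_[ℓ] (Matrix ι ι ℚ_[ℓ]) :=
  Submodule.span ℚ_[ℓ] {a | ∃ γ ∈ Γ, a = ((γ : GL ι ℚ_[ℓ]) : Matrix ι ι ℚ_[ℓ])}

/-- A subspace contains the matrices which can be approximated by its elements. -/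
theorem mem_of_approx (E : Submodule ℚ_[ℓ] (Matrix ι ι ℚ_[ℓ])) (n : Matrix ι ι ℚ_[ℓ])
    (h : ∀ N : ℕ, ∃ a ∈ E, Sm N (a - n)) : n ∈ E := by
  choose a ha ha' using h
  have hclosed : IsClosed (E : Set (Matrix ι ι ℚ_[ℓ])) := Submodule.closed_of_finiteDimensional E
  have hl : (1 : ℝ) < (ℓ : ℝ) := by exact_mod_cast (Fact.out : ℓ.Prime).one_lt
  refine hclosed.mem_of_tendsto (b := Filter.atTop) (f := a) ?_ (Filter.Eventually.of_forall ha)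
  refine tendsto_pi_nhds.2 fun i => tendsto_pi_nhds.2 fun j => ?_
  rw [tendsto_iff_norm_sub_tendsto_zero]
  refine squeeze_zero (fun N => norm_nonneg _) (fun N => ha' N i j) ?_
  have h1 : Filter.Tendsto (fun N : ℕ => ((ℓ : ℝ)⁻¹) ^ N) Filter.atTop (nhds 0) :=
    tendsto_pow_atTop_nhds_zero_of_lt_one (by positivity) (inv_lt_one_of_one_lt₀ hl)
  refine h1.congr fun N => ?_
  rw [zpow_neg, zpow_natCast, inv_pow]

/-- THEOREM REC. If `Γ` is discrete and cocompact in `H` and `1 + t n ∈ H` for all `t`, `n ^ 2 = 0`,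
then `n` is in the span of `Γ`. -/
theorem mem_spn_of_nil (H Γ : Subgroup (GL ι ℚ_[ℓ])) (hΓ : Γ ≤ H)
    (hfin : {γ : GL ι ℚ_[ℓ] | γ ∈ Γ ∧ γ ∈ KN ℓ ι 0}.Finite)
    (hY : ∃ Z : Finset (GL ι ℚ_[ℓ]), ∀ x ∈ H, ∃ z ∈ Z, ∃ γ ∈ Γ, ∃ k ∈ KN ℓ ι 0,
      k ∈ H ∧ x = γ * z * k) (n : Matrix ι ι ℚ_[ℓ]) (hn : n * n = 0)
    (u : ℚ_[ℓ] → GL ι ℚ_[ℓ]) (hu : ∀ t, ((u t : GL ι ℚ_[ℓ]) : Matrix ι ι ℚ_[ℓ]) = 1 + t • n)
    (huH : ∀ t, u t ∈ H) : n ∈ spn Γ := by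
  have hl : (1 : ℝ) < (ℓ : ℝ) := by exact_mod_cast (Fact.out : ℓ.Prime).one_lt
  have hl0 : (ℓ : ℚ_[ℓ]) ≠ 0 := by exact_mod_cast (Fact.out : ℓ.Prime).ne_zero
  have hadd : ∀ s t, u s * u t = u (s + t) := by
    intro s t
    apply Units.ext
    rw [Units.val_mul, hu, hu, hu, mul_add, add_mul, add_mul, one_mul, one_mul, mul_one,
      smul_mul_smul_comm, hn, smul_zero, add_zero, add_smul, add_assoc]
  have hinv : ∀ s, (u s)⁻¹ = u (-s) := by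
    intro s
    apply inv_eq_of_mul_eq_one_right
    rw [hadd, add_neg_cancel]
    apply Units.ext
    rw [hu, zero_smul, add_zero, Units.val_one]
  obtain ⟨c, hc⟩ := exists_Sm n
  apply mem_of_approx
  intro N
  -- a sequence of `t` with large differences
  let M : ℕ := N + c + 1
  let t : ℕ → ℚ_[ℓ] := fun i => ((ℓ : ℚ_[ℓ]) ^ (M * i))⁻¹
  obtain ⟨i, j, hij, k, hk, k', hk', hγ, -, -⟩ := recurrence_KN H Γ hΓ hfin hY (N + c)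
    (fun i => u (t i)) (fun i => huH _)
  rw [hinv, hadd] at hγ
  set s : ℚ_[ℓ] := t j + -t i with hs
  -- `s` is large
  have hs1 : ‖s‖ = (ℓ : ℝ) ^ (M * j) := by
    have hnt : ∀ i, ‖t i‖ = (ℓ : ℝ) ^ (M * i) := by
      intro i
      simp only [t]
      rw [norm_inv, norm_pow, Padic.norm_p, inv_pow, inv_inv]
    have hlt : ‖-t i‖ < ‖t j‖ := by
      rw [norm_neg, hnt, hnt]
      exact pow_lt_pow_right₀ hl (Nat.mul_lt_mul_of_pos_left hij (by omega))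
    rw [hs, Padic.add_eq_max_of_ne hlt.ne', max_eq_left hlt.le, hnt]
  have hs0 : s ≠ 0 := by
    intro h0
    rw [h0, norm_zero] at hs1
    have : (0 : ℝ) < (ℓ : ℝ) ^ (M * j) := by positivity
    linarith
  have hs2 : ‖s⁻¹‖ ≤ (ℓ : ℝ) ^ (-((N + c : ℕ) : ℤ)) := by
    rw [norm_inv, hs1, ← zpow_natCast, ← zpow_neg]
    refine zpow_le_zpow_right₀ hl.le ?_
    have : N + c ≤ M * j := by
      calc N + c ≤ M * 1 := by omega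
        _ ≤ M * j := Nat.mul_le_mul_left M (by omega)
    omega
  refine ⟨s⁻¹ • ((k * u s * k' : GL ι ℚ_[ℓ]) : Matrix ι ι ℚ_[ℓ]),
    Submodule.smul_mem _ _ (Submodule.subset_span ⟨_, hγ, rfl⟩), ?_⟩
  have hsm : ∀ a : Matrix ι ι ℚ_[ℓ], Sm 0 a → Sm (N + c) (s⁻¹ • a) := by
    intro a ha i j
    rw [Matrix.smul_apply, smul_eq_mul, norm_mul]
    have h1 : ‖a i j‖ ≤ 1 := by simpa using ha i j
    calc ‖s⁻¹‖ * ‖a i j‖ ≤ ‖s⁻¹‖ * 1 := mul_le_mul_of_nonneg_left h1 (norm_nonneg _)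
      _ = ‖s⁻¹‖ := mul_one _
      _ ≤ _ := hs2
  have e : s⁻¹ • ((k * u s * k' : GL ι ℚ_[ℓ]) : Matrix ι ι ℚ_[ℓ]) - n
      = s⁻¹ • ((k : Matrix ι ι ℚ_[ℓ]) * (k' : Matrix ι ι ℚ_[ℓ])) +
        (((k : Matrix ι ι ℚ_[ℓ]) - 1) * n) * (k' : Matrix ι ι ℚ_[ℓ]) +
        n * ((k' : Matrix ι ι ℚ_[ℓ]) - 1) := by
    rw [Units.val_mul, Units.val_mul, hu, mul_add, mul_one, add_mul, smul_add,
      mul_smul_comm, smul_mul_assoc, smul_smul, inv_mul_cancel₀ hs0, one_smul]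
    noncomm_ring
  rw [e]
  refine ((hsm _ ?_).mono (by omega)).add ?_ |>.add ?_
  · have h1 := hk.1.mul hk'.1
    exact h1
  · have h1 := ((hc N _ hk.2.2).2).mul hk'.1
    rw [add_zero] at h1
    exact h1
  · exact (hc N _ hk'.2.2).1

end Pool.Agent.TIFA
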