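import Pool.Agent.TIFA.Lad

/-!
# Linear algebra: the commutant of the Frobenius matrix is spanned by `Γ`

`ψ` an alternating form on `ℚ_ℓ ^ κ`, `F` a similitude of `ψ`, `C` a symmetric matrix with an
isotropic plane `⟨v, w⟩`. For `φ` commuting with `F` the matrix
`n = φ ⊗ v (C w)ᵗ - φ' ⊗ w (C v)ᵗ` (`φ'` the adjoint of `φ`) is nilpotent and skew.
-/

set_option autoImplicit false
set_option linter.unusedSectionVars false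

open scoped Matrix Kronecker

namespace Pool.Agent.TIFA

section general

variable {R : Type*} [Field R] {κ ρ : Type*} [Fintype κ] [DecidableEq κ] [Fintype ρ] [DecidableEq ρ]

/-- The adjoint of `φ` with respect to `ψ`. -/
noncomputable def adj (ψ : GL κ R) (φ : Matrix κ κ R) : Matrix κ κ R :=
  ((ψ⁻¹ : GL κ R) : Matrix κ κ R) * φᵀ * (ψ : Matrix κ κ R)

/-- The nilpotent matrix. -/
noncomputable def nil (ψ : GL κ R) (C : Matrix ρ ρ R) (v w : ρ → R) (φ : Matrix κ κ R) :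
    Matrix (κ × ρ) (κ × ρ) R :=
  φ ⊗ₖ Matrix.vecMulVec v (C *ᵥ w) - adj ψ φ ⊗ₖ Matrix.vecMulVec w (C *ᵥ v)

theorem psi_adj (ψ : GL κ R) (φ : Matrix κ κ R) :
    (ψ : Matrix κ κ R) * adj ψ φ = φᵀ * (ψ : Matrix κ κ R) := by
  rw [adj, ← mul_assoc, ← mul_assoc, ← Units.val_mul, mul_inv_cancel, Units.val_one, one_mul]

theorem adj_transpose (ψ : GL κ R) (hψ : (ψ : Matrix κ κ R)ᵀ = -(ψ : Matrix κ κ R))
    (φ : Matrix κ κ R) : (adj ψ φ)ᵀ * (ψ : Matrix κ κ R) = (ψ : Matrix κ κ R) * φ := by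
  have h1 : ((ψ⁻¹ : GL κ R) : Matrix κ κ R)ᵀ = -((ψ⁻¹ : GL κ R) : Matrix κ κ R) := by
    have h2 : ((ψ⁻¹ : GL κ R) : Matrix κ κ R)ᵀ * (ψ : Matrix κ κ R)ᵀ = 1 := by
      rw [← Matrix.transpose_mul, ← Units.val_mul, mul_inv_cancel, Units.val_one,
        Matrix.transpose_one]
    rw [hψ, mul_neg] at h2
    have h3 : ((ψ⁻¹ : GL κ R) : Matrix κ κ R)ᵀ
        = ((ψ⁻¹ : GL κ R) : Matrix κ κ R)ᵀ * (ψ : Matrix κ κ R) * ((ψ⁻¹ : GL κ R) : Matrix κ κ R) := by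
      rw [mul_assoc, ← Units.val_mul, mul_inv_cancel, Units.val_one, mul_one]
    rw [h3]
    have h4 : ((ψ⁻¹ : GL κ R) : Matrix κ κ R)ᵀ * (ψ : Matrix κ κ R) = -1 := by
      rw [← h2, neg_neg]
    rw [h4, neg_one_mul]
  rw [adj, Matrix.transpose_mul, Matrix.transpose_mul, Matrix.transpose_transpose, hψ, h1]
  have h2 : ((ψ⁻¹ : GL κ R) : Matrix κ κ R) * (ψ : Matrix κ κ R) = 1 := by
    rw [← Units.val_mul, inv_mul_cancel, Units.val_one]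
  calc -(ψ : Matrix κ κ R) * (φ * -((ψ⁻¹ : GL κ R) : Matrix κ κ R)) * (ψ : Matrix κ κ R)
      = (ψ : Matrix κ κ R) * φ * (((ψ⁻¹ : GL κ R) : Matrix κ κ R) * (ψ : Matrix κ κ R)) := by
        noncomm_ring
    _ = (ψ : Matrix κ κ R) * φ := by rw [h2, mul_one]

theorem vmv_mul_vmv (a b c d : ρ → R) : Matrix.vecMulVec a b * Matrix.vecMulVec c d
    = (b ⬝ᵥ c) • Matrix.vecMulVec a d := by
  ext i j
  rw [Matrix.mul_apply, Matrix.smul_apply, Matrix.vecMulVec_apply, smul_eq_mul, dotProduct,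
    Finset.sum_mul]
  refine Finset.sum_congr rfl fun k _ => ?_
  rw [Matrix.vecMulVec_apply, Matrix.vecMulVec_apply]
  ring

theorem nil_sq (ψ : GL κ R) (C : Matrix ρ ρ R) (v w : ρ → R) (hvv : (C *ᵥ v) ⬝ᵥ v = 0)
    (hvw : (C *ᵥ v) ⬝ᵥ w = 0) (hwv : (C *ᵥ w) ⬝ᵥ v = 0) (hww : (C *ᵥ w) ⬝ᵥ w = 0)
    (φ : Matrix κ κ R) : nil ψ C v w φ * nil ψ C v w φ = 0 := by
  rw [nil, sub_mul, mul_sub, mul_sub, ← Matrix.mul_kronecker_mul, ← Matrix.mul_kronecker_mul,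
    ← Matrix.mul_kronecker_mul, ← Matrix.mul_kronecker_mul, vmv_mul_vmv, vmv_mul_vmv,
    vmv_mul_vmv, vmv_mul_vmv, hvv, hvw, hwv, hww]
  simp

theorem nil_skew (ψ : GL κ R) (hψ : (ψ : Matrix κ κ R)ᵀ = -(ψ : Matrix κ κ R))
    (C : Matrix ρ ρ R) (hC : Cᵀ = C) (v w : ρ → R) (φ : Matrix κ κ R) :
    (nil ψ C v w φ)ᵀ * ((ψ : Matrix κ κ R) ⊗ₖ C) + ((ψ : Matrix κ κ R) ⊗ₖ C) * nil ψ C v w φ = 0 := by
  have h1 : ∀ a b : ρ → R, (Matrix.vecMulVec a b)ᵀ = Matrix.vecMulVec b a := fun a b => by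
    ext i j
    rw [Matrix.transpose_apply, Matrix.vecMulVec_apply, Matrix.vecMulVec_apply, mul_comm]
  have h2 : ∀ a b : ρ → R, C * Matrix.vecMulVec a b = Matrix.vecMulVec (C *ᵥ a) b := fun a b => by
    rw [Matrix.mul_vecMulVec]
  have h3 : ∀ a b : ρ → R, Matrix.vecMulVec a b * C = Matrix.vecMulVec a (C *ᵥ b) := fun a b => by
    rw [Matrix.vecMulVec_mul]
    congr 1
    rw [← Matrix.mulVec_transpose, hC]
  rw [nil, Matrix.transpose_sub, ← Matrix.kroneckerMap_transpose, ← Matrix.kroneckerMap_transpose,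
    sub_mul, mul_sub, ← Matrix.mul_kronecker_mul, ← Matrix.mul_kronecker_mul,
    ← Matrix.mul_kronecker_mul, ← Matrix.mul_kronecker_mul, h1, h1, h2, h2, h3, h3, psi_adj,
    adj_transpose ψ hψ]
  abel

/-- `φ'` commutes with `F` if `φ` does. -/
theorem adj_comm (ψ F : GL κ R) (q : R) (hF : (F : Matrix κ κ R)ᵀ * (ψ : Matrix κ κ R) *
    (F : Matrix κ κ R) = q • (ψ : Matrix κ κ R)) (φ : Matrix κ κ R)
    (hφ : φ * (F : Matrix κ κ R) = (F : Matrix κ κ R) * φ) :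
    adj ψ φ * (F : Matrix κ κ R) = (F : Matrix κ κ R) * adj ψ φ := by
  have e1 : ((ψ⁻¹ : GL κ R) : Matrix κ κ R) * (ψ : Matrix κ κ R) = 1 := by
    rw [← Units.val_mul, inv_mul_cancel, Units.val_one]
  have e2 : (ψ : Matrix κ κ R) * ((ψ⁻¹ : GL κ R) : Matrix κ κ R) = 1 := by
    rw [← Units.val_mul, mul_inv_cancel, Units.val_one]
  have e3 : (F : Matrix κ κ R) * ((F⁻¹ : GL κ R) : Matrix κ κ R) = 1 := by
    rw [← Units.val_mul, mul_inv_cancel, Units.val_one]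
  have e4 : ((F⁻¹ : GL κ R) : Matrix κ κ R)ᵀ * (F : Matrix κ κ R)ᵀ = 1 := by
    rw [← Matrix.transpose_mul, e3, Matrix.transpose_one]
  have e4' : (F : Matrix κ κ R)ᵀ * ((F⁻¹ : GL κ R) : Matrix κ κ R)ᵀ = 1 :=
    mul_eq_one_comm.1 e4
  have hφt : (F : Matrix κ κ R)ᵀ * φᵀ = φᵀ * (F : Matrix κ κ R)ᵀ := by
    rw [← Matrix.transpose_mul, ← Matrix.transpose_mul, hφ]
  have hφt' : φᵀ * ((F⁻¹ : GL κ R) : Matrix κ κ R)ᵀ = ((F⁻¹ : GL κ R) : Matrix κ κ R)ᵀ * φᵀ := by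
    calc φᵀ * ((F⁻¹ : GL κ R) : Matrix κ κ R)ᵀ
        = (((F⁻¹ : GL κ R) : Matrix κ κ R)ᵀ * (F : Matrix κ κ R)ᵀ) * φᵀ *
          ((F⁻¹ : GL κ R) : Matrix κ κ R)ᵀ := by rw [e4, one_mul]
      _ = ((F⁻¹ : GL κ R) : Matrix κ κ R)ᵀ * ((F : Matrix κ κ R)ᵀ * φᵀ) *
          ((F⁻¹ : GL κ R) : Matrix κ κ R)ᵀ := by noncomm_ring
      _ = ((F⁻¹ : GL κ R) : Matrix κ κ R)ᵀ * φᵀ * ((F : Matrix κ κ R)ᵀ *
          ((F⁻¹ : GL κ R) : Matrix κ κ R)ᵀ) := by rw [hφt]; noncomm_ring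
      _ = _ := by rw [e4', mul_one]
  -- `ψ F = q F⁻ᵀ ψ`
  have h1 : (ψ : Matrix κ κ R) * (F : Matrix κ κ R)
      = q • (((F⁻¹ : GL κ R) : Matrix κ κ R)ᵀ * (ψ : Matrix κ κ R)) := by
    calc (ψ : Matrix κ κ R) * (F : Matrix κ κ R)
        = ((F⁻¹ : GL κ R) : Matrix κ κ R)ᵀ * ((F : Matrix κ κ R)ᵀ * (ψ : Matrix κ κ R) *
          (F : Matrix κ κ R)) := by
          rw [← mul_assoc, ← mul_assoc, e4, one_mul]
      _ = _ := by rw [hF, mul_smul_comm]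
  -- `F ψ⁻¹ = q ψ⁻¹ F⁻ᵀ`
  have h2 : (F : Matrix κ κ R) * ((ψ⁻¹ : GL κ R) : Matrix κ κ R)
      = q • (((ψ⁻¹ : GL κ R) : Matrix κ κ R) * ((F⁻¹ : GL κ R) : Matrix κ κ R)ᵀ) := by
    calc (F : Matrix κ κ R) * ((ψ⁻¹ : GL κ R) : Matrix κ κ R)
        = ((ψ⁻¹ : GL κ R) : Matrix κ κ R) * ((ψ : Matrix κ κ R) * (F : Matrix κ κ R)) *
          ((ψ⁻¹ : GL κ R) : Matrix κ κ R) := by
          rw [← mul_assoc, e1, one_mul]
      _ = q • (((ψ⁻¹ : GL κ R) : Matrix κ κ R) * ((F⁻¹ : GL κ R) : Matrix κ κ R)ᵀ *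
          ((ψ : Matrix κ κ R) * ((ψ⁻¹ : GL κ R) : Matrix κ κ R))) := by
          rw [h1, mul_smul_comm, smul_mul_assoc]
          congr 1
          noncomm_ring
      _ = _ := by rw [e2, mul_one]
  calc adj ψ φ * (F : Matrix κ κ R)
      = ((ψ⁻¹ : GL κ R) : Matrix κ κ R) * φᵀ * ((ψ : Matrix κ κ R) * (F : Matrix κ κ R)) := by
        rw [adj, mul_assoc]
    _ = q • (((ψ⁻¹ : GL κ R) : Matrix κ κ R) * (φᵀ * ((F⁻¹ : GL κ R) : Matrix κ κ R)ᵀ) *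
        (ψ : Matrix κ κ R)) := by
        rw [h1, mul_smul_comm]
        congr 1
        noncomm_ring
    _ = (q • (((ψ⁻¹ : GL κ R) : Matrix κ κ R) * ((F⁻¹ : GL κ R) : Matrix κ κ R)ᵀ)) * φᵀ *
        (ψ : Matrix κ κ R) := by
        rw [hφt', smul_mul_assoc, smul_mul_assoc]
        congr 1
        noncomm_ring
    _ = (F : Matrix κ κ R) * adj ψ φ := by
        rw [← h2, adj]
        noncomm_ring

theorem nil_comm (ψ F : GL κ R) (q : R) (hF : (F : Matrix κ κ R)ᵀ * (ψ : Matrix κ κ R) *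
    (F : Matrix κ κ R) = q • (ψ : Matrix κ κ R)) (C : Matrix ρ ρ R) (v w : ρ → R)
    (φ : Matrix κ κ R) (hφ : φ * (F : Matrix κ κ R) = (F : Matrix κ κ R) * φ) :
    nil ψ C v w φ * ((F : Matrix κ κ R) ⊗ₖ (1 : Matrix ρ ρ R)) =
      ((F : Matrix κ κ R) ⊗ₖ (1 : Matrix ρ ρ R)) * nil ψ C v w φ := by
  rw [nil, sub_mul, mul_sub, ← Matrix.mul_kronecker_mul, ← Matrix.mul_kronecker_mul,
    ← Matrix.mul_kronecker_mul, ← Matrix.mul_kronecker_mul, mul_one, one_mul, mul_one, one_mul,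
    hφ, adj_comm ψ F q hF φ hφ]

/-- The isometries of `ψ ⊗ C` which commute with `F ⊗ 1`. -/
def isoG (ψ F : Matrix κ κ R) (C : Matrix ρ ρ R) : Subgroup (GL (κ × ρ) R) where
  carrier := {h | (h : Matrix (κ × ρ) (κ × ρ) R)ᵀ * (ψ ⊗ₖ C) * (h : Matrix (κ × ρ) (κ × ρ) R)
      = ψ ⊗ₖ C ∧ (h : Matrix (κ × ρ) (κ × ρ) R) * (F ⊗ₖ (1 : Matrix ρ ρ R)) =
        (F ⊗ₖ (1 : Matrix ρ ρ R)) * (h : Matrix (κ × ρ) (κ × ρ) R)}
  mul_mem' := by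
    rintro a b ⟨ha1, ha2⟩ ⟨hb1, hb2⟩
    refine ⟨?_, ?_⟩
    · rw [Units.val_mul, Matrix.transpose_mul]
      calc _ = (b : Matrix (κ × ρ) (κ × ρ) R)ᵀ * ((a : Matrix (κ × ρ) (κ × ρ) R)ᵀ * (ψ ⊗ₖ C) *
            (a : Matrix (κ × ρ) (κ × ρ) R)) * (b : Matrix (κ × ρ) (κ × ρ) R) := by noncomm_ring
        _ = _ := by rw [ha1, hb1]
    · rw [Units.val_mul, mul_assoc, hb2, ← mul_assoc, ha2, mul_assoc]
  one_mem' := by
    refine ⟨?_, ?_⟩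
    · rw [Units.val_one, Matrix.transpose_one, one_mul, mul_one]
    · rw [Units.val_one, one_mul, mul_one]
  inv_mem' := by
    rintro a ⟨ha1, ha2⟩
    have e1 : (a : Matrix (κ × ρ) (κ × ρ) R) * ((a⁻¹ : GL (κ × ρ) R) : Matrix (κ × ρ) (κ × ρ) R)
        = 1 := by
      rw [← Units.val_mul, mul_inv_cancel, Units.val_one]
    have e1' : ((a⁻¹ : GL (κ × ρ) R) : Matrix (κ × ρ) (κ × ρ) R) * (a : Matrix (κ × ρ) (κ × ρ) R)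
        = 1 := by
      rw [← Units.val_mul, inv_mul_cancel, Units.val_one]
    have e2 : ((a⁻¹ : GL (κ × ρ) R) : Matrix (κ × ρ) (κ × ρ) R)ᵀ *
        (a : Matrix (κ × ρ) (κ × ρ) R)ᵀ = 1 := by
      rw [← Matrix.transpose_mul, e1, Matrix.transpose_one]
    refine ⟨?_, ?_⟩
    · calc ((a⁻¹ : GL (κ × ρ) R) : Matrix (κ × ρ) (κ × ρ) R)ᵀ * (ψ ⊗ₖ C) *
            ((a⁻¹ : GL (κ × ρ) R) : Matrix (κ × ρ) (κ × ρ) R)
          = ((a⁻¹ : GL (κ × ρ) R) : Matrix (κ × ρ) (κ × ρ) R)ᵀ *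
            ((a : Matrix (κ × ρ) (κ × ρ) R)ᵀ * (ψ ⊗ₖ C) * (a : Matrix (κ × ρ) (κ × ρ) R)) *
            ((a⁻¹ : GL (κ × ρ) R) : Matrix (κ × ρ) (κ × ρ) R) := by rw [ha1]
        _ = (((a⁻¹ : GL (κ × ρ) R) : Matrix (κ × ρ) (κ × ρ) R)ᵀ *
            (a : Matrix (κ × ρ) (κ × ρ) R)ᵀ) * (ψ ⊗ₖ C) * ((a : Matrix (κ × ρ) (κ × ρ) R) *
            ((a⁻¹ : GL (κ × ρ) R) : Matrix (κ × ρ) (κ × ρ) R)) := by noncomm_ring
        _ = _ := by rw [e1, e2, one_mul, mul_one]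
    · calc ((a⁻¹ : GL (κ × ρ) R) : Matrix (κ × ρ) (κ × ρ) R) * (F ⊗ₖ (1 : Matrix ρ ρ R))
          = ((a⁻¹ : GL (κ × ρ) R) : Matrix (κ × ρ) (κ × ρ) R) * ((F ⊗ₖ (1 : Matrix ρ ρ R)) *
            (a : Matrix (κ × ρ) (κ × ρ) R)) *
            ((a⁻¹ : GL (κ × ρ) R) : Matrix (κ × ρ) (κ × ρ) R) := by
            rw [mul_assoc, mul_assoc, e1, mul_one]
        _ = (((a⁻¹ : GL (κ × ρ) R) : Matrix (κ × ρ) (κ × ρ) R) *
            (a : Matrix (κ × ρ) (κ × ρ) R)) * (F ⊗ₖ (1 : Matrix ρ ρ R)) *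
            ((a⁻¹ : GL (κ × ρ) R) : Matrix (κ × ρ) (κ × ρ) R) := by
            rw [← ha2]
            noncomm_ring
        _ = _ := by rw [e1', one_mul]

theorem mem_isoG {ψ F : Matrix κ κ R} {C : Matrix ρ ρ R} {h : GL (κ × ρ) R} :
    h ∈ isoG ψ F C ↔ (h : Matrix (κ × ρ) (κ × ρ) R)ᵀ * (ψ ⊗ₖ C) *
      (h : Matrix (κ × ρ) (κ × ρ) R) = ψ ⊗ₖ C ∧
      (h : Matrix (κ × ρ) (κ × ρ) R) * (F ⊗ₖ (1 : Matrix ρ ρ R)) =
        (F ⊗ₖ (1 : Matrix ρ ρ R)) * (h : Matrix (κ × ρ) (κ × ρ) R) := Iff.rfl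

end general

section ladic

variable {ℓ : ℕ} [Fact ℓ.Prime] {κ ρ : Type*} [Fintype κ] [DecidableEq κ] [Fintype ρ]
  [DecidableEq ρ]

/-- `1 + t n` as a unit. -/
noncomputable def ut {ι : Type*} [Fintype ι] [DecidableEq ι] (n : Matrix ι ι ℚ_[ℓ])
    (hn : n * n = 0) (t : ℚ_[ℓ]) : GL ι ℚ_[ℓ] where
  val := 1 + t • n
  inv := 1 - t • n
  val_inv := by
    rw [mul_sub, add_mul, add_mul, one_mul, mul_one, one_mul, smul_mul_smul_comm, hn, smul_zero]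
    abel
  inv_val := by
    rw [mul_add, sub_mul, sub_mul, one_mul, mul_one, one_mul, smul_mul_smul_comm, hn, smul_zero]
    abel

/-- A block of a matrix. -/
def blk4 (a : Matrix (κ × ρ) (κ × ρ) ℚ_[ℓ]) (r s : ρ) : Matrix κ κ ℚ_[ℓ] :=
  fun i j => a (i, r) (j, s)

/-- The commutant of `F` is contained in `E` if the blocks of the elements of `Γ` are in `E`. -/
theorem commutant_le (ψ F : GL κ ℚ_[ℓ]) (hψ : (ψ : Matrix κ κ ℚ_[ℓ])ᵀ = -(ψ : Matrix κ κ ℚ_[ℓ]))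
    (q : ℚ_[ℓ]) (hF : (F : Matrix κ κ ℚ_[ℓ])ᵀ * (ψ : Matrix κ κ ℚ_[ℓ]) *
      (F : Matrix κ κ ℚ_[ℓ]) = q • (ψ : Matrix κ κ ℚ_[ℓ]))
    (C : Matrix ρ ρ ℚ_[ℓ]) (hC : Cᵀ = C) (v w : ρ → ℚ_[ℓ]) (hvv : (C *ᵥ v) ⬝ᵥ v = 0)
    (hvw : (C *ᵥ v) ⬝ᵥ w = 0) (hwv : (C *ᵥ w) ⬝ᵥ v = 0) (hww : (C *ᵥ w) ⬝ᵥ w = 0)
    (r s : ρ) (hwr : w r = 0) (hvr : v r ≠ 0) (hws : (C *ᵥ w) s ≠ 0)
    (E : Submodule ℚ_[ℓ] (Matrix κ κ ℚ_[ℓ])) (Γ : Subgroup (GL (κ × ρ) ℚ_[ℓ]))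
    (hΓE : ∀ γ ∈ Γ, ∀ r s, blk4 ((γ : GL (κ × ρ) ℚ_[ℓ]) : Matrix (κ × ρ) (κ × ρ) ℚ_[ℓ]) r s ∈ E)
    (hΓH : Γ ≤ isoG (ψ : Matrix κ κ ℚ_[ℓ]) (F : Matrix κ κ ℚ_[ℓ]) C)
    (hfin : {γ : GL (κ × ρ) ℚ_[ℓ] | γ ∈ Γ ∧ γ ∈ KN ℓ (κ × ρ) 0}.Finite)
    (hY : ∃ Z : Finset (GL (κ × ρ) ℚ_[ℓ]),
      ∀ x ∈ isoG (ψ : Matrix κ κ ℚ_[ℓ]) (F : Matrix κ κ ℚ_[ℓ]) C,
        ∃ z ∈ Z, ∃ γ ∈ Γ, ∃ k ∈ KN ℓ (κ × ρ) 0,
          k ∈ isoG (ψ : Matrix κ κ ℚ_[ℓ]) (F : Matrix κ κ ℚ_[ℓ]) C ∧ x = γ * z * k)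
    (φ : Matrix κ κ ℚ_[ℓ]) (hφ : φ * (F : Matrix κ κ ℚ_[ℓ]) = (F : Matrix κ κ ℚ_[ℓ]) * φ) :
    φ ∈ E := by
  have hn := nil_sq ψ C v w hvv hvw hwv hww φ
  have hsk := nil_skew ψ hψ C hC v w φ
  have hcm := nil_comm ψ F q hF C v w φ hφ
  set n := nil ψ C v w φ with hndef
  have hmem : n ∈ spn Γ := by
    refine mem_spn_of_nil _ Γ hΓH hfin hY n hn (fun t => ut n hn t) (fun t => rfl) ?_
    intro t
    rw [mem_isoG]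
    change (1 + t • n)ᵀ * _ * (1 + t • n) = _ ∧ (1 + t • n) * _ = _ * (1 + t • n)
    constructor
    · have h1 : nᵀ * ((ψ : Matrix κ κ ℚ_[ℓ]) ⊗ₖ C) = -(((ψ : Matrix κ κ ℚ_[ℓ]) ⊗ₖ C) * n) :=
        eq_neg_of_add_eq_zero_left hsk
      have h2 : nᵀ * ((ψ : Matrix κ κ ℚ_[ℓ]) ⊗ₖ C) * n = 0 := by
        rw [h1, neg_mul, mul_assoc, hn, mul_zero, neg_zero]
      rw [Matrix.transpose_add, Matrix.transpose_one, Matrix.transpose_smul]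
      calc (1 + t • nᵀ) * ((ψ : Matrix κ κ ℚ_[ℓ]) ⊗ₖ C) * (1 + t • n)
          = ((ψ : Matrix κ κ ℚ_[ℓ]) ⊗ₖ C) + t • (nᵀ * ((ψ : Matrix κ κ ℚ_[ℓ]) ⊗ₖ C) +
            ((ψ : Matrix κ κ ℚ_[ℓ]) ⊗ₖ C) * n) +
            (t * t) • (nᵀ * ((ψ : Matrix κ κ ℚ_[ℓ]) ⊗ₖ C) * n) := by
            rw [add_mul, one_mul, mul_add, mul_one, add_mul, smul_mul_assoc, smul_mul_assoc,
              mul_smul_comm, mul_smul_comm, smul_smul, smul_add]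
            abel
        _ = _ := by rw [hsk, h2, smul_zero, smul_zero, add_zero, add_zero]
    · rw [add_mul, mul_add, one_mul, mul_one, smul_mul_assoc, mul_smul_comm, hcm]
  -- the block `(r, s)`
  have hblk : ∀ a ∈ spn Γ, blk4 a r s ∈ E := by
    intro a ha
    refine Submodule.span_induction (p := fun a _ => blk4 a r s ∈ E) ?_ ?_ ?_ ?_ ha
    · rintro _ ⟨γ, hγ, rfl⟩
      exact hΓE γ hγ r s
    · exact E.zero_mem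
    · intro a b _ _ ha hb
      exact E.add_mem ha hb
    · intro c a _ ha
      exact E.smul_mem c ha
  have h1 := hblk n hmem
  have h2 : blk4 n r s = (v r * (C *ᵥ w) s) • φ := by
    ext i j
    rw [blk4, hndef, nil, Matrix.sub_apply, Matrix.kroneckerMap_apply, Matrix.kroneckerMap_apply,
      Matrix.vecMulVec_apply, Matrix.vecMulVec_apply, hwr, Matrix.smul_apply, smul_eq_mul]
    ring
  rw [h2] at h1
  have h3 : v r * (C *ᵥ w) s ≠ 0 := mul_ne_zero hvr hws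
  have h4 := E.smul_mem (v r * (C *ᵥ w) s)⁻¹ h1
  rwa [smul_smul, inv_mul_cancel₀ h3, one_smul] at h4

end ladic

end Pool.Agent.TIFA
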