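import Mathlib

/-!
# A recurrence lemma for groups with finitely many double cosets

`G` a group, `Γ`, `K` subgroups, `K` commensurable with its conjugates, `Γ ∩ x K x⁻¹` finite, and
`Γ \ G / K` finite. Then for every sequence `g i` there are `i < j` such that `K g j (g i)⁻¹ K`
meets `Γ`. (Poincaré recurrence, without measures.)
-/

set_option autoImplicit false
set_option maxHeartbeats 1000000

open scoped Pointwise

namespace Pool.Agent.TIFA

section orbits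

variable {Γ X : Type*} [Group Γ] [MulAction Γ X]

/-- The stabilisers of points of the same orbit have the same order. -/
theorem card_stab_smul (γ : Γ) (r : X) :
    Nat.card (MulAction.stabilizer Γ (γ • r)) = Nat.card (MulAction.stabilizer Γ r) := by
  have h : MulAction.orbitRel Γ X (γ • r) r := ⟨γ, rfl⟩
  exact Nat.card_congr (MulAction.stabilizerEquivStabilizerOfOrbitRel h).toEquiv

/-- Orbit-stabiliser for a block `F` of the action: `|Γ_F| = |stab r| * |F ∩ Γ r|`. -/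
theorem block_card (F : Finset X) (B : Subgroup Γ) (hB : ∀ γ : Γ, (∃ f ∈ F, γ • f ∈ F) → γ ∈ B)
    (hB' : ∀ γ ∈ B, ∀ f ∈ F, γ • f ∈ F) [Finite B] (r : X) (γ₀ : Γ) (h0 : γ₀ • r ∈ F) :
    Nat.card B = Nat.card (MulAction.stabilizer Γ r) *
      Set.ncard {f | f ∈ F ∧ f ∈ MulAction.orbit Γ r} := by
  classical
  set f₀ := γ₀ • r with hf₀
  have e1 : Nat.card (MulAction.orbit B f₀) * Nat.card (MulAction.stabilizer B f₀)
      = Nat.card B := by
    rw [← Nat.card_prod]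
    exact Nat.card_congr (MulAction.orbitProdStabilizerEquivGroup B f₀)
  have e2 : (MulAction.orbit B f₀ : Set X) = {f | f ∈ F ∧ f ∈ MulAction.orbit Γ r} := by
    ext f
    constructor
    · rintro ⟨β, rfl⟩
      refine ⟨hB' β β.2 _ h0, ?_⟩
      refine ⟨(β : Γ) * γ₀, ?_⟩
      change ((β : Γ) * γ₀) • r = (β : Γ) • f₀
      rw [mul_smul]
    · rintro ⟨hf, γ, rfl⟩
      have h1 : (γ * γ₀⁻¹) • f₀ = γ • r := by rw [hf₀, smul_smul, inv_mul_cancel_right]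
      refine ⟨⟨γ * γ₀⁻¹, hB _ ⟨f₀, h0, by rw [h1]; exact hf⟩⟩, ?_⟩
      exact h1
  have e3 : Nat.card (MulAction.stabilizer B f₀) = Nat.card (MulAction.stabilizer Γ f₀) := by
    refine Nat.card_congr ⟨fun β => ⟨(β.1 : Γ), β.2⟩,
      fun γ => ⟨⟨γ.1, hB _ ⟨f₀, h0, by rw [MulAction.mem_stabilizer_iff.1 γ.2]; exact h0⟩⟩, γ.2⟩,
      fun _ => rfl, fun _ => rfl⟩
  rw [← e1, e3, card_stab_smul, ← Nat.card_coe_set_eq, e2, mul_comm]

/-- The weight of a union of orbits, with respect to a finite set `R` of representatives. -/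
noncomputable def wt (Γ : Type*) {X : Type*} [Group Γ] [MulAction Γ X] (R : Finset X)
    (U : Set X) : ℚ :=
  open Classical in ∑ r ∈ R.filter (· ∈ U), (1 : ℚ) / Nat.card (MulAction.stabilizer Γ r)

/-- The weight of the union of the orbits which meet the block `F` is `|F| / |Γ_F|`. -/
theorem wt_block (R : Finset X) (hR : ∀ x : X, ∃ r ∈ R, x ∈ MulAction.orbit Γ r)
    (hR' : ∀ r ∈ R, ∀ r' ∈ R, r ∈ MulAction.orbit Γ r' → r = r')
    (hst : ∀ x : X, Finite (MulAction.stabilizer Γ x)) (F : Finset X) (B : Subgroup Γ)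
    (hB : ∀ γ : Γ, (∃ f ∈ F, γ • f ∈ F) → γ ∈ B)
    (hB' : ∀ γ ∈ B, ∀ f ∈ F, γ • f ∈ F) [Finite B] :
    wt Γ R {x | ∃ γ : Γ, γ • x ∈ F} = (F.card : ℚ) / Nat.card B := by
  classical
  have hBpos : (Nat.card B : ℚ) ≠ 0 := Nat.cast_ne_zero.2 Nat.card_pos.ne'
  -- the weight of one representative
  have h1 : ∀ r ∈ R.filter (· ∈ {x | ∃ γ : Γ, γ • x ∈ F}),
      (1 : ℚ) / Nat.card (MulAction.stabilizer Γ r)
        = ((F.filter (· ∈ MulAction.orbit Γ r)).card : ℚ) / Nat.card B := by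
    intro r hr
    obtain ⟨-, γ₀, h0⟩ := Finset.mem_filter.1 hr
    have h2 := block_card F B hB hB' r γ₀ h0
    have h3 : Set.ncard {f | f ∈ F ∧ f ∈ MulAction.orbit Γ r}
        = (F.filter (· ∈ MulAction.orbit Γ r)).card := by
      rw [← Set.ncard_coe_finset]
      congr 1
      ext f
      simp
    rw [h3] at h2
    have := hst r
    have hs : (Nat.card (MulAction.stabilizer Γ r) : ℚ) ≠ 0 := Nat.cast_ne_zero.2 Nat.card_pos.ne'
    have h4 : (Nat.card B : ℚ) = Nat.card (MulAction.stabilizer Γ r) *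
        (F.filter (· ∈ MulAction.orbit Γ r)).card := by
      rw [h2]
      push_cast
      rfl
    rw [div_eq_div_iff hs hBpos, one_mul, h4, mul_comm]
  rw [wt, Finset.sum_congr rfl h1, ← Finset.sum_div]
  congr 1
  rw [← Nat.cast_sum]
  congr 1
  -- `F` is the disjoint union of its intersections with the orbits
  rw [← Finset.card_biUnion]
  · congr 1
    ext f
    rw [Finset.mem_biUnion]
    constructor
    · rintro ⟨r, -, hf⟩
      exact (Finset.mem_filter.1 hf).1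
    · intro hf
      obtain ⟨r, hr, hfr⟩ := hR f
      refine ⟨r, Finset.mem_filter.2 ⟨hr, ?_⟩, Finset.mem_filter.2 ⟨hf, hfr⟩⟩
      obtain ⟨γ, rfl⟩ := hfr
      exact ⟨γ, hf⟩
  · intro r hr r' hr' hne
    rw [Function.onFun, Finset.disjoint_left]
    intro f hf hf'
    apply hne
    have hr1 := (Finset.mem_filter.1 hr).1
    have hr2 := (Finset.mem_filter.1 hr').1
    apply hR' r hr1 r' hr2
    have o1 := (Finset.mem_filter.1 hf).2
    have o2 := (Finset.mem_filter.1 hf').2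
    obtain ⟨γ, rfl⟩ := o1
    obtain ⟨γ', h'⟩ := o2
    refine ⟨γ⁻¹ * γ', ?_⟩
    change (γ⁻¹ * γ') • r' = r
    rw [mul_smul]
    change γ⁻¹ • (fun m : Γ => m • r') γ' = r
    rw [h']
    change γ⁻¹ • γ • r = r
    rw [inv_smul_smul]

theorem wt_nonneg (R : Finset X) (U : Set X) : 0 ≤ wt Γ R U := by
  classical
  unfold wt
  exact Finset.sum_nonneg fun r _ => by positivity

/-- Additivity of the weight over a finite family of pairwise disjoint sets. -/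
theorem wt_sum_le {ι : Type*} (R : Finset X) (I : Finset ι) (U : ι → Set X)
    (hU : ∀ i ∈ I, ∀ j ∈ I, i ≠ j → Disjoint (U i) (U j)) :
    ∑ i ∈ I, wt Γ R (U i) ≤ ∑ r ∈ R, (1 : ℚ) / Nat.card (MulAction.stabilizer Γ r) := by
  classical
  unfold wt
  have h1 : ∀ i ∈ I, ∀ j ∈ I, i ≠ j →
      Disjoint (R.filter (· ∈ U i)) (R.filter (· ∈ U j)) := by
    intro i hi j hj hij
    rw [Finset.disjoint_left]
    intro r hr hr'
    exact Set.disjoint_left.1 (hU i hi j hj hij) (Finset.mem_filter.1 hr).2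
      (Finset.mem_filter.1 hr').2
  rw [← Finset.sum_biUnion (s := I) (t := fun i => R.filter (· ∈ U i))
    (fun i hi j hj hij => h1 i hi j hj hij)]
  refine Finset.sum_le_sum_of_subset_of_nonneg ?_ fun r _ _ => by positivity
  intro r hr
  obtain ⟨i, -, hi⟩ := Finset.mem_biUnion.1 hr
  exact (Finset.mem_filter.1 hi).1

theorem wt_sum_eq {ι : Type*} (R : Finset X) (I : Finset ι) (U : ι → Set X)
    (hU : ∀ i ∈ I, ∀ j ∈ I, i ≠ j → Disjoint (U i) (U j)) (hcov : ∀ x : X, ∃ i ∈ I, x ∈ U i) :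
    ∑ i ∈ I, wt Γ R (U i) = ∑ r ∈ R, (1 : ℚ) / Nat.card (MulAction.stabilizer Γ r) := by
  classical
  unfold wt
  have h1 : ∀ i ∈ I, ∀ j ∈ I, i ≠ j →
      Disjoint (R.filter (· ∈ U i)) (R.filter (· ∈ U j)) := by
    intro i hi j hj hij
    rw [Finset.disjoint_left]
    intro r hr hr'
    exact Set.disjoint_left.1 (hU i hi j hj hij) (Finset.mem_filter.1 hr).2
      (Finset.mem_filter.1 hr').2
  rw [← Finset.sum_biUnion (s := I) (t := fun i => R.filter (· ∈ U i))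
    (fun i hi j hj hij => h1 i hi j hj hij)]
  congr 1
  ext r
  rw [Finset.mem_biUnion]
  constructor
  · rintro ⟨i, -, hi⟩
    exact (Finset.mem_filter.1 hi).1
  · intro hr
    obtain ⟨i, hi, hri⟩ := hcov r
    exact ⟨i, hi, Finset.mem_filter.2 ⟨hr, hri⟩⟩

end orbits

section groups

variable {G : Type*} [Group G]

/-- The coset space `y K₁ / K''`. -/
def blk (K'' K₁ : Subgroup G) (y : G) : Set (G ⧸ K'') := {x | ∃ k ∈ K₁, x = ((y * k : G) : G ⧸ K'')}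

theorem ncard_blk (K'' K₁ : Subgroup G) (y : G) :
    Nat.card (blk K'' K₁ y) = K''.relIndex K₁ := by
  classical
  rw [Subgroup.relIndex, Subgroup.index]
  symm
  refine Nat.card_congr (Equiv.ofBijective
    (fun q : K₁ ⧸ K''.subgroupOf K₁ =>
      (⟨((y * (q.out : G) : G) : G ⧸ K''), (q.out : G), q.out.2, rfl⟩ : blk K'' K₁ y)) ⟨?_, ?_⟩)
  · intro q q' h
    have h1 : ((y * (q.out : G) : G) : G ⧸ K'') = ((y * (q'.out : G) : G) : G ⧸ K'') :=
      congrArg Subtype.val h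
    rw [QuotientGroup.eq] at h1
    have h2 : (q.out : G)⁻¹ * (q'.out : G) ∈ K'' := by
      have : (y * (q.out : G))⁻¹ * (y * (q'.out : G)) = (q.out : G)⁻¹ * (q'.out : G) := by group
      rwa [this] at h1
    rw [← QuotientGroup.out_eq' q, ← QuotientGroup.out_eq' q']
    rw [QuotientGroup.eq]
    exact Subgroup.mem_subgroupOf.2 h2
  · rintro ⟨x, k, hk, rfl⟩
    refine ⟨((⟨k, hk⟩ : K₁) : K₁ ⧸ K''.subgroupOf K₁), Subtype.ext ?_⟩
    change ((y * (((⟨k, hk⟩ : K₁) : K₁ ⧸ K''.subgroupOf K₁).out : G) : G) : G ⧸ K'') = _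
    rw [QuotientGroup.eq]
    have h1 : (((⟨k, hk⟩ : K₁) : K₁ ⧸ K''.subgroupOf K₁).out)⁻¹ * (⟨k, hk⟩ : K₁)
        ∈ K''.subgroupOf K₁ := by
      rw [← QuotientGroup.eq, QuotientGroup.out_eq']
    have h2 := Subgroup.mem_subgroupOf.1 h1
    have h3 : (y * (((⟨k, hk⟩ : K₁) : K₁ ⧸ K''.subgroupOf K₁).out : G))⁻¹ * (y * k)
        = ((((⟨k, hk⟩ : K₁) : K₁ ⧸ K''.subgroupOf K₁).out : G))⁻¹ * k := by group
    rw [h3]
    exact h2

/-- The weight of `Γ y K₁` in `Γ \ G / K''`. -/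
theorem wt_coset (Γ K'' K₁ : Subgroup G) (hK : K'' ≤ K₁) (hfin : K''.relIndex K₁ ≠ 0) (y : G)
    (hΓ : Finite (Γ ⊓ K₁.comap (MulAut.conj y⁻¹).toMonoidHom : Subgroup G))
    (R : Finset (G ⧸ K'')) (hR : ∀ x : G ⧸ K'', ∃ r ∈ R, x ∈ MulAction.orbit Γ r)
    (hR' : ∀ r ∈ R, ∀ r' ∈ R, r ∈ MulAction.orbit Γ r' → r = r')
    (hst : ∀ x : G ⧸ K'', Finite (MulAction.stabilizer Γ x)) :
    wt Γ R {x | ∃ γ : Γ, γ • x ∈ blk K'' K₁ y} = (K''.relIndex K₁ : ℚ) /
      Nat.card (Γ ⊓ K₁.comap (MulAut.conj y⁻¹).toMonoidHom : Subgroup G) := by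
  classical
  have hF : (blk K'' K₁ y).Finite := by
    apply Set.finite_coe_iff.1
    apply (Nat.card_ne_zero.1 _).2
    rw [ncard_blk]
    exact hfin
  set B : Subgroup Γ := (K₁.comap (MulAut.conj y⁻¹).toMonoidHom).subgroupOf Γ with hBdef
  have hBmem : ∀ γ : Γ, γ ∈ B ↔ y⁻¹ * (γ : G) * y ∈ K₁ := by
    intro γ
    rw [hBdef, Subgroup.mem_subgroupOf, Subgroup.mem_comap]
    change y⁻¹ * (γ : G) * (y⁻¹)⁻¹ ∈ K₁ ↔ _
    rw [inv_inv]
  -- the two forms of the stabiliser of the block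
  have e : B ≃ (Γ ⊓ K₁.comap (MulAut.conj y⁻¹).toMonoidHom : Subgroup G) :=
    ⟨fun b => ⟨(b.1 : G), b.1.2, b.2⟩, fun c => ⟨⟨c.1, c.2.1⟩, c.2.2⟩, fun _ => rfl, fun _ => rfl⟩
  have : Finite B := Finite.of_equiv _ e.symm
  have hB : ∀ γ : Γ, (∃ f ∈ hF.toFinset, γ • f ∈ hF.toFinset) → γ ∈ B := by
    rintro γ ⟨f, hf, hf'⟩
    rw [Set.Finite.mem_toFinset] at hf hf'
    obtain ⟨k, hk, rfl⟩ := hf
    obtain ⟨k', hk', h⟩ := hf'
    have h1 : ((((γ : G) * (y * k) : G)) : G ⧸ K'') = ((y * k' : G) : G ⧸ K'') := h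
    rw [QuotientGroup.eq] at h1
    rw [hBmem]
    have h2 : y⁻¹ * (γ : G) * y = k' * (((γ : G) * (y * k))⁻¹ * (y * k'))⁻¹ * k⁻¹ := by group
    rw [h2]
    exact K₁.mul_mem (K₁.mul_mem hk' (K₁.inv_mem (hK h1))) (K₁.inv_mem hk)
  have hB' : ∀ γ ∈ B, ∀ f ∈ hF.toFinset, γ • f ∈ hF.toFinset := by
    intro γ hγ f hf
    rw [Set.Finite.mem_toFinset] at hf ⊢
    obtain ⟨k, hk, rfl⟩ := hf
    refine ⟨y⁻¹ * (γ : G) * y * k, K₁.mul_mem ((hBmem γ).1 hγ) hk, ?_⟩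
    change ((((γ : G) * (y * k) : G)) : G ⧸ K'') = _
    congr 1
    group
  have key := wt_block R hR hR' hst hF.toFinset B hB hB'
  have h1 : {x | ∃ γ : Γ, γ • x ∈ hF.toFinset} = {x | ∃ γ : Γ, γ • x ∈ blk K'' K₁ y} := by
    ext x
    simp only [Set.mem_ofPred_eq, Set.Finite.mem_toFinset]
  rw [h1] at key
  rw [key, Nat.card_congr e, ← ncard_blk K'' K₁ y, Nat.card_coe_set_eq,
    Set.ncard_eq_toFinset_card _ hF]

/-- Conjugation does not change relative indices. -/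
theorem relIndex_conj (K L : Subgroup G) (a : G) :
    (K.comap (MulAut.conj a).toMonoidHom).relIndex (L.comap (MulAut.conj a).toMonoidHom)
      = K.relIndex L := by
  rw [Subgroup.relIndex_comap]
  congr 1
  exact Subgroup.map_comap_eq_self_of_surjective (MulAut.conj a).surjective L

theorem comap_conj_mul (K : Subgroup G) (a b : G) :
    (K.comap (MulAut.conj a).toMonoidHom).comap (MulAut.conj b).toMonoidHom
      = K.comap (MulAut.conj (a * b)).toMonoidHom := by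
  rw [Subgroup.comap_comap]
  congr 1
  ext x
  change a * (b * x * b⁻¹) * a⁻¹ = (a * b) * x * (a * b)⁻¹
  group

theorem mem_comap_conj (K : Subgroup G) (a x : G) :
    x ∈ K.comap (MulAut.conj a).toMonoidHom ↔ a * x * a⁻¹ ∈ K := Iff.rfl

theorem comap_conj_one (K : Subgroup G) : K.comap (MulAut.conj (1 : G)).toMonoidHom = K := by
  ext x
  rw [mem_comap_conj]
  simp

/-- All conjugates of `K` are commensurable with each other. -/
theorem comm_conj (K : Subgroup G)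
    (hcomm : ∀ x : G, (K.comap (MulAut.conj x).toMonoidHom).relIndex K ≠ 0) (a b : G) :
    (K.comap (MulAut.conj a).toMonoidHom).relIndex (K.comap (MulAut.conj b).toMonoidHom) ≠ 0 := by
  have h : K.comap (MulAut.conj a).toMonoidHom
      = (K.comap (MulAut.conj (a * b⁻¹)).toMonoidHom).comap (MulAut.conj b).toMonoidHom := by
    rw [comap_conj_mul, inv_mul_cancel_right]
  rw [h, relIndex_conj]
  exact hcomm _

/-- `Γ` meets all conjugates of `K` in finite groups. -/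
theorem finite_inf_conj (Γ K : Subgroup G)
    (hcomm : ∀ x : G, (K.comap (MulAut.conj x).toMonoidHom).relIndex K ≠ 0)
    (hfin : Finite (Γ ⊓ K : Subgroup G)) (x : G) :
    Finite (Γ ⊓ K.comap (MulAut.conj x).toMonoidHom : Subgroup G) := by
  have h1 : K.relIndex (K.comap (MulAut.conj x).toMonoidHom) ≠ 0 := by
    have := comm_conj K hcomm 1 x
    rwa [comap_conj_one] at this
  have h2 : K.relIndex (Γ ⊓ K.comap (MulAut.conj x).toMonoidHom) ≠ 0 := fun h =>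
    h1 (Subgroup.relIndex_eq_zero_of_le_right inf_le_right h)
  have h3 : (Γ ⊓ K : Subgroup G).relIndex (Γ ⊓ K.comap (MulAut.conj x).toMonoidHom) ≠ 0 := by
    refine Subgroup.relIndex_inf_ne_zero ?_ h2
    rw [Subgroup.relIndex_eq_one.2 inf_le_left]
    exact one_ne_zero
  have h4 : (⊥ : Subgroup G).relIndex (Γ ⊓ K : Subgroup G) ≠ 0 := by
    rw [Subgroup.relIndex_bot_left]
    exact Nat.card_pos.ne'
  have h5 := Subgroup.relIndex_ne_zero_trans h4 h3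
  rw [Subgroup.relIndex_bot_left] at h5
  exact (Nat.card_ne_zero.1 h5).2

/-- Representatives of the orbits. -/
theorem exists_reps {Γ X : Type*} [Group Γ] [MulAction Γ X] (S : Set X) (hS : S.Finite)
    (h : ∀ x : X, ∃ s ∈ S, x ∈ MulAction.orbit Γ s) :
    ∃ R : Finset X, (∀ x : X, ∃ r ∈ R, x ∈ MulAction.orbit Γ r) ∧
      ∀ r ∈ R, ∀ r' ∈ R, r ∈ MulAction.orbit Γ r' → r = r' := by
  classical
  let q : X → X := fun x => (Quotient.mk (MulAction.orbitRel Γ X) x).out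
  have hq : ∀ x, q x ∈ MulAction.orbit Γ x := by
    intro x
    have : (MulAction.orbitRel Γ X) (q x) x := Quotient.mk_out (s := MulAction.orbitRel Γ X) x
    exact this
  have hq' : ∀ x y, x ∈ MulAction.orbit Γ y → q x = q y := by
    intro x y hxy
    have : Quotient.mk (MulAction.orbitRel Γ X) x = Quotient.mk (MulAction.orbitRel Γ X) y :=
      Quotient.sound (s := MulAction.orbitRel Γ X) hxy
    change (Quotient.mk (MulAction.orbitRel Γ X) x).out = _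
    rw [this]
  refine ⟨hS.toFinset.image q, ?_, ?_⟩
  · intro x
    obtain ⟨s, hs, hxs⟩ := h x
    refine ⟨q s, Finset.mem_image_of_mem q (hS.mem_toFinset.2 hs), ?_⟩
    rw [← hq' x s hxs]
    exact MulAction.mem_orbit_symm.1 (hq x)
  · intro r hr r' hr' hrr
    obtain ⟨s, -, rfl⟩ := Finset.mem_image.1 hr
    obtain ⟨s', -, rfl⟩ := Finset.mem_image.1 hr'
    have e1 := hq' _ _ (hq s)
    have e2 := hq' _ _ (hq s')
    have e3 := hq' _ _ hrr
    rw [e1, e2] at e3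
    exact e3

/-- The finitely many double cosets give a finite set which meets all orbits on `G / K''`. -/
theorem exists_reps_of (Γ K K'' : Subgroup G) (hfi : K''.relIndex K ≠ 0)
    (Z : Finset G) (hZ : ∀ x : G, ∃ z ∈ Z, ∃ γ ∈ Γ, ∃ k ∈ K, x = γ * z * k) :
    ∃ R : Finset (G ⧸ K''), (∀ x : G ⧸ K'', ∃ r ∈ R, x ∈ MulAction.orbit Γ r) ∧
      ∀ r ∈ R, ∀ r' ∈ R, r ∈ MulAction.orbit Γ r' → r = r' := by
  classical
  refine exists_reps (⋃ z ∈ Z, blk K'' K z) (Z.finite_toSet.biUnion fun z _ => ?_) ?_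
  · apply Set.finite_coe_iff.1
    apply (Nat.card_ne_zero.1 _).2
    rw [ncard_blk]
    exact hfi
  · intro x
    obtain ⟨y, rfl⟩ := QuotientGroup.mk_surjective x
    obtain ⟨z, hz, γ, hγ, k, hk, rfl⟩ := hZ y
    refine ⟨((z * k : G) : G ⧸ K''), Set.mem_biUnion hz ⟨k, hk, rfl⟩, ⟨⟨γ, hγ⟩, ?_⟩⟩
    change ((γ * (z * k) : G) : G ⧸ K'') = _
    rw [mul_assoc]

theorem mem_blk (K'' K₁ : Subgroup G) (hK : K'' ≤ K₁) (z y : G) :
    ((y : G) : G ⧸ K'') ∈ blk K'' K₁ z ↔ z⁻¹ * y ∈ K₁ := by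
  constructor
  · rintro ⟨k, hk, h⟩
    rw [QuotientGroup.eq] at h
    have h1 : z⁻¹ * y = k * (y⁻¹ * (z * k))⁻¹ := by group
    rw [h1]
    exact K₁.mul_mem hk (K₁.inv_mem (hK h))
  · intro h
    refine ⟨z⁻¹ * y, h, ?_⟩
    congr 1
    group

theorem mem_blk' (Γ K K'' : Subgroup G) (a z y : G)
    (hK : K'' ≤ K.comap (MulAut.conj a).toMonoidHom) :
    (∃ γ : Γ, γ • ((y : G) : G ⧸ K'') ∈
      blk K'' (K.comap (MulAut.conj a).toMonoidHom) (z * a)) ↔
      ∃ γ ∈ Γ, z⁻¹ * γ * y * a⁻¹ ∈ K := by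
  have key : ∀ γ : G, (((γ * y : G) : G ⧸ K'') ∈
      blk K'' (K.comap (MulAut.conj a).toMonoidHom) (z * a)) ↔ z⁻¹ * γ * y * a⁻¹ ∈ K := by
    intro γ
    rw [mem_blk _ _ hK, mem_comap_conj]
    have : a * ((z * a)⁻¹ * (γ * y)) * a⁻¹ = z⁻¹ * γ * y * a⁻¹ := by group
    rw [this]
  constructor
  · rintro ⟨γ, h⟩
    exact ⟨γ, γ.2, (key γ).1 h⟩
  · rintro ⟨γ, hγ, h⟩
    exact ⟨⟨γ, hγ⟩, (key γ).2 h⟩

theorem smul_eq_mk (Γ K : Subgroup G) (γ : Γ) (r : G ⧸ K) :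
    γ • r = (((γ : G) * r.out : G) : G ⧸ K) := by
  conv_lhs => rw [← QuotientGroup.out_eq' r]
  rfl

theorem recurrence_aux (Γ K : Subgroup G) (g : ℕ → G) (y : G)
    (hcon : ∀ i j : ℕ, i < j → ∀ k ∈ K, ∀ k' ∈ K, k * (g j * (g i)⁻¹) * k' ∉ Γ) (a b : ℕ) (δ δ' : G)
    (hδ : δ ∈ Γ) (hδ' : δ' ∈ Γ) (ha : δ * y * (g a)⁻¹ ∈ K) (hb : δ' * y * (g b)⁻¹ ∈ K)
    (hab : a < b) : False := by
  refine hcon a b hab _ hb _ (K.inv_mem ha) ?_
  have e : δ' * y * (g b)⁻¹ * (g b * (g a)⁻¹) * (δ * y * (g a)⁻¹)⁻¹ = δ' * δ⁻¹ := by group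
  rw [e]
  exact Γ.mul_mem hδ' (Γ.inv_mem hδ)

theorem recurrence_arith (T c M d : ℚ) (N : ℕ) (hT : T = d * c) (hd : 0 < d) (hc : 0 < c)
    (hM : 0 < M) (h : ((N + 1 : ℕ) : ℚ) * (T / c / M) ≤ T) (hN : c * M < N) : False := by
  have hTpos : 0 < T := by
    rw [hT]
    positivity
  have h2 : ((N + 1 : ℕ) : ℚ) ≤ c * M := by
    rw [div_div, mul_div_assoc', div_le_iff₀ (by positivity)] at h
    have h3 : ((N + 1 : ℕ) : ℚ) * T ≤ (c * M) * T := by linarith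
    exact le_of_mul_le_mul_right h3 hTpos
  push_cast at h2
  linarith

/-- The recurrence lemma, for a sequence which begins with `1`. -/
theorem recurrence_one (Γ K : Subgroup G)
    (hcomm : ∀ x : G, (K.comap (MulAut.conj x).toMonoidHom).relIndex K ≠ 0)
    (hfin : Finite (Γ ⊓ K : Subgroup G))
    (hY : ∃ Z : Finset G, ∀ x : G, ∃ z ∈ Z, ∃ γ ∈ Γ, ∃ k ∈ K, x = γ * z * k)
    (g : ℕ → G) (hg0 : g 0 = 1) :
    ∃ i j : ℕ, i < j ∧ ∃ k ∈ K, ∃ k' ∈ K, k * (g j * (g i)⁻¹) * k' ∈ Γ := by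
  classical
  obtain ⟨Z, hZ⟩ := hY
  by_contra hcon
  push Not at hcon
  -- representatives of the orbits of `Γ` on `G / K`
  have hKK : K.relIndex K ≠ 0 := by
    rw [Subgroup.relIndex_self]
    exact one_ne_zero
  obtain ⟨R₀, hR₀, hR₀'⟩ := exists_reps_of Γ K K hKK Z hZ
  let c : ℚ := ∑ r ∈ R₀, (1 : ℚ) /
    Nat.card (Γ ⊓ K.comap (MulAut.conj (r.out)⁻¹).toMonoidHom : Subgroup G)
  have hfinx := finite_inf_conj Γ K hcomm hfin
  have hcpos : 0 < c := by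
    obtain ⟨r, hr, -⟩ := hR₀ ((1 : G) : G ⧸ K)
    refine Finset.sum_pos (fun r _ => ?_) ⟨r, hr⟩
    have := hfinx (r.out)⁻¹
    have h1 : 0 < Nat.card (Γ ⊓ K.comap (MulAut.conj (r.out)⁻¹).toMonoidHom : Subgroup G) :=
      Nat.card_pos
    positivity
  -- choose `N` large
  obtain ⟨N, hN⟩ := exists_nat_gt (c * Nat.card (Γ ⊓ K : Subgroup G))
  let Ki : Fin (N + 1) → Subgroup G := fun i => K.comap (MulAut.conj (g (i : ℕ))).toMonoidHom
  let K'' : Subgroup G := ⨅ i, Ki i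
  have hle : ∀ i, K'' ≤ Ki i := fun i => iInf_le _ i
  have hrel : ∀ i, K''.relIndex (Ki i) ≠ 0 := by
    intro i
    refine Subgroup.relIndex_iInf_ne_zero fun j => ?_
    exact comm_conj K hcomm _ _
  have hK0 : Ki 0 = K := by
    change K.comap (MulAut.conj (g ((0 : Fin (N + 1)) : ℕ))).toMonoidHom = K
    rw [Fin.val_zero, hg0, comap_conj_one]
  -- the orbits of `Γ` on `G / K''`
  have hrel0 : K''.relIndex K ≠ 0 := by
    have := hrel 0
    rwa [hK0] at this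
  obtain ⟨R, hR, hR'⟩ := exists_reps_of Γ K K'' hrel0 Z hZ
  have hst : ∀ x : G ⧸ K'', Finite (MulAction.stabilizer Γ x) := by
    intro x
    obtain ⟨y, rfl⟩ := QuotientGroup.mk_surjective x
    have h1 := hfinx y⁻¹
    refine Finite.of_injective (fun γ : MulAction.stabilizer Γ ((y : G) : G ⧸ K'') =>
      (⟨((γ.1 : Γ) : G), ?_⟩ : (Γ ⊓ K.comap (MulAut.conj y⁻¹).toMonoidHom : Subgroup G))) ?_
    · refine ⟨γ.1.2, ?_⟩
      change y⁻¹ * ((γ.1 : Γ) : G) * (y⁻¹)⁻¹ ∈ K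
      rw [inv_inv]
      have h3 : (((((γ.1 : Γ) : G) * y : G)) : G ⧸ K'') = ((y : G) : G ⧸ K'') := γ.2
      rw [QuotientGroup.eq] at h3
      have h4 : y⁻¹ * ((γ.1 : Γ) : G) * y = ((((γ.1 : Γ) : G) * y)⁻¹ * y)⁻¹ := by group
      rw [h4]
      have h5 : K'' ≤ K := hK0 ▸ hle 0
      exact K.inv_mem (h5 h3)
    · intro γ γ' h
      have h2 := congrArg
        (fun z : (Γ ⊓ K.comap (MulAut.conj y⁻¹).toMonoidHom : Subgroup G) => (z : G)) h
      exact Subtype.ext (Subtype.ext h2)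
  set T : ℚ := ∑ r ∈ R, (1 : ℚ) / Nat.card (MulAction.stabilizer Γ r) with hT
  -- the weight of a double coset
  have hw : ∀ (i : Fin (N + 1)) (z : G),
      wt Γ R {x | ∃ γ : Γ, γ • x ∈ blk K'' (Ki i) (z * g (i : ℕ))} =
        (K''.relIndex (Ki i) : ℚ) /
          Nat.card (Γ ⊓ K.comap (MulAut.conj z⁻¹).toMonoidHom : Subgroup G) := by
    intro i z
    have e : (Ki i).comap (MulAut.conj (z * g (i : ℕ))⁻¹).toMonoidHom
        = K.comap (MulAut.conj z⁻¹).toMonoidHom := by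
      change (K.comap (MulAut.conj (g (i : ℕ))).toMonoidHom).comap _ = _
      rw [comap_conj_mul]
      have : g (i : ℕ) * (z * g (i : ℕ))⁻¹ = z⁻¹ := by group
      rw [this]
    have h1 : Finite (Γ ⊓ (Ki i).comap (MulAut.conj (z * g (i : ℕ))⁻¹).toMonoidHom :
        Subgroup G) := by
      rw [e]
      exact hfinx z⁻¹
    have h2 := wt_coset Γ K'' (Ki i) (hle i) (hrel i) (z * g (i : ℕ)) h1 R hR hR' hst
    rw [h2, e]
  -- total weight
  have hTi : ∀ i : Fin (N + 1), T = (K''.relIndex (Ki i) : ℚ) * c := by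
    intro i
    have h1 := wt_sum_eq (Γ := Γ) R R₀
      (fun r => {x | ∃ γ : Γ, γ • x ∈ blk K'' (Ki i) (r.out * g (i : ℕ))}) ?_ ?_
    · rw [hT, ← h1, Finset.mul_sum]
      refine Finset.sum_congr rfl fun r _ => ?_
      rw [hw i r.out, mul_one_div]
    · intro r hr r' hr' hne
      rw [Set.disjoint_left]
      intro x hx hx'
      apply hne
      obtain ⟨y, rfl⟩ := QuotientGroup.mk_surjective x
      obtain ⟨γ, hγ, h2⟩ := (mem_blk' Γ K K'' (g (i : ℕ)) r.out y (hle i)).1 hx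
      obtain ⟨γ', hγ', h3⟩ := (mem_blk' Γ K K'' (g (i : ℕ)) r'.out y (hle i)).1 hx'
      apply hR₀' r hr r' hr'
      refine ⟨⟨γ * γ'⁻¹, Γ.mul_mem hγ (Γ.inv_mem hγ')⟩, ?_⟩
      have h4 : (r.out)⁻¹ * (γ * γ'⁻¹ * r'.out) ∈ K := by
        have : (r.out)⁻¹ * (γ * γ'⁻¹ * r'.out) = ((r.out)⁻¹ * γ * y * (g (i : ℕ))⁻¹) *
            ((r'.out)⁻¹ * γ' * y * (g (i : ℕ))⁻¹)⁻¹ := by group
        rw [this]
        exact K.mul_mem h2 (K.inv_mem h3)
      rw [← QuotientGroup.eq] at h4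
      have h5 : ((r.out : G) : G ⧸ K) = r := QuotientGroup.out_eq' r
      rw [h5] at h4
      rw [h4]
      exact smul_eq_mk Γ K _ r'
    · intro x
      obtain ⟨y, rfl⟩ := QuotientGroup.mk_surjective x
      obtain ⟨r, hr, γ, hγ⟩ := hR₀ ((y * (g (i : ℕ))⁻¹ : G) : G ⧸ K)
      refine ⟨r, hr, (mem_blk' Γ K K'' (g (i : ℕ)) r.out y (hle i)).2
        ⟨(γ : G)⁻¹, Γ.inv_mem γ.2, ?_⟩⟩
      have h7 : (((γ : G) * r.out : G) : G ⧸ K) = ((y * (g (i : ℕ))⁻¹ : G) : G ⧸ K) := by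
        rw [← hγ]
        exact (smul_eq_mk Γ K γ r).symm
      rw [QuotientGroup.eq] at h7
      have h8 : (r.out)⁻¹ * (γ : G)⁻¹ * y * (g (i : ℕ))⁻¹
          = ((γ : G) * r.out)⁻¹ * (y * (g (i : ℕ))⁻¹) := by group
      rw [h8]
      exact h7
  -- the disjoint sets
  have hsum := wt_sum_le (Γ := Γ) R (Finset.univ : Finset (Fin (N + 1)))
    (fun i => {x | ∃ γ : Γ, γ • x ∈ blk K'' (Ki i) (1 * g (i : ℕ))}) ?_
  · rw [← hT] at hsum
    have hM : 0 < (Nat.card (Γ ⊓ K : Subgroup G) : ℚ) := by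
      exact_mod_cast Nat.card_pos
    have h1 : ∀ i ∈ (Finset.univ : Finset (Fin (N + 1))),
        wt Γ R {x | ∃ γ : Γ, γ • x ∈ blk K'' (Ki i) (1 * g (i : ℕ))}
          = T / c / Nat.card (Γ ⊓ K : Subgroup G) := by
      intro i _
      rw [hw i 1, inv_one, comap_conj_one, hTi i, mul_div_cancel_right₀ _ hcpos.ne']
    rw [Finset.sum_congr rfl h1, Finset.sum_const, Finset.card_univ, Fintype.card_fin,
      nsmul_eq_mul] at hsum
    have hd : (0 : ℚ) < (K''.relIndex (Ki 0) : ℚ) :=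
      Nat.cast_pos.2 (Nat.pos_of_ne_zero (hrel 0))
    exact recurrence_arith T c _ _ N (hTi 0) hd hcpos hM hsum hN
  · intro i _ j _ hij
    rw [Set.disjoint_left]
    intro x hx hx'
    obtain ⟨y, rfl⟩ := QuotientGroup.mk_surjective x
    obtain ⟨γ, hγ, h2⟩ := (mem_blk' Γ K K'' (g (i : ℕ)) 1 y (hle i)).1 hx
    obtain ⟨γ', hγ', h3⟩ := (mem_blk' Γ K K'' (g (j : ℕ)) 1 y (hle j)).1 hx'
    rw [inv_one, one_mul] at h2 h3
    rcases lt_or_gt_of_ne (fun h : (i : ℕ) = j => hij (Fin.ext h)) with h | h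
    · exact recurrence_aux Γ K g y hcon i j γ γ' hγ hγ' h2 h3 h
    · exact recurrence_aux Γ K g y hcon j i γ' γ hγ' hγ h3 h2 h

/-- The recurrence lemma: for every sequence `g i` there are `i < j` such that
`K g j (g i)⁻¹ K` meets `Γ`. -/
theorem recurrence (Γ K : Subgroup G)
    (hcomm : ∀ x : G, (K.comap (MulAut.conj x).toMonoidHom).relIndex K ≠ 0)
    (hfin : Finite (Γ ⊓ K : Subgroup G))
    (hY : ∃ Z : Finset G, ∀ x : G, ∃ z ∈ Z, ∃ γ ∈ Γ, ∃ k ∈ K, x = γ * z * k)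
    (g : ℕ → G) :
    ∃ i j : ℕ, i < j ∧ ∃ k ∈ K, ∃ k' ∈ K, k * (g j * (g i)⁻¹) * k' ∈ Γ := by
  obtain ⟨i, j, hij, k, hk, k', hk', h⟩ := recurrence_one Γ K hcomm hfin hY
    (fun i => g i * (g 0)⁻¹) (mul_inv_cancel _)
  refine ⟨i, j, hij, k, hk, k', hk', ?_⟩
  have e : g j * (g 0)⁻¹ * (g i * (g 0)⁻¹)⁻¹ = g j * (g i)⁻¹ := by group
  rwa [e] at h

end groups

end Pool.Agent.TIFA
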